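import Pool.Agent.H91.LD.EBasic

/-!
# [H91 LD EZERO] small values of the denominator in one chart

* `loc_zero`: for `ξ ≤ ξ0` (small, depending on `M, r`): `‖g u‖ ≤ ξ < r^8`, so `‖g' u‖ ≥ r^4`, and `newton` with `l = r^4`,
  `K = M`, `e = ξ`.
* `loc_base`: let `‖u‖ ≤ 1/2` (the centre). If `‖g u‖ ≥ r^8` take `u' = u`; then `‖g v‖ ≥ r^8/2` for `‖v-u‖ ≤ r^8/(2M)`.
  Otherwise `‖g' u‖ ≥ r^4`. For `‖h‖ = h0` small (`h0 ≤ r^4/(2M)`, `h0 ≤ 1/4`) choose the direction of `h` such that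
  `‖g u + g' u h‖ ≥ ‖g' u‖ h0` (one of `h`, `-h` works: `‖a + b‖ ≥ ‖b‖` or `‖a - b‖ ≥ ‖b‖`); then by `EB.tay`
  `‖g (u+h)‖ ≥ r^4 h0 - M h0^2 ≥ r^4 h0/2`, and `‖g v‖ ≥ r^4 h0/4` for `‖v - (u+h)‖ ≤ r^4 h0/(4M)`.
-/

set_option autoImplicit false

open Polynomial MeasureTheory ComplexConjugate

namespace Pool.Agent.H91.LD

open Pool.Agent.H85.LD

theorem loc_zero (M r : ℝ) (hM : 1 ≤ M) (hr : 0 < r) (hr1 : r ≤ 1) : ∃ ξ0 : ℝ, 0 < ξ0 ∧
    ∀ g : ℂ → ℂ, EB g M → (∀ u, ‖u‖ ≤ 1 → ‖g u‖ < r ^ 8 → r ^ 4 ≤ ‖deriv g u‖) →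
    ∀ ξ : ℝ, ξ ≤ ξ0 → ∀ u, ‖u‖ ≤ 1 / 2 → ‖g u‖ ≤ ξ →
    ∃ v, ‖v‖ ≤ 1 ∧ g v = 0 ∧ ‖v - u‖ ≤ 2 / r ^ 4 * ξ := by
  have hM0 : 0 < M := by linarith
  have hr4 : 0 < r ^ 4 := by positivity
  have hr8 : 0 < r ^ 8 := by positivity
  have hr41 : r ^ 4 ≤ 1 := pow_le_one₀ hr.le hr1
  refine ⟨r ^ 8 / (8 * M), by positivity, fun g hg hgd ξ hξ u hu hgu => ?_⟩
  have hξ0 : 0 ≤ ξ := (norm_nonneg _).trans hgu
  have h8 : 8 * M * ξ ≤ (r ^ 4) ^ 2 := by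
    rw [le_div_iff₀ (by positivity)] at hξ
    calc 8 * M * ξ = ξ * (8 * M) := by ring
      _ ≤ r ^ 8 := hξ
      _ = (r ^ 4) ^ 2 := by ring
  have hξr : ξ ≤ r ^ 8 / 8 := by
    refine hξ.trans ?_
    rw [div_le_div_iff₀ (by positivity) (by norm_num)]
    nlinarith
  have hlt : ‖g u‖ < r ^ 8 := by linarith
  have hl := hgd u (by linarith) hlt
  have h2 : 2 * ξ / r ^ 4 ≤ 1 / 2 := by
    rw [div_le_iff₀ hr4]
    have h3 : r ^ 8 ≤ r ^ 4 := by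
      calc r ^ 8 = r ^ 4 * r ^ 4 := by ring
        _ ≤ r ^ 4 * 1 := mul_le_mul_of_nonneg_left hr41 hr4.le
        _ = r ^ 4 := mul_one _
    linarith
  obtain ⟨v, hv, hv0⟩ := newton g hg.1 u M (r ^ 4) ξ hM0.le hr4 hξ0 (fun v hv => by
    refine hg.lip1 u v (by linarith) ?_
    have := norm_add_le (v - u) u
    rw [sub_add_cancel] at this
    linarith) hl hgu h8 h2
  refine ⟨v, ?_, hv0, ?_⟩
  · have := norm_add_le (v - u) u
    rw [sub_add_cancel] at this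
    linarith
  · calc ‖v - u‖ ≤ 2 * ξ / r ^ 4 := hv
      _ = 2 / r ^ 4 * ξ := by ring

theorem loc_base (M r : ℝ) (hM : 1 ≤ M) (hr : 0 < r) (hr1 : r ≤ 1) : ∃ κ4 c5 : ℝ, 0 < κ4 ∧ 0 < c5 ∧
    c5 ≤ 1 / 4 ∧
    ∀ g : ℂ → ℂ, EB g M → (∀ u, ‖u‖ ≤ 1 → ‖g u‖ < r ^ 8 → r ^ 4 ≤ ‖deriv g u‖) →
    ∀ u, ‖u‖ ≤ 1 / 2 → ∃ u', ‖u' - u‖ ≤ 1 / 4 ∧ ∀ v, ‖v - u'‖ ≤ c5 → κ4 ≤ ‖g v‖ := by
  have hM0 : 0 < M := by linarith
  have hr4 : 0 < r ^ 4 := by positivity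
  have hr8 : 0 < r ^ 8 := by positivity
  have hr41 : r ^ 4 ≤ 1 := pow_le_one₀ hr.le hr1
  have hr81 : r ^ 8 ≤ 1 := pow_le_one₀ hr.le hr1
  have hMM : M ≤ M ^ 2 := by nlinarith
  have hM2 : 1 ≤ M ^ 2 := by nlinarith
  have hc : M * (r ^ 8 / (16 * M ^ 2)) = r ^ 8 / (16 * M) := by
    field_simp
  have hc16 : r ^ 8 / (16 * M ^ 2) ≤ 1 / 16 := by
    rw [div_le_div_iff₀ (by positivity) (by norm_num)]
    nlinarith
  have hcM : r ^ 8 / (16 * M) ≤ r ^ 8 / 16 := by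
    rw [div_le_div_iff₀ (by positivity) (by norm_num)]
    nlinarith
  refine ⟨r ^ 8 / (16 * M), r ^ 8 / (16 * M ^ 2), by positivity, by positivity, by linarith,
    fun g hg hgd u hu => ?_⟩
  by_cases hlt : ‖g u‖ < r ^ 8
  · have hl := hgd u (by linarith) hlt
    set h0 : ℝ := r ^ 4 / (4 * M) with hh0
    have hh0p : 0 < h0 := by positivity
    have hh04 : h0 ≤ 1 / 4 := by
      rw [hh0, div_le_div_iff₀ (by positivity) (by norm_num)]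
      nlinarith
    obtain ⟨w, hw, hgw⟩ : ∃ w : ℂ, ‖w‖ = h0 ∧ ‖deriv g u‖ * h0 ≤ ‖g u + deriv g u * w‖ := by
      have h1 : ‖deriv g u‖ * h0 + ‖deriv g u‖ * h0 ≤
          ‖g u + deriv g u * (h0 : ℂ)‖ + ‖g u + deriv g u * (-(h0 : ℂ))‖ := by
        have h2 := norm_sub_le (g u + deriv g u * (h0 : ℂ)) (g u + deriv g u * (-(h0 : ℂ)))
        have h3 : g u + deriv g u * (h0 : ℂ) - (g u + deriv g u * (-(h0 : ℂ))) =
            2 * (deriv g u * (h0 : ℂ)) := by ring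
        rw [h3, norm_mul, norm_mul, Complex.norm_real, Real.norm_of_nonneg hh0p.le] at h2
        have h4 : ‖(2 : ℂ)‖ = 2 := by norm_num
        rw [h4] at h2
        linarith
      by_cases h5 : ‖deriv g u‖ * h0 ≤ ‖g u + deriv g u * (h0 : ℂ)‖
      · exact ⟨(h0 : ℂ), by rw [Complex.norm_real, Real.norm_of_nonneg hh0p.le], h5⟩
      · refine ⟨-(h0 : ℂ), by rw [norm_neg, Complex.norm_real, Real.norm_of_nonneg hh0p.le], ?_⟩
        linarith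
    have hw4 : ‖w‖ ≤ 1 / 4 := by rw [hw]; exact hh04
    have huw : ‖u + w‖ ≤ 3 / 4 := (norm_add_le _ _).trans (by linarith)
    have h1 := hg.tay u (u + w) (by linarith) (by linarith)
    rw [add_sub_cancel_left, hw] at h1
    have h2 : ‖g u + deriv g u * w‖ ≤ ‖g (u + w)‖ + M * h0 ^ 2 := by
      have h3 := norm_sub_le (g (u + w)) (g (u + w) - g u - deriv g u * w)
      have h4 : g (u + w) - (g (u + w) - g u - deriv g u * w) = g u + deriv g u * w := by ring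
      rw [h4] at h3
      linarith
    have h3 : r ^ 4 * h0 ≤ ‖deriv g u‖ * h0 := mul_le_mul_of_nonneg_right hl hh0p.le
    have h4 : r ^ 4 * h0 = r ^ 8 / (4 * M) := by
      rw [hh0]
      ring
    have h5 : M * h0 ^ 2 = r ^ 8 / (16 * M) := by
      rw [hh0]
      field_simp
      ring
    have h6 : r ^ 8 / (4 * M) = 4 * (r ^ 8 / (16 * M)) := by ring
    refine ⟨u + w, by rw [add_sub_cancel_left]; exact hw4, fun v hv => ?_⟩
    have hv3 : ‖v‖ ≤ 3 := by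
      have := norm_add_le (v - (u + w)) (u + w)
      rw [sub_add_cancel] at this
      linarith
    have h7 := hg.lip (u + w) v (by linarith) hv3
    have h8 : M * ‖v - (u + w)‖ ≤ M * (r ^ 8 / (16 * M ^ 2)) := mul_le_mul_of_nonneg_left hv hM0.le
    have h9 : ‖g (u + w)‖ ≤ ‖g v‖ + ‖g v - g (u + w)‖ := by
      have := norm_sub_le (g v) (g v - g (u + w))
      rwa [sub_sub_cancel] at this
    have h10 : 0 < r ^ 8 / (16 * M) := by positivity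
    linarith
  · rw [not_lt] at hlt
    refine ⟨u, by rw [sub_self, norm_zero]; norm_num, fun v hv => ?_⟩
    have hv3 : ‖v‖ ≤ 3 := by
      have := norm_add_le (v - u) u
      rw [sub_add_cancel] at this
      linarith
    have h7 := hg.lip u v (by linarith) hv3
    have h8 : M * ‖v - u‖ ≤ M * (r ^ 8 / (16 * M ^ 2)) := mul_le_mul_of_nonneg_left hv hM0.le
    have h9 : ‖g u‖ ≤ ‖g v‖ + ‖g v - g u‖ := by
      have := norm_sub_le (g v) (g v - g u)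
      rwa [sub_sub_cancel] at this
    linarith

end Pool.Agent.H91.LD
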