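import Pool.Agent.H91.LD.SDefs
import Pool.Agent.H85.LD.Sg

/-!
# [H91 LD PLANAR] comparison of the chordal and the planar distance

`sg z x = ‖z-x‖/(√(1+‖z‖^2) √(1+‖x‖^2))` and `√(1+‖z‖^2) ≤ 1 + ‖z‖`.
* `le_sg`: with `u = ‖x-z‖ ≥ δ`, `‖x‖ ≤ T + u`: `sg ≥ u/((1+T)(1+T+u)) ≥ δ/((1+T)(1+T+δ)) ≥ δ/(T+2)^2`.
* `dist_le_sg`: `u = ‖z-x‖ ≤ sg (1+T)(1+T+u)` and `sg (1+T) ≤ 1/2` give `u ≤ 2 (1+T)^2 sg`.
* `sg_le_dist`: `√.. ≥ 1`.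
-/

set_option autoImplicit false

open Polynomial MeasureTheory ComplexConjugate

namespace Pool.Agent.H91.LD

open Pool.Agent.H85.LD

private theorem planar_sqrt (z x : ℂ) :
    √((1 + ‖z‖ ^ 2) * (1 + ‖x‖ ^ 2)) ≤ (1 + ‖z‖) * (1 + ‖x‖) := by
  rw [Real.sqrt_le_left (by positivity), mul_pow]
  have h1 : 1 + ‖z‖ ^ 2 ≤ (1 + ‖z‖) ^ 2 := by nlinarith [norm_nonneg z]
  have h2 : 1 + ‖x‖ ^ 2 ≤ (1 + ‖x‖) ^ 2 := by nlinarith [norm_nonneg x]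
  exact mul_le_mul h1 h2 (by positivity) (by positivity)

private theorem planar_pos (z x : ℂ) : 0 < √((1 + ‖z‖ ^ 2) * (1 + ‖x‖ ^ 2)) :=
  Real.sqrt_pos.2 (by positivity)

theorem le_sg {T δ : ℝ} {z x : ℂ} (hz : ‖z‖ ≤ T) (hδ : 0 ≤ δ) (hδ1 : δ ≤ 1) (h : δ ≤ ‖x - z‖) :
    δ / (T + 2) ^ 2 ≤ sg z x := by
  have hT : 0 ≤ T := (norm_nonneg z).trans hz
  unfold sg
  rw [div_le_div_iff₀ (by positivity) (planar_pos z x), norm_sub_rev z x]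
  have hx : ‖x‖ ≤ T + ‖x - z‖ := by
    have := norm_add_le (x - z) z
    rw [sub_add_cancel] at this
    linarith
  obtain ⟨u, hu⟩ : ∃ u : ℝ, u = ‖x - z‖ := ⟨_, rfl⟩
  rw [← hu] at hx h ⊢
  have h1 : √((1 + ‖z‖ ^ 2) * (1 + ‖x‖ ^ 2)) ≤ (1 + T) * (1 + (T + u)) := by
    refine (planar_sqrt z x).trans ?_
    exact mul_le_mul (by linarith) (by linarith) (by positivity) (by linarith)
  have h2 : δ * √((1 + ‖z‖ ^ 2) * (1 + ‖x‖ ^ 2)) ≤ δ * ((1 + T) * (1 + (T + u))) :=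
    mul_le_mul_of_nonneg_left h1 hδ
  refine h2.trans ?_
  have hu0 : 0 ≤ u := hδ.trans h
  have h3 : δ * ((1 + T) * (1 + T)) ≤ u * ((1 + T) * (1 + T)) :=
    mul_le_mul_of_nonneg_right h (by positivity)
  have h4 : δ * ((1 + T) * u) ≤ 1 * ((1 + T) * u) :=
    mul_le_mul_of_nonneg_right hδ1 (by positivity)
  nlinarith [mul_nonneg hu0 hT]

theorem dist_le_sg {T : ℝ} {z x : ℂ} (hx : ‖x‖ ≤ T) (h : sg z x * (1 + T) ≤ 1 / 2) :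
    ‖z - x‖ ≤ 2 * (1 + T) ^ 2 * sg z x := by
  have hT : 0 ≤ T := (norm_nonneg x).trans hx
  have hs : 0 ≤ sg z x := sg_nonneg z x
  have hz : ‖z‖ ≤ T + ‖z - x‖ := by
    have := norm_add_le (z - x) x
    rw [sub_add_cancel] at this
    linarith
  have h0 : ‖z - x‖ = sg z x * √((1 + ‖z‖ ^ 2) * (1 + ‖x‖ ^ 2)) := by
    unfold sg
    rw [div_mul_cancel₀ _ (planar_pos z x).ne']
  obtain ⟨u, hu⟩ : ∃ u : ℝ, u = ‖z - x‖ := ⟨_, rfl⟩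
  have hu0 : 0 ≤ u := by rw [hu]; exact norm_nonneg _
  have h1 : √((1 + ‖z‖ ^ 2) * (1 + ‖x‖ ^ 2)) ≤ (1 + (T + u)) * (1 + T) := by
    refine (planar_sqrt z x).trans ?_
    rw [← hu] at hz
    exact mul_le_mul (by linarith) (by linarith) (by positivity) (by positivity)
  have h2 : u ≤ sg z x * ((1 + (T + u)) * (1 + T)) := by
    calc u = ‖z - x‖ := hu
      _ = sg z x * √((1 + ‖z‖ ^ 2) * (1 + ‖x‖ ^ 2)) := h0
      _ ≤ sg z x * ((1 + (T + u)) * (1 + T)) := mul_le_mul_of_nonneg_left h1 hs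
  have h3 : sg z x * (1 + T) * u ≤ 1 / 2 * u := mul_le_mul_of_nonneg_right h hu0
  rw [← hu]
  nlinarith

theorem sg_le_dist (z x : ℂ) : sg z x ≤ ‖z - x‖ := by
  unfold sg
  apply div_le_self (norm_nonneg _)
  rw [Real.one_le_sqrt]
  nlinarith [sq_nonneg ‖z‖, sq_nonneg ‖x‖, mul_nonneg (sq_nonneg ‖z‖) (sq_nonneg ‖x‖)]

end Pool.Agent.H91.LD
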