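import Pool.Agent.H91.LD.Sn
import Pool.Agent.H91.LD.EZero
import Pool.Agent.H91.LD.Planar

/-!
# [H91 LD NEAR] zeros of the denominator near points where it is small; a base point where it is large

`Cov d s`: the centres `b ∈ s` cover the plane. `N2 r d s w B`: nondegeneracy (n2) of `B` in the charts.

* `near_zero`: `ξ0 = (ξ0 of loc_zero (10^6) r)/2`, `CT = 16 (1+T)^2/r^4`. Let `b ∈ s`, `u` as in `chart_pt`. `‖sn B u‖ = wm B z √((1+‖u‖^2/d)^d)/w b ≤ ξ w z exp(1/8)/w b ≤ 2 ξ`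
  (`w z ≤ w b exp(1/4)`, `Wgt.lip`; `exp(3/8) ≤ 2`), `EB (sn B) (4*10^5)` by `sn_EB`. `loc_zero` gives `v`, `‖v‖ ≤ 1`, `sn B v = 0`,
  `‖v-u‖ ≤ 4 ξ/r^4`. If `1 - conj b (v/√d) = 0` then `‖b‖ ≥ √d`, but `sg z b < 1/(4√d)`, `‖z‖ ≤ T` give
  `‖z-b‖ ≤ 2(1+T)^2/(4√d) ≤ 1` (`dist_le_sg`, `d` large), impossible for `√d > T + 1`. So `ζ = ph b (v/√d)` is a zero of `B`
  (`sn_eq_zero`), `sg z ζ = sg (u/√d) (v/√d) ≤ ‖u-v‖/√d` (`sg_ph`, `sg_le_dist`), and `dist_le_sg`.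
* `base_pt`: chart of `a` (`‖a‖ ≤ 1`), `loc_base` gives `u'`, `‖u'‖ ≤ 3/4`; `a' = ph b (u'/√d)` (the denominator does not vanish, as above, since
  `‖b‖ ≤ 2 < √d`); `sg a' a ≤ ‖u-u'‖/√d ≤ 1/(4√d)`, `‖a'-a‖ ≤ 2*4/(4√d) = 2/√d`. Take `c6 = c5/8` (`≤ 1/32`). If `‖z-a'‖ ≤ c6/√d` then
  `sg z a' ≤ c6/√d`; `z = ph b (v/√d)` with `v = √d ph (-b) z` (`ph_ph`; `1 + conj b z ≠ 0` because `sg b z < 1`), `sg (v/√d) (u'/√d) ≤ c6/√d`,
  so `‖v - u'‖ ≤ 8 c6 = c5` (`dist_le_sg` with `T = 1`) and `‖v‖ ≤ 1`. `κ4' ≤ ‖sn B v‖ = wm B z √(..)/w b ≤ wm B z exp(1/2)/w b`,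
  `w z ≤ w b exp(√d sg b z) ≤ w b exp 1`: `wm B z ≥ κ4' w z/exp(3/2) ≥ κ4' w z/6`.
-/

set_option autoImplicit false

open Polynomial MeasureTheory ComplexConjugate Filter

namespace Pool.Agent.H91.LD

open Pool.Agent.H85.LD

/-- the charts at the points of `s` cover the plane -/
def Cov (d : ℕ) (s : Finset ℂ) : Prop := ∀ z : ℂ, ∃ b ∈ s, sg z b < 1 / (4 * √d)

/-- nondegeneracy of the zeros of `B` in the charts at the points of `s` -/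
def N2 (r : ℝ) (d : ℕ) (s : Finset ℂ) (w : ℂ → ℝ) (B : ℂ[X]) : Prop :=
  ∀ b ∈ s, ∀ u : ℂ, ‖u‖ ≤ 1 → ‖sn d b (w b) B u‖ < r ^ 8 → r ^ 4 ≤ ‖deriv (sn d b (w b) B) u‖

private theorem nr_exp : Real.exp (1 / 4) * Real.exp (1 / 8) ≤ 2 := by
  rw [← Real.exp_add]
  have h1 : Real.exp (1 / 4 + 1 / 8) ^ 2 ≤ 2 ^ 2 := by
    rw [← Real.exp_nat_mul]
    have h2 : Real.exp (((2 : ℕ) : ℝ) * (1 / 4 + 1 / 8)) ≤ Real.exp 1 :=
      Real.exp_le_exp.2 (by norm_num)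
    have h3 := Real.exp_one_lt_d9
    linarith
  exact le_of_sq_le_sq h1 (by norm_num)

private theorem nr_pow (d : ℕ) (hd : 1 ≤ d) (t : ℝ) (ht0 : 0 ≤ t) (ht : t ≤ 1 / 2) :
    √((1 + t ^ 2 / d) ^ d) ≤ Real.exp (1 / 8) := by
  have hd0 : (0 : ℝ) < d := by exact_mod_cast hd
  apply Real.sqrt_le_iff.2 ⟨(Real.exp_pos _).le, ?_⟩
  have h1 : 1 + t ^ 2 / d ≤ Real.exp (t ^ 2 / d) := by
    have := Real.add_one_le_exp (t ^ 2 / d)
    linarith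
  have h2 : (1 + t ^ 2 / d) ^ d ≤ Real.exp (t ^ 2 / d) ^ d :=
    pow_le_pow_left₀ (by positivity) h1 d
  rw [← Real.exp_nat_mul] at h2 ⊢
  refine h2.trans (Real.exp_le_exp.2 ?_)
  rw [mul_div_cancel₀ _ hd0.ne']
  push_cast
  nlinarith

theorem near_zero (r T : ℝ) (hr : 0 < r) (hr1 : r ≤ 1) (hT : 1 ≤ T) : ∃ ξ0 CT : ℝ, 0 < ξ0 ∧ 0 < CT ∧
    ∀ᶠ d : ℕ in atTop, ∀ (s : Finset ℂ) (w : ℂ → ℝ) (B : ℂ[X]), Cov d s → Wgt d w →
      B.natDegree ≤ d → (∀ z, wm d B z ≤ 2 * w z) → N2 r d s w B →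
      ∀ ξ : ℝ, ξ ≤ ξ0 → ∀ z : ℂ, ‖z‖ ≤ T → wm d B z ≤ ξ * w z →
        ∃ ζ : ℂ, B.eval ζ = 0 ∧ ‖z - ζ‖ ≤ CT * ξ / √d := by
  obtain ⟨ξ1, hξ1, hloc⟩ := loc_zero (2 * 10 ^ 5 * 2) r (by norm_num) hr hr1
  refine ⟨ξ1 / 2, 8 * (1 + T) ^ 2 / r ^ 4, by positivity, by positivity, ?_⟩
  have hev : ∀ᶠ d : ℕ in atTop, 8 * (1 + T) ^ 2 ≤ √(d : ℝ) :=
    (Real.tendsto_sqrt_atTop.comp tendsto_natCast_atTop_atTop).eventually_ge_atTop _
  filter_upwards [hev, eventually_ge_atTop 1] with d hK hd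
  intro s w B hcov hw hB hwm hN ξ hξ z hz hsm
  have hsd : 0 < √(d : ℝ) := lt_of_lt_of_le (by positivity) hK
  obtain ⟨b, hb, hbz⟩ := hcov z
  obtain ⟨u, hu, hmu, hphu⟩ := chart_pt d hd b z hbz
  have hwb := hw.pos b
  have hwz := hw.pos z
  have hwm0 : 0 ≤ wm d B z := by unfold wm; positivity
  have hξ0 : 0 ≤ ξ := by
    by_contra hcon
    push Not at hcon
    have : ξ * w z < 0 := mul_neg_of_neg_of_pos hcon hwz
    linarith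
  have hsgb : √(d : ℝ) * sg b z ≤ 1 / 4 := by
    rw [sg_comm]
    have h1 : √(d : ℝ) * sg z b ≤ √(d : ℝ) * (1 / (4 * √(d : ℝ))) :=
      mul_le_mul_of_nonneg_left hbz.le hsd.le
    have h2 : √(d : ℝ) * (1 / (4 * √(d : ℝ))) = 1 / 4 := by field_simp
    linarith
  have hEB := sn_EB d hd w hw b B hB 2 (by norm_num) (fun x _ => hwm x)
  have hgu : ‖sn d b (w b) B u‖ ≤ 2 * ξ := by
    rw [sn_norm d b (w b) hwb B hB u hmu, hphu, div_le_iff₀ hwb]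
    have h1 := nr_pow d hd ‖u‖ (norm_nonneg u) hu
    have h2 : w z ≤ w b * Real.exp (1 / 4) :=
      (hw.lip b z).trans (mul_le_mul_of_nonneg_left (Real.exp_le_exp.2 hsgb) hwb.le)
    have h3 : wm d B z * √((1 + ‖u‖ ^ 2 / d) ^ d) ≤ (ξ * w z) * Real.exp (1 / 8) :=
      mul_le_mul hsm h1 (Real.sqrt_nonneg _) (by positivity)
    calc _ ≤ (ξ * w z) * Real.exp (1 / 8) := h3
      _ ≤ (ξ * (w b * Real.exp (1 / 4))) * Real.exp (1 / 8) := by gcongr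
      _ = ξ * w b * (Real.exp (1 / 4) * Real.exp (1 / 8)) := by ring
      _ ≤ ξ * w b * 2 := mul_le_mul_of_nonneg_left nr_exp (by positivity)
      _ = 2 * ξ * w b := by ring
  obtain ⟨v, hv, hgv, hvu⟩ := hloc _ hEB (hN b hb) (2 * ξ) (by linarith) u hu hgu
  have hbn : ‖b‖ < √(d : ℝ) := by
    have h1 : sg b z * (1 + T) ≤ 1 / 2 := by
      have h2 : sg b z ≤ 1 / (4 * √(d : ℝ)) := by
        rw [sg_comm]; exact hbz.le
      have h3 : sg b z * (1 + T) ≤ 1 / (4 * √(d : ℝ)) * (1 + T) :=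
        mul_le_mul_of_nonneg_right h2 (by linarith)
      refine h3.trans ?_
      rw [div_mul_eq_mul_div, one_mul, div_le_iff₀ (by positivity)]
      nlinarith
    have h4 := dist_le_sg hz h1
    have h5 : 2 * (1 + T) ^ 2 * sg b z ≤ 1 := by
      have h2 : sg b z ≤ 1 / (4 * √(d : ℝ)) := by
        rw [sg_comm]; exact hbz.le
      have h3 : 2 * (1 + T) ^ 2 * sg b z ≤ 2 * (1 + T) ^ 2 * (1 / (4 * √(d : ℝ))) :=
        mul_le_mul_of_nonneg_left h2 (by positivity)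
      refine h3.trans ?_
      rw [mul_one_div, div_le_iff₀ (by positivity)]
      nlinarith
    have h6 : ‖b‖ ≤ ‖b - z‖ + ‖z‖ := by
      have := norm_add_le (b - z) z
      rwa [sub_add_cancel] at this
    have h7 : T + 1 < 8 * (1 + T) ^ 2 := by nlinarith
    linarith
  have hmv : 1 - conj b * (v / ((√(d : ℝ) : ℝ) : ℂ)) ≠ 0 := by
    intro h
    have h1 : conj b * (v / ((√(d : ℝ) : ℝ) : ℂ)) = 1 := (sub_eq_zero.1 h).symm
    have h2 : ‖conj b * (v / ((√(d : ℝ) : ℝ) : ℂ))‖ = 1 := by rw [h1, norm_one]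
    rw [norm_mul, RCLike.norm_conj, norm_div, Complex.norm_real,
      Real.norm_of_nonneg hsd.le] at h2
    have h3 : ‖b‖ * (‖v‖ / √(d : ℝ)) ≤ ‖b‖ * (1 / √(d : ℝ)) := by gcongr
    have h4 : ‖b‖ * (1 / √(d : ℝ)) < 1 := by
      rw [mul_one_div, div_lt_one hsd]
      exact hbn
    linarith
  have hζ := (sn_eq_zero d b (w b) hwb B hB v hmv).1 hgv
  refine ⟨_, hζ, ?_⟩
  have hsg : sg (ph b (v / ((√(d : ℝ) : ℝ) : ℂ))) z ≤ ‖v - u‖ / √(d : ℝ) := by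
    conv_lhs => rw [← hphu]
    rw [sg_ph b _ _ hmv hmu]
    refine (sg_le_dist _ _).trans (le_of_eq ?_)
    rw [← sub_div, norm_div, Complex.norm_real, Real.norm_of_nonneg hsd.le]
  have hvu2 : ‖v - u‖ ≤ 3 / 2 := by
    have := norm_sub_le v u
    linarith
  have hd1 : sg (ph b (v / ((√(d : ℝ) : ℝ) : ℂ))) z * (1 + T) ≤ 1 / 2 := by
    have h1 : sg (ph b (v / ((√(d : ℝ) : ℝ) : ℂ))) z * (1 + T) ≤
        (3 / 2) / √(d : ℝ) * (1 + T) := by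
      apply mul_le_mul_of_nonneg_right _ (by linarith)
      exact hsg.trans (by gcongr)
    refine h1.trans ?_
    rw [div_mul_eq_mul_div, div_le_iff₀ hsd]
    nlinarith
  have hd2 := dist_le_sg hz hd1
  rw [norm_sub_rev]
  refine hd2.trans ?_
  have h1 : 2 * (1 + T) ^ 2 * sg (ph b (v / ((√(d : ℝ) : ℝ) : ℂ))) z ≤
      2 * (1 + T) ^ 2 * ((2 / r ^ 4 * (2 * ξ)) / √(d : ℝ)) := by
    apply mul_le_mul_of_nonneg_left _ (by positivity)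
    exact hsg.trans (by gcongr)
  refine h1.trans (le_of_eq ?_)
  ring

end Pool.Agent.H91.LD
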