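import Pool.Agent.H91.LD.SDefs

/-!
# [H91 LD CUT] cutoff functions

Proofs. Let `f x = if x ∈ E then 1 else min 1 (√d * sg z x / L)`; all values lie in `[0,1]` (`L > 0`, `sg_nonneg`), so
`cut = ⨅ x, f x` is in `[0,1]` (`ciInf_le`, `le_ciInf`, `BddBelow` by `0`).
* `cut_le`: `ciInf_le` at `x`. `cut_zero`: `x = z`, `sg_self`. `cut_one`: `le_ciInf`: if `x ∉ E` then `L ≤ √d sg z x`.
* `cut_lip`: for every `x`: `f_z x ≤ f_{z'} x + √d/L * sg z z'` (`sg_tri`), so `cut z ≤ cut z' + √d/L sg z z'`, and symmetric.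
* `chi_ne`: contrapositive of `cut_zero`. So for given `z` at most the term `j = c z` of `∑ j, chi j z` is not zero.
* `chiT_lip`: if `c z = c x` this is `cut_lip`. Otherwise `x ∉ {c = c z, ∉ Z}`, so `0 ≤ chiT z ≤ √d sg z x/L` by `cut_le`, the
  same for `chiT x`, and the difference of two numbers of `[0, δ]` is at most `δ`.
* `cut_continuous`: from `cut_lip` and the continuity of `x ↦ sg z x` (`sg_continuous`).
-/

set_option autoImplicit false

open Polynomial MeasureTheory ComplexConjugate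

namespace Pool.Agent.H91.LD

open Pool.Agent.H85.LD

open Classical in
private noncomputable def cf (d : ℕ) (L : ℝ) (E : Set ℂ) (z x : ℂ) : ℝ :=
  if x ∈ E then 1 else min 1 (√d * sg z x / L)

private theorem cut_eq (d : ℕ) (L : ℝ) (E : Set ℂ) (z : ℂ) : cut d L E z = ⨅ x, cf d L E z x := rfl

private theorem cf_nonneg (d : ℕ) {L : ℝ} (hL : 0 < L) (E : Set ℂ) (z x : ℂ) :
    0 ≤ cf d L E z x := by
  unfold cf
  split_ifs
  · exact zero_le_one
  · exact le_min zero_le_one (div_nonneg (mul_nonneg (Real.sqrt_nonneg _) (sg_nonneg _ _)) hL.le)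

private theorem cf_le_one (d : ℕ) (L : ℝ) (E : Set ℂ) (z x : ℂ) : cf d L E z x ≤ 1 := by
  unfold cf
  split_ifs
  · exact le_rfl
  · exact min_le_left _ _

private theorem cf_bdd (d : ℕ) {L : ℝ} (hL : 0 < L) (E : Set ℂ) (z : ℂ) :
    BddBelow (Set.range (cf d L E z)) := by
  refine ⟨0, ?_⟩
  rintro _ ⟨x, rfl⟩
  exact cf_nonneg d hL E z x

private theorem cf_lip (d : ℕ) {L : ℝ} (hL : 0 < L) (E : Set ℂ) (z z' x : ℂ) :
    cf d L E z x ≤ cf d L E z' x + √d / L * sg z z' := by
  have hc : 0 ≤ √d / L * sg z z' := mul_nonneg (div_nonneg (Real.sqrt_nonneg _) hL.le)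
    (sg_nonneg _ _)
  unfold cf
  split_ifs
  · linarith
  · have h1 : √d * sg z x / L ≤ √d * sg z' x / L + √d / L * sg z z' := by
      have h2 := sg_tri z z' x
      have h3 : √d / L * sg z x ≤ √d / L * (sg z z' + sg z' x) :=
        mul_le_mul_of_nonneg_left h2 (div_nonneg (Real.sqrt_nonneg _) hL.le)
      calc √d * sg z x / L = √d / L * sg z x := by ring
        _ ≤ √d / L * (sg z z' + sg z' x) := h3
        _ = √d * sg z' x / L + √d / L * sg z z' := by ring
    rcases min_choice (1 : ℝ) (√d * sg z' x / L) with h | h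
    · rw [h]
      have := min_le_left (1 : ℝ) (√d * sg z x / L)
      linarith
    · rw [h]
      exact (min_le_right _ _).trans h1

theorem cut_nonneg (d : ℕ) (L : ℝ) (hL : 0 < L) (E : Set ℂ) (z : ℂ) : 0 ≤ cut d L E z := by
  rw [cut_eq]
  exact Real.iInf_nonneg fun x => cf_nonneg d hL E z x

theorem cut_le_one (d : ℕ) (L : ℝ) (hL : 0 < L) (E : Set ℂ) (z : ℂ) : cut d L E z ≤ 1 := by
  rw [cut_eq]
  exact (ciInf_le (cf_bdd d hL E z) z).trans (cf_le_one d L E z z)

theorem cut_le (d : ℕ) (L : ℝ) (hL : 0 < L) (E : Set ℂ) (z x : ℂ) (hx : x ∉ E) :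
    cut d L E z ≤ √d * sg z x / L := by
  rw [cut_eq]
  refine (ciInf_le (cf_bdd d hL E z) x).trans ?_
  unfold cf
  rw [if_neg hx]
  exact min_le_right _ _

theorem cut_zero (d : ℕ) (L : ℝ) (hL : 0 < L) (E : Set ℂ) (z : ℂ) (hz : z ∉ E) :
    cut d L E z = 0 := by
  refine le_antisymm ?_ (cut_nonneg d L hL E z)
  refine (cut_le d L hL E z z hz).trans ?_
  rw [sg_self]
  simp

theorem cut_one (d : ℕ) (L : ℝ) (hL : 0 < L) (E : Set ℂ) (z : ℂ)
    (h : ∀ x, √d * sg z x < L → x ∈ E) : cut d L E z = 1 := by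
  refine le_antisymm (cut_le_one d L hL E z) ?_
  rw [cut_eq]
  refine le_ciInf fun x => ?_
  unfold cf
  split_ifs with hx
  · exact le_rfl
  · refine le_min le_rfl ?_
    rw [le_div_iff₀ hL, one_mul]
    by_contra hlt
    push Not at hlt
    exact hx (h x hlt)

theorem cut_lip (d : ℕ) (L : ℝ) (hL : 0 < L) (E : Set ℂ) (z x : ℂ) :
    |cut d L E x - cut d L E z| ≤ √d / L * sg z x := by
  have key : ∀ u v : ℂ, cut d L E u ≤ cut d L E v + √d / L * sg u v := by
    intro u v
    rw [← sub_le_iff_le_add, cut_eq d L E v]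
    refine le_ciInf fun y => ?_
    rw [sub_le_iff_le_add, cut_eq]
    exact (ciInf_le (cf_bdd d hL E u) y).trans (cf_lip d hL E u v y)
  have h1 := key x z
  have h2 := key z x
  rw [sg_comm x z] at h1
  rw [abs_sub_le_iff]
  constructor <;> linarith

theorem cut_continuous (d : ℕ) (L : ℝ) (hL : 0 < L) (E : Set ℂ) : Continuous (cut d L E) := by
  rw [continuous_iff_continuousAt]
  intro z
  rw [ContinuousAt, tendsto_iff_norm_sub_tendsto_zero]
  refine squeeze_zero (fun x => norm_nonneg _) (fun x => ?_)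
    (g := fun x => √d / L * sg z x) ?_
  · rw [Real.norm_eq_abs]
    exact cut_lip d L hL E z x
  · have h1 : Continuous fun x : ℂ => √d / L * sg z x :=
      continuous_const.mul (sg_continuous.comp (continuous_const.prodMk continuous_id))
    have h2 := h1.tendsto z
    rw [sg_self, mul_zero] at h2
    exact h2

variable {N : ℕ}

theorem chi_ne (d : ℕ) (L : ℝ) (hL : 0 < L) (c : ℂ → Fin N) (Z : Set ℂ) (j : Fin N) (z : ℂ)
    (h : chi d L c Z j z ≠ 0) : c z = j ∧ z ∉ Z := by
  by_contra hcon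
  apply h
  exact cut_zero d L hL _ z hcon

theorem chiT_nonneg (d : ℕ) (L : ℝ) (hL : 0 < L) (c : ℂ → Fin N) (Z : Set ℂ) (z : ℂ) :
    0 ≤ chiT d L c Z z := by
  exact cut_nonneg d L hL _ z

theorem chiT_le_one (d : ℕ) (L : ℝ) (hL : 0 < L) (c : ℂ → Fin N) (Z : Set ℂ) (z : ℂ) :
    chiT d L c Z z ≤ 1 := by
  exact cut_le_one d L hL _ z

theorem chiT_lip (d : ℕ) (L : ℝ) (hL : 0 < L) (c : ℂ → Fin N) (Z : Set ℂ) (z x : ℂ) :
    |chiT d L c Z x - chiT d L c Z z| ≤ √d / L * sg z x := by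
  by_cases hc : c z = c x
  · unfold chiT chi
    rw [hc]
    exact cut_lip d L hL _ z x
  · have h1 : chiT d L c Z z ≤ √d / L * sg z x := by
      refine (cut_le d L hL {y | c y = c z ∧ y ∉ Z} z x (fun h => hc h.1.symm)).trans
        (le_of_eq ?_)
      ring
    have h2 : chiT d L c Z x ≤ √d / L * sg z x := by
      refine (cut_le d L hL {y | c y = c x ∧ y ∉ Z} x z (fun h => hc h.1)).trans
        (le_of_eq ?_)
      rw [sg_comm x z]
      ring
    have h3 := chiT_nonneg d L hL c Z z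
    have h4 := chiT_nonneg d L hL c Z x
    rw [abs_sub_le_iff]
    constructor <;> linarith

theorem chiT_continuous (d : ℕ) (L : ℝ) (hL : 0 < L) (c : ℂ → Fin N) (Z : Set ℂ) :
    Continuous (chiT d L c Z) := by
  rw [continuous_iff_continuousAt]
  intro z
  rw [ContinuousAt, tendsto_iff_norm_sub_tendsto_zero]
  refine squeeze_zero (fun x => norm_nonneg _) (fun x => ?_)
    (g := fun x => √d / L * sg z x) ?_
  · rw [Real.norm_eq_abs]
    exact chiT_lip d L hL c Z z x
  · have h1 : Continuous fun x : ℂ => √d / L * sg z x :=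
      continuous_const.mul (sg_continuous.comp (continuous_const.prodMk continuous_id))
    have h2 := h1.tendsto z
    rw [sg_self, mul_zero] at h2
    exact h2

theorem sum_chi (d : ℕ) (L : ℝ) (hL : 0 < L) (c : ℂ → Fin N) (Z : Set ℂ) (z : ℂ) :
    ∑ j, chi d L c Z j z = chiT d L c Z z := by
  rw [Finset.sum_eq_single (c z)]
  · rfl
  · intro j _ hj
    by_contra h
    exact hj (chi_ne d L hL c Z j z h).1.symm
  · intro h
    exact absurd (Finset.mem_univ _) h

theorem chiT_one (d : ℕ) (L : ℝ) (hL : 0 < L) (c : ℂ → Fin N) (Z : Set ℂ) (z : ℂ)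
    (h : ∀ x, √d * sg z x < L → c x = c z ∧ x ∉ Z) : chiT d L c Z z = 1 := by
  exact cut_one d L hL _ z h

theorem chiT_zero (d : ℕ) (L : ℝ) (hL : 0 < L) (c : ℂ → Fin N) (Z : Set ℂ) (z : ℂ) (hz : z ∈ Z) :
    chiT d L c Z z = 0 := by
  exact cut_zero d L hL _ z (fun h => h.2 hz)

end Pool.Agent.H91.LD
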