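import Pool.Agent.H91.LD.Sn
import Pool.Agent.H91.LD.Cut
import Pool.Agent.H85.LD.Schur

/-!
# [H91 LD LOCALIZE] the cut off projections in one chart

Weight `2 w` (again a `Wgt`) in the theorems of `H85/LD/Schur`, since `wm d A ≤ 2 w`. `ω = w b`.

(`chi`, `chiT` are continuous for arbitrary `c`, `Z`: `cut_continuous`, `chiT_continuous`.)
* `lc_zero`: for `√d sg b z ≤ 4`: `wm (Pj chiT A - C (chiT b) A) z ≤ wm (Pj chiT A - C (chiT z) A) z + |chiT z - chiT b| wm A z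
  ≤ (100/L) 2 w z + (4/L) 2 w z` (`schur`, `chiT_lip`), then `sn_EB`: `2 * 10^5 * 208/L ≤ 5 * 10^7/L`.
* `lc_own`: the same with `chi (c b)` and `B` (`chi d L c Z j = cut ..`, `cut_lip`; `chiT b = chi (c b) b` by definition).
* `lc_S`: `wm (pS τ) z ≤ ∑ |τ j| wm (Pj (chi j) B) z ≤ S ∑ j, wm (Pj (chi j) B) z ≤ S * 50 * 2 w z` (`schur_tail_sum` with `δ = 0`,
  `∑ chi j ≤ 1`); `sn_EB`.
* `lc_far`: let `χ0 ≤ chiT b`, `4 ≤ χ0 L`. If `j ≠ c b` and `chi j x ≠ 0` then `c x = j ≠ c b` (`chi_ne`), so by `cut_le`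
  `χ0 ≤ chi (c b) b ≤ √d sg b x/L`, and for `√d sg b z ≤ 4`: `√d sg z x ≥ χ0 L - 4` (`sg_tri`). `schur_tail_sum` for the family
  `univ.erase (c b)` with `δ = (χ0 L - 4)/√d`, weight `2 w`; then `sn_sum_le`: `2 * 10^5 * 100 = 2 * 10^7`.
* `van`: if `δ ≤ sg v x` for every `x ∉ Z`: `schur_tail` for `chiT` and `A`, and `schur_tail_sum` for the `chi j` and `B`
  (all supported outside `Z`), `|τ j| ≤ 1`: total `≤ 100 e w + 100 e w`.
-/

set_option autoImplicit false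

open Polynomial MeasureTheory ComplexConjugate

namespace Pool.Agent.H91.LD

open Pool.Agent.H85.LD

variable {N : ℕ}

private theorem lcx_wm_sum (d : ℕ) {ι : Type} (s : Finset ι) (F : ι → ℂ[X]) (z : ℂ) :
    wm d (∑ i ∈ s, F i) z ≤ ∑ i ∈ s, wm d (F i) z := by
  classical
  induction s using Finset.induction_on with
  | empty => simp [wm]
  | insert a s ha ih =>
    rw [Finset.sum_insert ha, Finset.sum_insert ha]
    exact (wm_add_le d _ _ z).trans (by linarith)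

private theorem lcx_sum_deg (d : ℕ) {ι : Type} (s : Finset ι) (F : ι → ℂ[X])
    (h : ∀ i ∈ s, (F i).natDegree ≤ d) : (∑ i ∈ s, F i).natDegree ≤ d :=
  Polynomial.natDegree_sum_le_of_forall_le _ _ h

theorem natDegree_pS (d : ℕ) (L : ℝ) (c : ℂ → Fin N) (Z : Set ℂ) (B : ℂ[X]) (τ : Fin N → ℝ) :
    (pS d L c Z B τ).natDegree ≤ d := by
  unfold pS
  apply lcx_sum_deg
  intro j _
  exact (Polynomial.natDegree_C_mul_le _ _).trans (Pj_deg _ _ _)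

theorem natDegree_pT (d : ℕ) (L : ℝ) (c : ℂ → Fin N) (Z : Set ℂ) (A B : ℂ[X]) (τ : Fin N → ℝ)
    (t : ℂ[X]) (ht : t.natDegree ≤ d) : (pT d L c Z A B τ t).natDegree ≤ d := by
  unfold pT
  exact Polynomial.natDegree_add_le_of_degree_le (Pj_deg _ _ _)
    (Polynomial.natDegree_add_le_of_degree_le (natDegree_pS _ _ _ _ _ _) ht)

private theorem lcx_w (d : ℕ) (w : ℂ → ℝ) (hw : Wgt d w) :
    (∀ z, 0 < 2 * w z) ∧ ∀ z x, 2 * w x ≤ 2 * w z * Real.exp (√d * sg z x) := by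
  refine ⟨fun z => by have := hw.pos z; linarith, fun z x => ?_⟩
  have := hw.lip z x
  linarith

private theorem lcx_gen (d : ℕ) (hd : 1 ≤ d) (L : ℝ) (hL : 1 ≤ L) (χ : ℂ → ℝ) (hm : Measurable χ)
    (h0 : ∀ x, 0 ≤ χ x) (h1 : ∀ x, χ x ≤ 1) (hl : ∀ z x, |χ x - χ z| ≤ √d / L * sg z x)
    (w : ℂ → ℝ) (hw : Wgt d w) (A : ℂ[X])
    (hA : A.natDegree ≤ d) (hA2 : ∀ z, wm d A z ≤ 2 * w z) (b : ℂ) :
    EB (fun u => sn d b (w b) (Pj d χ A) u - ((χ b : ℝ) : ℂ) * sn d b (w b) A u)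
      (5 * 10 ^ 7 / L) := by
  have hL0 : 0 < L := by linarith
  obtain ⟨hw1, hw2⟩ := lcx_w d w hw
  have hfun : (fun u => sn d b (w b) (Pj d χ A) u - ((χ b : ℝ) : ℂ) * sn d b (w b) A u) =
      sn d b (w b) (Pj d χ A - C ((χ b : ℝ) : ℂ) * A) := by
    funext u
    rw [sn_sub, sn_C_mul]
  rw [hfun]
  have hdeg : (Pj d χ A - C ((χ b : ℝ) : ℂ) * A).natDegree ≤ d :=
    (Polynomial.natDegree_sub_le_of_le (Pj_deg d χ A)
      ((Polynomial.natDegree_C_mul_le _ _).trans hA)).trans (le_of_eq (max_self d))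
  have hEB := sn_EB d hd w hw b (Pj d χ A - C ((χ b : ℝ) : ℂ) * A) hdeg (208 / L) (by positivity) ?_
  · refine hEB.mono ?_
    rw [mul_div_assoc', div_le_div_iff_of_pos_right hL0]
    norm_num
  · intro z hz
    have e : Pj d χ A - C ((χ b : ℝ) : ℂ) * A =
        (Pj d χ A - C ((χ z : ℝ) : ℂ) * A) + C (((χ z - χ b : ℝ)) : ℂ) * A := by
      push_cast
      rw [map_sub]
      ring
    rw [e]
    refine (wm_add_le d _ _ z).trans ?_
    rw [wm_C_mul, Complex.norm_real, Real.norm_eq_abs]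
    have h2 := schur d hd L hL0 χ hm h0 h1 hl (fun z => 2 * w z) hw1 hw2 A hA hA2 z
    have h3 := hl b z
    have h4 : √d / L * sg b z ≤ 4 / L := by
      rw [div_mul_eq_mul_div, div_le_div_iff_of_pos_right hL0]
      exact hz
    have h5 : |χ z - χ b| * wm d A z ≤ 4 / L * (2 * w z) :=
      mul_le_mul (h3.trans h4) (hA2 z) (wm_nonneg _ _ _) (by positivity)
    calc wm d (Pj d χ A - C ((χ z : ℝ) : ℂ) * A) z + |χ z - χ b| * wm d A z
        ≤ 100 / L * (2 * w z) + 4 / L * (2 * w z) := add_le_add h2 h5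
      _ = 208 / L * w z := by ring

theorem lc_zero (d : ℕ) (hd : 1 ≤ d) (L : ℝ) (hL : 1 ≤ L) (c : ℂ → Fin N)
    (Z : Set ℂ) (w : ℂ → ℝ) (hw : Wgt d w) (A : ℂ[X])
    (hA : A.natDegree ≤ d) (hA2 : ∀ z, wm d A z ≤ 2 * w z) (b : ℂ) :
    EB (fun u => sn d b (w b) (Pj d (chiT d L c Z) A) u -
      ((chiT d L c Z b : ℝ) : ℂ) * sn d b (w b) A u) (5 * 10 ^ 7 / L) := by
  have hL0 : 0 < L := by linarith
  exact lcx_gen d hd L hL (chiT d L c Z) (chiT_continuous d L hL0 c Z).measurable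
    (chiT_nonneg d L hL0 c Z) (chiT_le_one d L hL0 c Z) (chiT_lip d L hL0 c Z) w hw A hA hA2 b

theorem lc_own (d : ℕ) (hd : 1 ≤ d) (L : ℝ) (hL : 1 ≤ L) (c : ℂ → Fin N)
    (Z : Set ℂ) (w : ℂ → ℝ) (hw : Wgt d w) (B : ℂ[X])
    (hB : B.natDegree ≤ d) (hB2 : ∀ z, wm d B z ≤ 2 * w z) (b : ℂ) :
    EB (fun u => sn d b (w b) (Pj d (chi d L c Z (c b)) B) u -
      ((chiT d L c Z b : ℝ) : ℂ) * sn d b (w b) B u) (5 * 10 ^ 7 / L) := by
  have hL0 : 0 < L := by linarith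
  exact lcx_gen d hd L hL (chi d L c Z (c b)) (cut_continuous d L hL0 _).measurable
    (cut_nonneg d L hL0 _) (cut_le_one d L hL0 _) (cut_lip d L hL0 _) w hw B hB hB2 b

private theorem lcx_tail (d : ℕ) (hd : 1 ≤ d) (L : ℝ) (hL : 1 ≤ L) (c : ℂ → Fin N)
    (Z : Set ℂ) (w : ℂ → ℝ) (hw : Wgt d w) (B : ℂ[X])
    (hB : B.natDegree ≤ d) (hB2 : ∀ z, wm d B z ≤ 2 * w z) (s : Finset (Fin N)) (z : ℂ) (δ : ℝ)
    (hδ : 0 ≤ δ) (hs : ∀ j ∈ s, ∀ x, chi d L c Z j x ≠ 0 → δ ≤ sg z x) :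
    ∑ j ∈ s, wm d (Pj d (chi d L c Z j) B) z ≤ 100 * Real.exp (-(d * δ ^ 2 / 8)) * w z := by
  have hL0 : 0 < L := by linarith
  obtain ⟨hw1, hw2⟩ := lcx_w d w hw
  have h := schur_tail_sum d hd s (fun j => chi d L c Z j)
    (fun j _ => (cut_continuous d L hL0 _).measurable) (fun j _ => cut_nonneg d L hL0 _) ?_ z δ hδ
    hs (fun z => 2 * w z) hw1 hw2 B hB hB2
  · refine h.trans (le_of_eq ?_)
    ring
  · intro x
    calc ∑ j ∈ s, chi d L c Z j x ≤ ∑ j, chi d L c Z j x :=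
          Finset.sum_le_sum_of_subset_of_nonneg (Finset.subset_univ s)
            (fun j _ _ => cut_nonneg d L hL0 _ x)
      _ ≤ 1 := by
          rw [sum_chi d L hL0 c Z x]
          exact chiT_le_one d L hL0 c Z x

private theorem lcx_pS (d : ℕ) (L : ℝ) (c : ℂ → Fin N) (Z : Set ℂ) (B : ℂ[X]) (τ : Fin N → ℝ)
    (S : ℝ) (hτ : ∀ j, |τ j| ≤ S) (z : ℂ) :
    wm d (pS d L c Z B τ) z ≤ S * ∑ j, wm d (Pj d (chi d L c Z j) B) z := by
  unfold pS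
  refine (lcx_wm_sum d _ _ z).trans ?_
  rw [Finset.mul_sum]
  refine Finset.sum_le_sum fun j _ => ?_
  rw [wm_C_mul, Complex.norm_real, Real.norm_eq_abs]
  exact mul_le_mul_of_nonneg_right (hτ j) (wm_nonneg _ _ _)

theorem wm_pS (d : ℕ) (hd : 1 ≤ d) (L : ℝ) (hL : 1 ≤ L) (c : ℂ → Fin N)
    (Z : Set ℂ) (w : ℂ → ℝ) (hw : Wgt d w) (B : ℂ[X])
    (hB : B.natDegree ≤ d) (hB2 : ∀ z, wm d B z ≤ 2 * w z) (τ : Fin N → ℝ) (S : ℝ) (hS : 0 ≤ S)
    (hτ : ∀ j, |τ j| ≤ S) (z : ℂ) : wm d (pS d L c Z B τ) z ≤ 100 * S * w z := by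
  refine (lcx_pS d L c Z B τ S hτ z).trans ?_
  have h := lcx_tail d hd L hL c Z w hw B hB hB2 Finset.univ z 0 le_rfl
    (fun j _ x _ => sg_nonneg z x)
  have e : Real.exp (-(d * (0 : ℝ) ^ 2 / 8)) = 1 := by simp
  rw [e, mul_one] at h
  calc S * ∑ j, wm d (Pj d (chi d L c Z j) B) z ≤ S * (100 * w z) :=
        mul_le_mul_of_nonneg_left h hS
    _ = 100 * S * w z := by ring

theorem lc_S (d : ℕ) (hd : 1 ≤ d) (L : ℝ) (hL : 1 ≤ L) (c : ℂ → Fin N)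
    (Z : Set ℂ) (w : ℂ → ℝ) (hw : Wgt d w) (B : ℂ[X])
    (hB : B.natDegree ≤ d) (hB2 : ∀ z, wm d B z ≤ 2 * w z) (τ : Fin N → ℝ) (S : ℝ) (hS : 0 ≤ S)
    (hτ : ∀ j, |τ j| ≤ S) (b : ℂ) : EB (sn d b (w b) (pS d L c Z B τ)) (2 * 10 ^ 7 * S) := by
  have h := sn_EB d hd w hw b (pS d L c Z B τ) (natDegree_pS _ _ _ _ _ _) (100 * S)
    (by positivity) (fun z _ => wm_pS d hd L hL c Z w hw B hB hB2 τ S hS hτ z)
  refine h.mono (le_of_eq ?_)
  ring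

theorem lc_far (d : ℕ) (hd : 1 ≤ d) (L : ℝ) (hL : 1 ≤ L) (c : ℂ → Fin N)
    (Z : Set ℂ) (w : ℂ → ℝ) (hw : Wgt d w) (B : ℂ[X])
    (hB : B.natDegree ≤ d) (hB2 : ∀ z, wm d B z ≤ 2 * w z) (χ0 : ℝ) (hχ0 : 0 < χ0)
    (h4 : 4 ≤ χ0 * L) (b : ℂ) (hb : χ0 ≤ chiT d L c Z b) (u : ℂ) (hu : ‖u‖ ≤ 4) :
    ∑ j ∈ Finset.univ.erase (c b), ‖sn d b (w b) (Pj d (chi d L c Z j) B) u‖ ≤
      2 * 10 ^ 7 * Real.exp (-((χ0 * L - 4) ^ 2 / 8)) := by
  have hL0 : 0 < L := by linarith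
  have hd' : (1 : ℝ) ≤ d := by exact_mod_cast hd
  have hsd : 0 < √(d : ℝ) := Real.sqrt_pos.2 (by linarith)
  have h := sn_sum_le d hd w hw b (Finset.univ.erase (c b)) (fun j => Pj d (chi d L c Z j) B)
    (fun j _ => Pj_deg _ _ _) (100 * Real.exp (-((χ0 * L - 4) ^ 2 / 8))) (by positivity) ?_ u hu
  · refine h.trans (le_of_eq ?_)
    ring
  · intro z hz
    have h2 := lcx_tail d hd L hL c Z w hw B hB hB2 (Finset.univ.erase (c b)) z
      ((χ0 * L - 4) / √d) (div_nonneg (by linarith) hsd.le) ?_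
    · have e : (d : ℝ) * ((χ0 * L - 4) / √d) ^ 2 = (χ0 * L - 4) ^ 2 := by
        rw [div_pow, Real.sq_sqrt (by linarith)]
        field_simp
      rw [e] at h2
      exact h2
    · intro j hj x hx
      have hj' : j ≠ c b := (Finset.mem_erase.1 hj).1
      have h5 := (chi_ne d L hL0 c Z j x hx).1
      have h6 : x ∉ {x | c x = c b ∧ x ∉ Z} := by
        intro h7
        exact hj' (h5.symm.trans h7.1)
      have h7 : chi d L c Z (c b) b ≤ √d * sg b x / L := cut_le d L hL0 _ b x h6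
      have h8 : χ0 ≤ √d * sg b x / L := hb.trans h7
      rw [le_div_iff₀ hL0] at h8
      have h9 := sg_tri b z x
      have h10 : √d * sg b x ≤ √d * sg b z + √d * sg z x := by
        rw [← mul_add]
        exact mul_le_mul_of_nonneg_left h9 hsd.le
      rw [div_le_iff₀ hsd]
      linarith

theorem van (d : ℕ) (hd : 1 ≤ d) (L : ℝ) (hL : 1 ≤ L) (c : ℂ → Fin N)
    (Z : Set ℂ) (w : ℂ → ℝ) (hw : Wgt d w) (A B : ℂ[X])
    (hA : A.natDegree ≤ d) (hA2 : ∀ z, wm d A z ≤ 2 * w z)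
    (hB : B.natDegree ≤ d) (hB2 : ∀ z, wm d B z ≤ 2 * w z) (τ : Fin N → ℝ)
    (hτ : ∀ j, |τ j| ≤ 1) (v : ℂ) (δ : ℝ) (hδ : 0 ≤ δ) (hv : ∀ x, x ∉ Z → δ ≤ sg v x) :
    wm d (Pj d (chiT d L c Z) A + pS d L c Z B τ) v ≤
      200 * Real.exp (-(d * δ ^ 2 / 8)) * w v := by
  have hL0 : 0 < L := by linarith
  obtain ⟨hw1, hw2⟩ := lcx_w d w hw
  have h1 := schur_tail d hd (chiT d L c Z) (chiT_continuous d L hL0 c Z).measurable
    (chiT_nonneg d L hL0 c Z) (chiT_le_one d L hL0 c Z) v δ hδ (by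
      intro x hx
      apply hv
      intro hZ
      exact hx (chiT_zero d L hL0 c Z x hZ)) (fun z => 2 * w z) hw1 hw2 A hA hA2
  have h2 := lcx_pS d L c Z B τ 1 hτ v
  have h3 := lcx_tail d hd L hL c Z w hw B hB hB2 Finset.univ v δ hδ
    (fun j _ x hx => hv x (chi_ne d L hL0 c Z j x hx).2)
  have h4 := wm_add_le d (Pj d (chiT d L c Z) A) (pS d L c Z B τ) v
  linarith

end Pool.Agent.H91.LD
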