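import Pool.Agent.H91.LD.Cut
import Pool.Agent.H91.LD.Localize
import Pool.Agent.H91.LD.Planar

/-!
# [H91 LD MASS] distance between the original and the modified pair

* `near_disc`: if `x ∈ closedBall a ρ`, `‖a‖ ≤ 1`, `√d sg z x < L` and `d` is large then `‖z - x‖ ≤ 2*9*L/√d ≤ ρ` (`dist_le_sg` with `T = 2`), so
  `z ∈ closedBall a (2ρ)`.
* `mass`: `A - Pj chiT A = Pj (1 - chiT) A` (`Pj_one` and `Pj_sum`, or directly from the definition), `Nd_Pj`:
  `Nd (A - Pj chiT A) ≤ (d+1) ∫ (1 - chiT)^2 (wm A)^2 ≤ 4 (d+1) ∫_V w^2` (`0 ≤ 1 - chiT ≤ 1`, zero outside `V`, `wm A ≤ 2 w`).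
* `Nd_le`: `Nd_eq` and monotonicity of the integral.
* `Nd_add6`: `Nd` is a squared norm: `‖∑ of 6‖^2 ≤ 6 ∑ ‖·‖^2` (coefficientwise Cauchy-Schwarz: `inner_mul_le_norm_mul_norm` or
  `sq_sum_le_card_mul_sum_sq` for norms).
-/

set_option autoImplicit false

open Polynomial MeasureTheory ComplexConjugate Filter

namespace Pool.Agent.H91.LD

open Pool.Agent.H85.LD

variable {N : ℕ}

theorem near_disc (L ρ : ℝ) (hL : 0 < L) (hρ : 0 < ρ) (hρ1 : ρ ≤ 1 / 4) : ∀ᶠ d : ℕ in atTop,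
    ∀ a z x : ℂ, ‖a‖ ≤ 1 → x ∈ Metric.closedBall a ρ → √d * sg z x < L →
      z ∈ Metric.closedBall a (2 * ρ) := by
  have hlim : Tendsto (fun d : ℕ => √(d : ℝ)) atTop atTop :=
    Real.tendsto_sqrt_atTop.comp tendsto_natCast_atTop_atTop
  filter_upwards [hlim.eventually_ge_atTop (18 * L / ρ)] with d hd a z x ha hx hs
  have h1 : 18 * L ≤ ρ * √(d : ℝ) := by
    rw [div_le_iff₀ hρ] at hd
    linarith
  have hd0 : 0 < √(d : ℝ) := by
    by_contra h
    have h2 : √(d : ℝ) ≤ 0 := not_lt.1 h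
    nlinarith
  have h2 : 18 * sg z x < ρ := by
    have h3 : √(d : ℝ) * (18 * sg z x) < √(d : ℝ) * ρ := by nlinarith
    exact lt_of_mul_lt_mul_left h3 hd0.le
  rw [Metric.mem_closedBall, dist_eq_norm] at hx ⊢
  have hx2 : ‖x‖ ≤ 2 := by
    calc ‖x‖ = ‖(x - a) + a‖ := by rw [sub_add_cancel]
      _ ≤ ‖x - a‖ + ‖a‖ := norm_add_le _ _
      _ ≤ 2 := by linarith
  have h4 := dist_le_sg (T := 2) (z := z) hx2 (by linarith)
  calc ‖z - a‖ = ‖(z - x) + (x - a)‖ := by ring_nf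
    _ ≤ ‖z - x‖ + ‖x - a‖ := norm_add_le _ _
    _ ≤ 2 * ρ := by
      have : (2 : ℝ) * (1 + 2) ^ 2 * sg z x = 18 * sg z x := by ring
      linarith

theorem mass (d : ℕ) (L : ℝ) (hL : 0 < L) (c : ℂ → Fin N) (Z V : Set ℂ) (hV : MeasurableSet V)
    (w : ℂ → ℝ) (hw : Wgt d w) (hw2 : Integrable (fun z => w z ^ 2) mu) (A : ℂ[X])
    (hA : A.natDegree ≤ d) (hA2 : ∀ z, wm d A z ≤ 2 * w z)
    (h : ∀ z x, √d * sg z x < L → (c x ≠ c z ∨ x ∈ Z) → z ∈ V) :
    Nd d (A - Pj d (chiT d L c Z) A) ≤ 4 * ((d + 1) * ∫ z in V, w z ^ 2 ∂mu) := by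
  have hχm : Measurable (chiT d L c Z) := (chiT_continuous d L hL c Z).measurable
  have hb : ∀ x, |chiT d L c Z x| ≤ 1 := fun x => by
    rw [abs_of_nonneg (chiT_nonneg d L hL c Z x)]
    exact chiT_le_one d L hL c Z x
  have h1 : A - Pj d (chiT d L c Z) A = Pj d (fun x => 1 - chiT d L c Z x) A := by
    have h2 := Pj_sum d (Finset.univ : Finset (Fin 2)) ![1, -1] ![fun _ => 1, chiT d L c Z]
      (by
        intro j _
        fin_cases j
        · exact measurable_const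
        · exact hχm) 1 (by
        intro j _ x
        fin_cases j
        · show |(1 : ℝ)| ≤ 1
          simp
        · exact hb x) A hA
    simp only [Fin.sum_univ_two, Matrix.cons_val_zero, Matrix.cons_val_one] at h2
    rw [Pj_one d A hA] at h2
    have h3 : (fun x => 1 * (1 : ℝ) + -1 * chiT d L c Z x) = fun x => 1 - chiT d L c Z x := by
      funext x
      ring
    rw [h3] at h2
    rw [h2]
    simp only [Complex.ofReal_one, map_one, one_mul, Complex.ofReal_neg, map_neg, neg_mul]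
    ring
  rw [h1]
  have hm' : Measurable (fun x => 1 - chiT d L c Z x) := measurable_const.sub hχm
  refine (Nd_Pj d (fun x => 1 - chiT d L c Z x) hm' 1 (fun x => ?_) A hA).trans ?_
  · have h2 := chiT_nonneg d L hL c Z x
    have h3 := chiT_le_one d L hL c Z x
    rw [abs_of_nonneg (by linarith)]
    linarith
  · have h4 : ∫ x, (1 - chiT d L c Z x) ^ 2 * wm d A x ^ 2 ∂mu ≤
        ∫ x, V.indicator (fun z => 4 * w z ^ 2) x ∂mu := by
      refine integral_mono_of_nonneg ?_ ((hw2.const_mul 4).indicator hV) ?_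
      · exact Eventually.of_forall fun x => by positivity
      · refine Eventually.of_forall fun x => ?_
        show (1 - chiT d L c Z x) ^ 2 * wm d A x ^ 2 ≤ V.indicator (fun z => 4 * w z ^ 2) x
        by_cases hx : x ∈ V
        · rw [Set.indicator_of_mem hx]
          have h2 := chiT_nonneg d L hL c Z x
          have h3 := chiT_le_one d L hL c Z x
          have h5 := wm_nonneg d A x
          have h6 := hA2 x
          have h7 : (1 - chiT d L c Z x) ^ 2 ≤ 1 := by nlinarith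
          have h8 : wm d A x ^ 2 ≤ 4 * w x ^ 2 := by nlinarith
          calc (1 - chiT d L c Z x) ^ 2 * wm d A x ^ 2 ≤ 1 * (4 * w x ^ 2) :=
                mul_le_mul h7 h8 (by positivity) zero_le_one
            _ = 4 * w x ^ 2 := one_mul _
        · rw [Set.indicator_of_notMem hx]
          have h9 : chiT d L c Z x = 1 := by
            apply chiT_one d L hL c Z x
            intro y hy
            by_contra h10
            apply hx
            apply h x y hy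
            by_contra h11
            rw [not_or, not_not] at h11
            exact h10 h11
          rw [h9]
          simp
    rw [integral_indicator hV, integral_const_mul] at h4
    have h5 : (0 : ℝ) ≤ (d : ℝ) + 1 := by positivity
    calc ((d : ℝ) + 1) * ∫ x, (1 - chiT d L c Z x) ^ 2 * wm d A x ^ 2 ∂mu
        ≤ ((d : ℝ) + 1) * (4 * ∫ z in V, w z ^ 2 ∂mu) := mul_le_mul_of_nonneg_left h4 h5
      _ = 4 * (((d : ℝ) + 1) * ∫ z in V, w z ^ 2 ∂mu) := by ring

theorem Nd_le (d : ℕ) (w : ℂ → ℝ) (hw2 : Integrable (fun z => w z ^ 2) mu) (G : ℂ[X])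
    (hG : G.natDegree ≤ d) (K : ℝ) (hK : 0 ≤ K) (h : ∀ z, wm d G z ≤ K * w z) :
    Nd d G ≤ K ^ 2 * ((d + 1) * ∫ z, w z ^ 2 ∂mu) := by
  rw [Nd_eq d G hG]
  have h1 : ∫ x, wm d G x ^ 2 ∂mu ≤ ∫ x, K ^ 2 * w x ^ 2 ∂mu := by
    refine integral_mono_of_nonneg ?_ (hw2.const_mul _) ?_
    · exact Eventually.of_forall fun x => by positivity
    · refine Eventually.of_forall fun x => ?_
      show wm d G x ^ 2 ≤ K ^ 2 * w x ^ 2
      rw [← mul_pow]
      exact pow_le_pow_left₀ (wm_nonneg d G x) (h x) 2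
  rw [integral_const_mul] at h1
  have h5 : (0 : ℝ) ≤ (d : ℝ) + 1 := by positivity
  calc ((d : ℝ) + 1) * ∫ x, wm d G x ^ 2 ∂mu ≤ ((d : ℝ) + 1) * (K ^ 2 * ∫ x, w x ^ 2 ∂mu) :=
        mul_le_mul_of_nonneg_left h1 h5
    _ = K ^ 2 * (((d : ℝ) + 1) * ∫ x, w x ^ 2 ∂mu) := by ring

theorem Nd_add6 (d : ℕ) (F : Fin 6 → ℂ[X]) : Nd d (∑ i, F i) ≤ 6 * ∑ i, Nd d (F i) := by
  unfold Nd
  rw [Finset.sum_comm, Finset.mul_sum]
  refine Finset.sum_le_sum fun k hk => ?_
  rw [← Finset.sum_div, ← mul_div_assoc]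
  refine div_le_div_of_nonneg_right ?_ (Nat.cast_nonneg _)
  rw [finsetSum_coeff]
  have h1 : ‖∑ i, (F i).coeff k‖ ≤ ∑ i, ‖(F i).coeff k‖ := norm_sum_le _ _
  calc ‖∑ i, (F i).coeff k‖ ^ 2 ≤ (∑ i, ‖(F i).coeff k‖) ^ 2 :=
        pow_le_pow_left₀ (norm_nonneg _) h1 2
    _ ≤ (Finset.univ : Finset (Fin 6)).card * ∑ i, ‖(F i).coeff k‖ ^ 2 := sq_sum_le_card_mul_sum_sq
    _ = 6 * ∑ i, ‖(F i).coeff k‖ ^ 2 := by simp

theorem int_union (g : ℂ → ℝ) (hg : ∀ z, 0 ≤ g z) (hi : Integrable g mu) (V1 V2 V3 : Set ℂ)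
    (h1 : MeasurableSet V1) (h2 : MeasurableSet V2) (h3 : MeasurableSet V3) :
    ∫ z in V1 ∪ V2 ∪ V3, g z ∂mu ≤
      ∫ z in V1, g z ∂mu + ∫ z in V2, g z ∂mu + ∫ z in V3, g z ∂mu := by
  have key : ∀ S T : Set ℂ, MeasurableSet S → MeasurableSet T →
      ∫ z in S ∪ T, g z ∂mu ≤ ∫ z in S, g z ∂mu + ∫ z in T, g z ∂mu := by
    intro S T hS hT
    have e1 : S ∪ T = S ∪ (T \ S) := by rw [Set.union_sdiff_self]
    rw [e1, setIntegral_union Set.disjoint_sdiff_right (hT.diff hS) hi.integrableOn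
      hi.integrableOn]
    have e2 : ∫ z in T \ S, g z ∂mu ≤ ∫ z in T, g z ∂mu := by
      refine setIntegral_mono_set hi.integrableOn (Eventually.of_forall hg) ?_
      exact LE.le.eventuallyLE Set.sdiff_subset
    linarith
  have h4 := key (V1 ∪ V2) V3 (h1.union h2) h3
  have h5 := key V1 V2 h1 h2
  linarith

end Pool.Agent.H91.LD
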