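import Pool.Agent.H85.LD.NDefs
import Pool.Agent.H44.Fatou.Trap

/-!
# LargeDegree (MP_8f2e1c_an, proposal 34): cutoff functions, cells, strips, normalised charts

Definitions on top of `H85/LD/ADefs`, `H85/LD/NDefs` (`sg`, `mu`, `wm`, `Nd`, `Pj`, `ph`, `Gc`, `sc`, `Wgt`, `Sep`).
-/

set_option autoImplicit false

open Polynomial MeasureTheory ComplexConjugate

namespace Pool.Agent.H91.LD

open Pool.Agent.H85.LD

open Classical in
/-- distance to the complement of `E`, in units of `L / √d`, cut at `1` -/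
noncomputable def cut (d : ℕ) (L : ℝ) (E : Set ℂ) (z : ℂ) : ℝ :=
  ⨅ x : ℂ, (if x ∈ E then 1 else min 1 (√d * sg z x / L))

/-- cutoff function of the cell `j` (outside `Z`) -/
noncomputable def chi (d : ℕ) (L : ℝ) {N : ℕ} (c : ℂ → Fin N) (Z : Set ℂ) (j : Fin N) (z : ℂ) : ℝ :=
  cut d L {x | c x = j ∧ x ∉ Z} z

/-- sum of the cutoff functions of all the cells -/
noncomputable def chiT (d : ℕ) (L : ℝ) {N : ℕ} (c : ℂ → Fin N) (Z : Set ℂ) (z : ℂ) : ℝ :=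
  chi d L c Z (c z) z

/-- the sum of the perturbations of the cells -/
noncomputable def pS (d : ℕ) (L : ℝ) {N : ℕ} (c : ℂ → Fin N) (Z : Set ℂ) (B : ℂ[X])
    (τ : Fin N → ℝ) : ℂ[X] :=
  ∑ j, C ((τ j : ℝ) : ℂ) * Pj d (chi d L c Z j) B

/-- the final numerator (over the denominator `B`, up to a constant) -/
noncomputable def pT (d : ℕ) (L : ℝ) {N : ℕ} (c : ℂ → Fin N) (Z : Set ℂ) (A B : ℂ[X])
    (τ : Fin N → ℝ) (t : ℂ[X]) : ℂ[X] :=
  Pj d (chiT d L c Z) A + (pS d L c Z B τ + t)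

/-- smallest scale of the strips -/
noncomputable def sm (d : ℕ) : ℝ := (√(√d))⁻¹

/-- the strips: `m` levels, level `l` of period `sm d * Λ ^ (m - 1 - l)`, proportion `θ`, offset `o` -/
def strips (d m : ℕ) (Λ θ T o : ℝ) : Set ℂ :=
  {x | ‖x‖ ≤ T ∧ ∃ l < m, ∃ k : ℤ, (k : ℝ) * (sm d * Λ ^ (m - 1 - l)) ≤ x.re + o ∧
    x.re + o ≤ k * (sm d * Λ ^ (m - 1 - l)) + θ * (sm d * Λ ^ (m - 1 - l))}

/-- the polynomial `G` in the scaled chart at `b`, divided by `ω` -/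
noncomputable def sn (d : ℕ) (b : ℂ) (ω : ℝ) (G : ℂ[X]) (u : ℂ) : ℂ := sc d b G u / (ω : ℂ)

/-- Wronskian of two functions -/
noncomputable def wr (f g : ℂ → ℂ) (u : ℂ) : ℂ := deriv f u * g u - f u * deriv g u

/-- derivative of the Wronskian of two functions -/
noncomputable def wr1 (f g : ℂ → ℂ) (u : ℂ) : ℂ :=
  deriv (deriv f) u * g u - f u * deriv (deriv g) u

/-- entire function bounded by `M` in the disc of radius `4` -/
def EB (f : ℂ → ℂ) (M : ℝ) : Prop := Differentiable ℂ f ∧ ∀ u, ‖u‖ ≤ 4 → ‖f u‖ ≤ M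

/-- nondegeneracy of a pair of functions in the unit disc -/
structure NDf (r : ℝ) (f g : ℂ → ℂ) : Prop where
  n1 : ∀ u, ‖u‖ ≤ 1 → r ≤ ‖f u‖ + ‖g u‖
  n2 : ∀ u, ‖u‖ ≤ 1 → ‖g u‖ < r ^ 8 → r ^ 4 ≤ ‖deriv g u‖
  n3 : ∀ u, ‖u‖ ≤ 1 → ‖wr f g u‖ < r ^ 8 → r ^ 4 ≤ ‖wr1 f g u‖

end Pool.Agent.H91.LD
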