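import Mathlib

/-!
# [H91 LD AVOID] pigeonhole for the shift

For a pair `(v, ζ)` at most one `j` satisfies `‖v + s0 + j h - ζ‖ < h/2` (two such `j ≠ j'` give `|j - j'| h < h`). If every
`j < M` were bad, there would be an injection from `range M` to `V ×ˢ Z`.
-/

set_option autoImplicit false

namespace Pool.Agent.H91.LD

theorem avoid (V Z : Finset ℂ) (M : ℕ) (hM : V.card * Z.card < M) (h : ℝ) (hh : 0 < h) (s0 : ℂ) :
    ∃ j < M, ∀ v ∈ V, ∀ ζ ∈ Z, h / 2 ≤ ‖v + s0 + ((j * h : ℝ) : ℂ) - ζ‖ := by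
  classical
  by_contra hcon
  push Not at hcon
  have hch : ∀ j : ℕ, ∃ x : ℂ × ℂ, j < M →
      x ∈ V ×ˢ Z ∧ ‖x.1 + s0 + ((j * h : ℝ) : ℂ) - x.2‖ < h / 2 := by
    intro j
    by_cases hj : j < M
    · obtain ⟨v, hv, ζ, hζ, hlt⟩ := hcon j hj
      exact ⟨(v, ζ), fun _ => ⟨Finset.mk_mem_product hv hζ, hlt⟩⟩
    · exact ⟨0, fun h => absurd h hj⟩
  choose f hf using hch
  have hmaps : Set.MapsTo f (Finset.range M : Set ℕ) (V ×ˢ Z : Finset (ℂ × ℂ)) := by
    intro j hj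
    exact (hf j (Finset.mem_range.1 hj)).1
  have hcard : (V ×ˢ Z).card < (Finset.range M).card := by
    rw [Finset.card_product, Finset.card_range]
    exact hM
  obtain ⟨i, hi, j, hj, hij, hfe⟩ := Finset.exists_ne_map_eq_of_card_lt_of_maps_to hcard hmaps
  have h1 := (hf i (Finset.mem_range.1 hi)).2
  have h2 := (hf j (Finset.mem_range.1 hj)).2
  rw [← hfe] at h2
  have h3 : ‖(((i : ℝ) - j) * h : ℝ)‖ < h := by
    have e : ((((i : ℝ) - j) * h : ℝ) : ℂ) =
        ((f i).1 + s0 + ((i * h : ℝ) : ℂ) - (f i).2) -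
        ((f i).1 + s0 + ((j * h : ℝ) : ℂ) - (f i).2) := by
      push_cast
      ring
    rw [← Complex.norm_real, e]
    refine lt_of_le_of_lt (norm_sub_le _ _) ?_
    linarith
  rw [Real.norm_eq_abs, abs_mul, abs_of_pos hh] at h3
  have h4 : (1 : ℝ) ≤ |(i : ℝ) - j| := by
    have h5 : (1 : ℤ) ≤ |(i : ℤ) - j| := by
      apply Int.one_le_abs
      intro h6
      apply hij
      omega
    have h6 : ((1 : ℤ) : ℝ) ≤ ((|(i : ℤ) - j| : ℤ) : ℝ) := by exact_mod_cast h5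
    push_cast at h6
    exact h6
  nlinarith

end Pool.Agent.H91.LD
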