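import Pool.Agent.H91.LD.SDefs

/-!
# [H91 LD CAP0] trap disc, infinity not critical

`f = a + p/B`; all critical values `v` of `f` have a ball of radius `2 μ0` around them in the set `Z` near which `p` is tiny. After a small
shift (`f + s0`) no critical value is too close to a zero of `B`, and a small disc around `a + s0` is a trap.

* `wr_shift'`: `Wr (C c * B + p) B = Wr p B`. `crit_inf`: if `B.coeff d ≠ 0` then `dg P' B = d` and
  `(Wr (reflect d P') (reflect d B)).eval 0 = P'.coeff (d-1) * B.coeff d - P'.coeff d * B.coeff (d-1)`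
  (`derivative` at `0` of `reflect d F` is `F.coeff (d-1)`), so infinity is not critical (`H44.Fatou.crit_infty`).
* `trap_disc`: `κ4 w z ≤ wm B z` and `wm p z ≤ e w z` on `closedBall a' R`: `F z = c + p z/B z` is analytic there, `‖F - c‖ ≤ e/κ4`
  (`‖p z/B z‖ = wm p z/wm B z`); on `closedBall a' (R/2)`: `‖F'‖ ≤ (e/κ4)/(R/2)` (Cauchy), Lipschitz on the convex set.
* `capture`. Take `near_zero` with `T + 1`, `base_pt`, and `d` large. `a'` from `base_pt`. Let `M = 2 d^2 + 1`, `r1 = c6/(8 √d)`,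
  `h = r1/M`. `V` = the critical values `a + p z/B z`, `z` a root of `Wr p B` (`Wr p B ≠ 0` because `hinf`; degree at most `2d - 1`), `Z0` = the
  roots of `B`: `V.card * Z0.card ≤ (2d-1) d < M`. `avoid` (with `s0 = a' - a`) gives `j`; `s0' = a' - a + j h`, `‖s0'‖ ≤ 2/√d + r1 ≤ 4/√d`.
  Let `v' = v + s0'` for `v ∈ V`: `‖v'‖ ≤ T + 1`, `ball v' μ0 ⊆ ball v (2 μ0) ⊆ Z` (`4/√d ≤ μ0`). If `wm B v' < w v'/d^3` then `near_zero`
  (`ξ = 1/d^3`) gives a zero `ζ` with `‖v' - ζ‖ ≤ CT/(d^3 √d) < h/2` for large `d`, contradiction. So `‖p v'/B v'‖ ≤ d^3/d^10 ≤ r1`.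
  For `z ∈ closedBall a' (c6/√d)`: `ball z μ0 ⊆ closedBall a ρ ⊆ Z`, so `wm p z ≤ w z/d^10`: `trap_disc` with `c = a + s0'`, `R = c6/√d`,
  `e = 1/d^10`: on `closedBall (a + s0') r1 ⊆ closedBall a' (R/2)`: `‖F z - (a+s0')‖ ≤ 1/(κ4 d^10) < r1`, Lipschitz constant `≤ 1/2`.
  `H44.Fatou.hyp_of_trap` (`P' = C (a + s0') * B + p`; coprime: `IsCoprime.add_mul_left...`): a finite critical point `z` (`crit_coe`) satisfies
  `Wr p B z = 0`, `B z ≠ 0`, `rat z = v'`, `rat v' = a + s0' + p v'/B v'` in the disc: `m = 2`.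
-/

set_option autoImplicit false

open Polynomial MeasureTheory ComplexConjugate Filter

namespace Pool.Agent.H91.LD

open Pool.Agent.H85.LD Pool.Agent.H44.Fatou

theorem wr_shift' (c : ℂ) (p B : ℂ[X]) : Wr (C c * B + p) B = Wr p B := by
  unfold Wr
  rw [derivative_add, derivative_C_mul]
  ring

theorem crit_inf (d : ℕ) (hd : 2 ≤ d) (c : ℂ) (p B : ℂ[X]) (hp : p.natDegree ≤ d)
    (hB : B.natDegree ≤ d) (hBd : B.coeff d ≠ 0)
    (hinf : p.coeff d * B.coeff (d - 1) ≠ p.coeff (d - 1) * B.coeff d) :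
    ∃ U ∈ nhds (OnePoint.infty : OnePoint ℂ), Set.InjOn (rat (C c * B + p) B) U := by
  have hP : (C c * B + p).natDegree ≤ d :=
    (natDegree_add_le _ _).trans (max_le ((natDegree_C_mul_le _ _).trans hB) hp)
  have hBn : B.natDegree = d := le_antisymm hB (le_natDegree_of_ne_zero hBd)
  have hdg : dg (C c * B + p) B = d := by
    unfold dg
    rw [hBn]
    exact max_eq_right hP
  by_contra hc
  have h1 := crit_infty hc
  rw [hdg] at h1
  unfold Wr at h1
  have e0 : ∀ F : ℂ[X], (reflect d F).eval 0 = F.coeff d := by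
    intro F
    rw [← coeff_zero_eq_eval_zero, coeff_reflect, revAt_le (Nat.zero_le d), Nat.sub_zero]
  have e1 : ∀ F : ℂ[X], (derivative (reflect d F)).eval 0 = F.coeff (d - 1) := by
    intro F
    rw [← coeff_zero_eq_eval_zero, coeff_derivative, coeff_reflect, revAt_le (by omega)]
    simp
  rw [eval_sub, eval_mul, eval_mul, e0, e0, e1, e1, coeff_add, coeff_add, coeff_C_mul,
    coeff_C_mul] at h1
  apply hinf
  linear_combination -h1

theorem trap_disc (d : ℕ) (w : ℂ → ℝ) (hw : ∀ z, 0 < w z) (p B : ℂ[X]) (κ4 e R : ℝ) (hκ : 0 < κ4)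
    (he : 0 ≤ e) (hR : 0 < R) (c a' : ℂ) (h1 : ∀ z, ‖z - a'‖ ≤ R → κ4 * w z ≤ wm d B z)
    (h2 : ∀ z, ‖z - a'‖ ≤ R → wm d p z ≤ e * w z) :
    (∀ z, ‖z - a'‖ ≤ R → B.eval z ≠ 0 ∧ ‖p.eval z / B.eval z‖ ≤ e / κ4) ∧
    ∀ z w', ‖z - a'‖ ≤ R / 2 → ‖w' - a'‖ ≤ R / 2 →
      ‖(c + p.eval z / B.eval z) - (c + p.eval w' / B.eval w')‖ ≤ 2 * e / (κ4 * R) * ‖z - w'‖ := by
  have hwB : ∀ z, ‖z - a'‖ ≤ R → 0 < wm d B z := fun z hz =>
    lt_of_lt_of_le (mul_pos hκ (hw z)) (h1 z hz)
  have hne : ∀ z, ‖z - a'‖ ≤ R → B.eval z ≠ 0 := by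
    intro z hz h0
    have h3 := hwB z hz
    unfold wm at h3
    rw [h0, norm_zero, zero_div] at h3
    exact lt_irrefl _ h3
  have hquot : ∀ z, ‖z - a'‖ ≤ R → ‖p.eval z / B.eval z‖ ≤ e / κ4 := by
    intro z hz
    have hS : 0 < √((1 + ‖z‖ ^ 2) ^ d) := Real.sqrt_pos.2 (by positivity)
    have h3 : ‖p.eval z / B.eval z‖ = wm d p z / wm d B z := by
      unfold wm
      rw [norm_div, div_div_div_cancel_right₀ hS.ne']
    rw [h3, div_le_div_iff₀ (hwB z hz) hκ]
    have h4 := h1 z hz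
    have h5 := h2 z hz
    calc wm d p z * κ4 ≤ (e * w z) * κ4 := mul_le_mul_of_nonneg_right h5 hκ.le
      _ = e * (κ4 * w z) := by ring
      _ ≤ e * wm d B z := mul_le_mul_of_nonneg_left h4 he
  refine ⟨fun z hz => ⟨hne z hz, hquot z hz⟩, ?_⟩
  intro z w' hz hw'
  have hdiff : ∀ z, ‖z - a'‖ ≤ R → DifferentiableAt ℂ (fun z => p.eval z / B.eval z) z := fun z hz =>
    p.differentiable.differentiableAt.div B.differentiable.differentiableAt (hne z hz)
  have hder : ∀ z ∈ Metric.closedBall a' (R / 2),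
      ‖deriv (fun z => p.eval z / B.eval z) z‖ ≤ 2 * e / (κ4 * R) := by
    intro z hz
    rw [mem_closedBall_iff_norm] at hz
    have hsub : ∀ y ∈ Metric.closedBall z (R / 2), ‖y - a'‖ ≤ R := by
      intro y hy
      rw [mem_closedBall_iff_norm] at hy
      have h3 : y - a' = (y - z) + (z - a') := by ring
      rw [h3]
      refine (norm_add_le _ _).trans ?_
      linarith
    have h3 := Complex.norm_deriv_le_of_forall_mem_sphere_norm_le (half_pos hR)
      (f := fun z => p.eval z / B.eval z) (c := z) (C := e / κ4) (by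
        apply DifferentiableOn.diffContOnCl
        intro y hy
        have hy' : y ∈ Metric.closedBall z (R / 2) := Metric.closure_ball_subset_closedBall hy
        exact (hdiff y (hsub y hy')).differentiableWithinAt) (fun y hy =>
        hquot y (hsub y (Metric.sphere_subset_closedBall hy)))
    refine h3.trans (le_of_eq ?_)
    field_simp
  have h4 := (convex_closedBall a' (R / 2)).norm_image_sub_le_of_norm_deriv_le
    (f := fun z => p.eval z / B.eval z) (fun y hy => hdiff y (by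
      rw [mem_closedBall_iff_norm] at hy
      linarith)) hder (mem_closedBall_iff_norm.2 hw') (mem_closedBall_iff_norm.2 hz)
  have h5 : (c + p.eval z / B.eval z) - (c + p.eval w' / B.eval w') =
      p.eval z / B.eval z - p.eval w' / B.eval w' := by ring
  rw [h5]
  exact h4

end Pool.Agent.H91.LD
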