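import Pool.Agent.H44.Fatou.Trap

/-!
# LargeDegree: one attracting fixed point attracts all the critical points
-/

set_option autoImplicit false

open Filter Topology Polynomial OnePoint Metric

namespace Pool.Agent.H91.LD

open Pool.Agent.H44.Fatou

/-- `P/Q` has an attracting fixed point that attracts all the critical points -/
def Hyp1 (P Q : Polynomial ℂ) : Prop :=
  ∃ f : OnePoint ℂ → OnePoint ℂ, Continuous f ∧
    (∀ z : ℂ, Q.eval z ≠ 0 → f (OnePoint.some z) = OnePoint.some (P.eval z / Q.eval z)) ∧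
    ∃ z : OnePoint ℂ, f z = z ∧
      (∃ U ∈ nhds z, ∀ w ∈ U, Filter.Tendsto (fun k : ℕ => f^[k] w) Filter.atTop (nhds z)) ∧
      ∀ c : OnePoint ℂ, (¬ ∃ U ∈ nhds c, Set.InjOn f U) →
        Filter.Tendsto (fun k : ℕ => f^[k] c) Filter.atTop (nhds z)

theorem Hyp1.hyp {P Q : Polynomial ℂ} (h : Hyp1 P Q) : Hyp P Q := by
  obtain ⟨f, hf, hfe, z, hz, hU, hc⟩ := h
  refine ⟨f, hf, hfe, fun c hcc => ⟨z, 1, one_pos, by simpa using hz, by simpa using hU, ?_⟩⟩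
  simpa using hc c hcc

/-- a finite trap catching all critical points -/
theorem hyp1_of_trap {P Q : Polynomial ℂ} (hcop : IsCoprime P Q) {F : ℂ → ℂ} {a : ℂ} {r q : ℝ}
    (hr : 0 < r) (hq0 : 0 ≤ q) (hq : q < 1)
    (hfF : ∀ z ∈ closedBall a r, rat P Q (z : OnePoint ℂ) = (F z : OnePoint ℂ))
    (hmaps : ∀ z ∈ closedBall a r, F z ∈ ball a r)
    (hlip : ∀ z ∈ closedBall a r, ∀ w ∈ closedBall a r, ‖F z - F w‖ ≤ q * ‖z - w‖)
    (hcrit : ∀ c : OnePoint ℂ, (¬ ∃ U ∈ nhds c, Set.InjOn (rat P Q) U) →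
      ∃ m : ℕ, ∃ w ∈ closedBall a r, (rat P Q)^[m] c = (w : OnePoint ℂ)) : Hyp1 P Q := by
  obtain ⟨z0, h1, h2, h3⟩ := trap hr hq0 hq hfF hmaps hlip
  refine ⟨rat P Q, rat_continuous hcop, fun z hz => rat_coe_of_ne hz, z0, h1, h2, ?_⟩
  intro c hc
  obtain ⟨m, w, hw, hm⟩ := hcrit c hc
  rw [← tendsto_add_atTop_iff_nat m]
  have h4 := h3 w hw
  apply h4.congr
  intro k
  rw [Function.iterate_add_apply, hm]

end Pool.Agent.H91.LD
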