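import Pool.Agent.H91.LD.Near

/-!
# [H91 LD NEARB] a base point where the denominator is large (`base_pt`)

`Cov d s`: the centres `b ∈ s` cover the plane. `N2 r d s w B`: nondegeneracy (n2) of `B` in the charts.

* `near_zero`: `ξ0 = (ξ0 of loc_zero (10^6) r)/2`, `CT = 16 (1+T)^2/r^4`. Let `b ∈ s`, `u` as in `chart_pt`. `‖sn B u‖ = wm B z √((1+‖u‖^2/d)^d)/w b ≤ ξ w z exp(1/8)/w b ≤ 2 ξ`
  (`w z ≤ w b exp(1/4)`, `Wgt.lip`; `exp(3/8) ≤ 2`), `EB (sn B) (4*10^5)` by `sn_EB`. `loc_zero` gives `v`, `‖v‖ ≤ 1`, `sn B v = 0`,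
  `‖v-u‖ ≤ 4 ξ/r^4`. If `1 - conj b (v/√d) = 0` then `‖b‖ ≥ √d`, but `sg z b < 1/(4√d)`, `‖z‖ ≤ T` give
  `‖z-b‖ ≤ 2(1+T)^2/(4√d) ≤ 1` (`dist_le_sg`, `d` large), impossible for `√d > T + 1`. So `ζ = ph b (v/√d)` is a zero of `B`
  (`sn_eq_zero`), `sg z ζ = sg (u/√d) (v/√d) ≤ ‖u-v‖/√d` (`sg_ph`, `sg_le_dist`), and `dist_le_sg`.
* `base_pt`: chart of `a` (`‖a‖ ≤ 1`), `loc_base` gives `u'`, `‖u'‖ ≤ 3/4`; `a' = ph b (u'/√d)` (the denominator does not vanish, as above, since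
  `‖b‖ ≤ 2 < √d`); `sg a' a ≤ ‖u-u'‖/√d ≤ 1/(4√d)`, `‖a'-a‖ ≤ 2*4/(4√d) = 2/√d`. Take `c6 = c5/8` (`≤ 1/32`). If `‖z-a'‖ ≤ c6/√d` then
  `sg z a' ≤ c6/√d`; `z = ph b (v/√d)` with `v = √d ph (-b) z` (`ph_ph`; `1 + conj b z ≠ 0` because `sg b z < 1`), `sg (v/√d) (u'/√d) ≤ c6/√d`,
  so `‖v - u'‖ ≤ 8 c6 = c5` (`dist_le_sg` with `T = 1`) and `‖v‖ ≤ 1`. `κ4' ≤ ‖sn B v‖ = wm B z √(..)/w b ≤ wm B z exp(1/2)/w b`,
  `w z ≤ w b exp(√d sg b z) ≤ w b exp 1`: `wm B z ≥ κ4' w z/exp(3/2) ≥ κ4' w z/6`.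
-/

set_option autoImplicit false

open Polynomial MeasureTheory ComplexConjugate Filter

namespace Pool.Agent.H91.LD

open Pool.Agent.H85.LD

/-- the factor in `sn_norm` -/
private theorem nb_fac (d : ℕ) (hd : 1 ≤ d) (x : ℝ) (hx0 : 0 ≤ x) (hx : x ≤ 1) :
    √((1 + x ^ 2 / d) ^ d) ≤ Real.exp (1 / 2) := by
  have hd0 : (0 : ℝ) < d := by exact_mod_cast hd
  have h1 : (1 + x ^ 2 / d) ^ d ≤ Real.exp 1 := by
    have h2 : 1 + x ^ 2 / d ≤ Real.exp (x ^ 2 / d) := by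
      have := Real.add_one_le_exp (x ^ 2 / d)
      linarith
    calc (1 + x ^ 2 / d) ^ d ≤ Real.exp (x ^ 2 / d) ^ d := pow_le_pow_left₀ (by positivity) h2 d
      _ = Real.exp (x ^ 2) := by
          rw [← Real.exp_nat_mul]
          congr 1
          field_simp
      _ ≤ Real.exp 1 := by
          apply Real.exp_le_exp.mpr
          nlinarith
  calc √((1 + x ^ 2 / d) ^ d) ≤ √(Real.exp 1) := Real.sqrt_le_sqrt h1
    _ = Real.exp (1 / 2) := by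
        rw [show (1 : ℝ) = 1 / 2 + 1 / 2 by norm_num, Real.exp_add, Real.sqrt_mul_self (Real.exp_pos _).le]
        norm_num

private theorem nb_exp : Real.exp (1 / 2) * Real.exp 1 ≤ 6 := by
  rw [← Real.exp_add]
  have h1 : Real.exp (1 / 2 + 1) ≤ Real.exp 1 * Real.exp 1 := by
    rw [← Real.exp_add]
    exact Real.exp_le_exp.mpr (by norm_num)
  have h2 : Real.exp (1 / 2 + 1) ^ 2 = Real.exp 1 ^ 3 := by
    rw [← Real.exp_nat_mul, ← Real.exp_nat_mul]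
    congr 1
    norm_num
  have h3 := Real.exp_one_lt_d9
  have h5 : Real.exp 1 ^ 3 ≤ 36 := by
    have : Real.exp 1 ≤ 3 := by linarith
    have h0 := Real.exp_pos 1
    calc Real.exp 1 ^ 3 ≤ (3 : ℝ) ^ 3 := pow_le_pow_left₀ h0.le this 3
      _ ≤ 36 := by norm_num
  have h6 := Real.exp_pos (1 / 2 + 1)
  nlinarith

/-- the local statement in one chart -/
private theorem nb_local (d : ℕ) (hd : 1 ≤ d) (hq : 10 ≤ √(d : ℝ)) (w : ℂ → ℝ) (hw : Wgt d w) (B : ℂ[X])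
    (hB : B.natDegree ≤ d) (κ c5 : ℝ) (hc5 : 0 < c5) (hc51 : c5 ≤ 1 / 4) (hκ : 0 < κ)
    (b u u' : ℂ) (hb : ‖b‖ ≤ 2) (hu : ‖u‖ ≤ 1 / 2)
    (hmu : 1 - conj b * (u / ((√d : ℝ) : ℂ)) ≠ 0) (hu' : ‖u' - u‖ ≤ 1 / 4)
    (ha : ‖ph b (u / ((√d : ℝ) : ℂ))‖ ≤ 1) (hab : sg (ph b (u / ((√d : ℝ) : ℂ))) b ≤ 1 / (4 * √d))
    (h : ∀ v, ‖v - u'‖ ≤ c5 → κ ≤ ‖sn d b (w b) B v‖) :
    ∃ a' : ℂ, ‖a' - ph b (u / ((√d : ℝ) : ℂ))‖ ≤ 2 / √d ∧
      ∀ z : ℂ, ‖z - a'‖ ≤ c5 / 8 / √d → κ / 6 * w z ≤ wm d B z := by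
  have hq0 : 0 < √(d : ℝ) := by linarith
  have hqne : ((√d : ℝ) : ℂ) ≠ 0 := by exact_mod_cast hq0.ne'
  have hqn : ‖((√d : ℝ) : ℂ)‖ = √d := by
    rw [Complex.norm_real, Real.norm_of_nonneg hq0.le]
  have hu'n : ‖u'‖ ≤ 3 / 4 := by
    calc ‖u'‖ = ‖(u' - u) + u‖ := by rw [sub_add_cancel]
      _ ≤ ‖u' - u‖ + ‖u‖ := norm_add_le _ _
      _ ≤ 3 / 4 := by linarith
  have hdiv : ∀ x : ℂ, ‖x / ((√d : ℝ) : ℂ)‖ = ‖x‖ / √d := by
    intro x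
    rw [norm_div, hqn]
  have hmu' : 1 - conj b * (u' / ((√d : ℝ) : ℂ)) ≠ 0 := by
    intro h0
    have h1 : conj b * (u' / ((√d : ℝ) : ℂ)) = 1 := (sub_eq_zero.mp h0).symm
    have h2 : ‖conj b * (u' / ((√d : ℝ) : ℂ))‖ = 1 := by rw [h1, norm_one]
    rw [norm_mul, Complex.norm_conj, hdiv] at h2
    have h3 : ‖u'‖ / √d ≤ 3 / 40 := by
      rw [div_le_iff₀ hq0]
      linarith
    have h4 : 0 ≤ ‖u'‖ / √d := by positivity
    nlinarith [norm_nonneg b]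
  obtain ⟨a, hadef⟩ : ∃ a, a = ph b (u / ((√d : ℝ) : ℂ)) := ⟨_, rfl⟩
  obtain ⟨a', ha'def⟩ : ∃ a', a' = ph b (u' / ((√d : ℝ) : ℂ)) := ⟨_, rfl⟩
  rw [← hadef] at ha hab
  have hi : 1 / (4 * √(d : ℝ)) ≤ 1 / 40 := by
    apply div_le_div_of_nonneg_left (by norm_num) (by norm_num) (by linarith)
  have hsg1 : sg a' a ≤ 1 / (4 * √d) := by
    rw [ha'def, hadef, sg_ph b _ _ hmu' hmu]
    calc sg (u' / ((√d : ℝ) : ℂ)) (u / ((√d : ℝ) : ℂ)) ≤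
        ‖u' / ((√d : ℝ) : ℂ) - u / ((√d : ℝ) : ℂ)‖ := sg_le_dist _ _
      _ = ‖u' - u‖ / √d := by rw [← sub_div, hdiv]
      _ ≤ (1 / 4) / √d := by gcongr
      _ = 1 / (4 * √d) := by field_simp
  refine ⟨a', ?_, ?_⟩
  · rw [← hadef]
    have h1 : ‖a' - a‖ ≤ 2 * (1 + 1) ^ 2 * sg a' a := dist_le_sg ha (by linarith)
    calc ‖a' - a‖ ≤ 2 * (1 + 1) ^ 2 * sg a' a := h1
      _ ≤ 2 * (1 + 1) ^ 2 * (1 / (4 * √d)) := by gcongr
      _ = 2 / √d := by field_simp; norm_num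
  · intro z hz
    have hz1 : sg z a' ≤ c5 / 8 / √d := (sg_le_dist z a').trans hz
    have hc : c5 / 8 / √(d : ℝ) ≤ 1 / 2 / √d :=
      div_le_div_of_nonneg_right (by linarith) hq0.le
    have hsum : sg b z ≤ 1 / √d := by
      have t1 := sg_tri b a z
      have t2 := sg_tri a a' z
      have t3 : sg b a ≤ 1 / (4 * √d) := by rw [sg_comm]; exact hab
      have t4 : sg a a' ≤ 1 / (4 * √d) := by rw [sg_comm]; exact hsg1
      have t5 : sg a' z ≤ 1 / 2 / √d := by rw [sg_comm]; exact hz1.trans hc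
      have t6 : 1 / √(d : ℝ) = 1 / (4 * √d) + (1 / (4 * √d) + 1 / 2 / √d) := by
        field_simp
        norm_num
      rw [t6]
      linarith
    have hsum1 : sg b z ≤ 1 / 10 := by
      refine hsum.trans ?_
      exact div_le_div_of_nonneg_left (by norm_num) (by norm_num) hq
    have hne : 1 + conj b * z ≠ 0 := by
      intro h0
      have h1 := one_sub_sg_sq z b
      rw [show 1 + z * conj b = 1 + conj b * z by ring, h0, norm_zero] at h1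
      rw [sg_comm] at h1
      have h2 := sg_nonneg b z
      norm_num at h1
      nlinarith
    obtain ⟨hp1, hp2⟩ := ph_ph b z hne
    obtain ⟨v, hv⟩ : ∃ v : ℂ, v = ((√d : ℝ) : ℂ) * ph (-b) z := ⟨_, rfl⟩
    have hvd : v / ((√d : ℝ) : ℂ) = ph (-b) z := by
      rw [hv, mul_div_cancel_left₀ _ hqne]
    have hmv : 1 - conj b * (v / ((√d : ℝ) : ℂ)) ≠ 0 := by rw [hvd]; exact hp1
    have hpv : ph b (v / ((√d : ℝ) : ℂ)) = z := by rw [hvd]; exact hp2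
    have hsv : sg (v / ((√d : ℝ) : ℂ)) (u' / ((√d : ℝ) : ℂ)) ≤ c5 / 8 / √d := by
      rw [← sg_ph b _ _ hmv hmu', hpv, ← ha'def]
      exact hz1
    have hu'1 : ‖u' / ((√d : ℝ) : ℂ)‖ ≤ 1 := by
      rw [hdiv, div_le_one hq0]
      linarith
    have hc' : c5 / 8 / √(d : ℝ) ≤ 1 / 4 := by
      rw [div_le_iff₀ hq0]
      nlinarith
    have hdist : ‖v / ((√d : ℝ) : ℂ) - u' / ((√d : ℝ) : ℂ)‖ ≤
        2 * (1 + 1) ^ 2 * sg (v / ((√d : ℝ) : ℂ)) (u' / ((√d : ℝ) : ℂ)) :=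
      dist_le_sg hu'1 (by linarith)
    have hvu : ‖v - u'‖ ≤ c5 := by
      rw [← sub_div, hdiv] at hdist
      have h1 : ‖v - u'‖ / √d ≤ c5 / √d := by
        calc ‖v - u'‖ / √d ≤ 2 * (1 + 1) ^ 2 * sg (v / ((√d : ℝ) : ℂ)) (u' / ((√d : ℝ) : ℂ)) := hdist
          _ ≤ 2 * (1 + 1) ^ 2 * (c5 / 8 / √d) := by gcongr
          _ = c5 / √d := by field_simp; norm_num
      exact (div_le_div_iff_of_pos_right hq0).mp h1
    have hvn : ‖v‖ ≤ 1 := by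
      calc ‖v‖ = ‖(v - u') + u'‖ := by rw [sub_add_cancel]
        _ ≤ ‖v - u'‖ + ‖u'‖ := norm_add_le _ _
        _ ≤ 1 := by linarith
    have hwb := hw.pos b
    have hk := h v hvu
    rw [sn_norm d b (w b) hwb B hB v hmv, hpv] at hk
    have hfac := nb_fac d hd ‖v‖ (norm_nonneg _) hvn
    have hwm := wm_nonneg d B z
    have hk2 : κ * w b ≤ wm d B z * Real.exp (1 / 2) := by
      rw [le_div_iff₀ hwb] at hk
      exact hk.trans (mul_le_mul_of_nonneg_left hfac hwm)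
    have hwz : w z ≤ w b * Real.exp 1 := by
      refine (hw.lip b z).trans ?_
      apply mul_le_mul_of_nonneg_left _ hwb.le
      apply Real.exp_le_exp.mpr
      calc √(d : ℝ) * sg b z ≤ √(d : ℝ) * (1 / √d) := mul_le_mul_of_nonneg_left hsum hq0.le
        _ = 1 := by field_simp
    calc κ / 6 * w z ≤ κ / 6 * (w b * Real.exp 1) :=
          mul_le_mul_of_nonneg_left hwz (by positivity)
      _ = κ * w b * Real.exp 1 / 6 := by ring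
      _ ≤ wm d B z * Real.exp (1 / 2) * Real.exp 1 / 6 := by
          have := Real.exp_pos 1
          gcongr
      _ = wm d B z * (Real.exp (1 / 2) * Real.exp 1) / 6 := by ring
      _ ≤ wm d B z * 6 / 6 := by
          have := nb_exp
          gcongr
      _ = wm d B z := by ring

theorem base_pt (r : ℝ) (hr : 0 < r) (hr1 : r ≤ 1) : ∃ κ4 c6 : ℝ, 0 < κ4 ∧ 0 < c6 ∧ c6 ≤ 1 ∧
    ∀ᶠ d : ℕ in atTop, ∀ (s : Finset ℂ) (w : ℂ → ℝ) (B : ℂ[X]), Cov d s → Wgt d w →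
      B.natDegree ≤ d → (∀ z, wm d B z ≤ 2 * w z) → N2 r d s w B →
      ∀ a : ℂ, ‖a‖ ≤ 1 → ∃ a' : ℂ, ‖a' - a‖ ≤ 2 / √d ∧
        ∀ z : ℂ, ‖z - a'‖ ≤ c6 / √d → κ4 * w z ≤ wm d B z := by
  obtain ⟨κ, c5, hκ, hc5, hc51, hloc⟩ := loc_base (2 * 10 ^ 5 * 2) r (by norm_num) hr hr1
  refine ⟨κ / 6, c5 / 8, by positivity, by positivity, by linarith, ?_⟩
  filter_upwards [eventually_ge_atTop 100] with d hd
  intro s w B hcov hw hB hBw hN a ha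
  have hd1 : 1 ≤ d := by omega
  have hq : 10 ≤ √(d : ℝ) := by
    apply Real.le_sqrt_of_sq_le
    have : (100 : ℝ) ≤ d := by exact_mod_cast hd
    linarith
  have hq0 : 0 < √(d : ℝ) := by linarith
  obtain ⟨b, hbs, hab⟩ := hcov a
  obtain ⟨u, hu, hmu, hua⟩ := chart_pt d hd1 b a hab
  have hi : 1 / (4 * √(d : ℝ)) ≤ 1 / 40 :=
    div_le_div_of_nonneg_left (by norm_num) (by norm_num) (by linarith)
  have hb : ‖b‖ ≤ 2 := by
    have h0 : sg b a ≤ 1 / 40 := by rw [sg_comm]; linarith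
    have h1 : ‖b - a‖ ≤ 2 * (1 + 1) ^ 2 * sg b a := dist_le_sg ha (by linarith)
    calc ‖b‖ = ‖(b - a) + a‖ := by rw [sub_add_cancel]
      _ ≤ ‖b - a‖ + ‖a‖ := norm_add_le _ _
      _ ≤ 2 := by linarith
  have hEB : EB (sn d b (w b) B) (2 * 10 ^ 5 * 2) :=
    sn_EB d hd1 w hw b B hB 2 (by norm_num) (fun z _ => hBw z)
  obtain ⟨u', hu', hv⟩ := hloc _ hEB (hN b hbs) u hu
  have := nb_local d hd1 hq w hw B hB κ c5 hc5 hc51 hκ b u u' hb hu hmu hu' (by rw [hua]; exact ha)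
    (by rw [hua]; exact hab.le) hv
  rwa [hua] at this

end Pool.Agent.H91.LD
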