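import Pool.Agent.H91.LD.Cap0
import Pool.Agent.H91.LD.Hyp1
import Pool.Agent.H91.LD.NearB
import Pool.Agent.H91.LD.Avoid

/-!
# [H91 LD CAPTURE] all critical values fall into a trap after one step

`f = a + p/B`; all critical values `v` of `f` have a ball of radius `2 μ0` around them in the set `Z` near which `p` is tiny. After a small
shift (`f + s0`) no critical value is too close to a zero of `B`, and a small disc around `a + s0` is a trap.

* `wr_shift'`: `Wr (C c * B + p) B = Wr p B`. `crit_inf`: if `B.coeff d ≠ 0` then `dg P' B = d` and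
  `(Wr (reflect d P') (reflect d B)).eval 0 = P'.coeff (d-1) * B.coeff d - P'.coeff d * B.coeff (d-1)`
  (`derivative` at `0` of `reflect d F` is `F.coeff (d-1)`), so infinity is not critical (`H44.Fatou.crit_infty`).
* `trap_disc`: `κ4 w z ≤ wm B z` and `wm p z ≤ e w z` on `closedBall a' R`: `F z = c + p z/B z` is analytic there, `‖F - c‖ ≤ e/κ4`
  (`‖p z/B z‖ = wm p z/wm B z`); on `closedBall a' (R/2)`: `‖F'‖ ≤ (e/κ4)/(R/2)` (Cauchy), Lipschitz on the convex set.
* `capture`. Take `near_zero` with `T + 1`, `base_pt`, and `d` large. `a'` from `base_pt`. Let `M = 2 d^2 + 1`, `r1 = c6/(8 √d)`,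
  `h = r1/M`. `V` = the critical values `a + p z/B z`, `z` a root of `Wr p B` (`Wr p B ≠ 0` because `hinf`; degree at most `2d - 1`), `Z0` = the
  roots of `B`: `V.card * Z0.card ≤ (2d-1) d < M`. `avoid` (with `s0 = a' - a`) gives `j`; `s0' = a' - a + j h`, `‖s0'‖ ≤ 2/√d + r1 ≤ 4/√d`.
  Let `v' = v + s0'` for `v ∈ V`: `‖v'‖ ≤ T + 1`, `ball v' μ0 ⊆ ball v (2 μ0) ⊆ Z` (`4/√d ≤ μ0`). If `wm B v' < w v'/d^3` then `near_zero`
  (`ξ = 1/d^3`) gives a zero `ζ` with `‖v' - ζ‖ ≤ CT/(d^3 √d) < h/2` for large `d`, contradiction. So `‖p v'/B v'‖ ≤ d^3/d^10 ≤ r1`.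
  For `z ∈ closedBall a' (c6/√d)`: `ball z μ0 ⊆ closedBall a ρ ⊆ Z`, so `wm p z ≤ w z/d^10`: `trap_disc` with `c = a + s0'`, `R = c6/√d`,
  `e = 1/d^10`: on `closedBall (a + s0') r1 ⊆ closedBall a' (R/2)`: `‖F z - (a+s0')‖ ≤ 1/(κ4 d^10) < r1`, Lipschitz constant `≤ 1/2`.
  `H44.Fatou.hyp1_of_trap` (`P' = C (a + s0') * B + p`; coprime: `IsCoprime.add_mul_left...`): a finite critical point `z` (`crit_coe`) satisfies
  `Wr p B z = 0`, `B z ≠ 0`, `rat z = v'`, `rat v' = a + s0' + p v'/B v'` in the disc: `m = 2`.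
-/

set_option autoImplicit false

open Polynomial MeasureTheory ComplexConjugate Filter

namespace Pool.Agent.H91.LD

open Pool.Agent.H85.LD Pool.Agent.H44.Fatou

theorem capture (r ρ T : ℝ) (hr : 0 < r) (hr1 : r ≤ 1) (hρ : 0 < ρ) (hρ1 : ρ ≤ 1 / 4) (hT : 1 ≤ T) :
    ∀ᶠ d : ℕ in atTop, ∀ (s : Finset ℂ) (w : ℂ → ℝ) (B : ℂ[X]), Cov d s → Wgt d w →
      B.natDegree ≤ d → B.coeff d ≠ 0 → (∀ z, wm d B z ≤ 2 * w z) → N2 r d s w B →
      ∀ p : ℂ[X], p.natDegree ≤ d → IsCoprime p B →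
      p.coeff d * B.coeff (d - 1) ≠ p.coeff (d - 1) * B.coeff d →
      ∀ a : ℂ, ‖a‖ ≤ 1 → ∀ (Z : Set ℂ) (μ0 : ℝ), 4 / √d ≤ μ0 → μ0 ≤ ρ / 4 →
      Metric.closedBall a ρ ⊆ Z →
      (∀ v, ‖v‖ ≤ T + 1 → Metric.ball v μ0 ⊆ Z → wm d p v ≤ w v / d ^ 10) →
      (∀ z, (Wr p B).eval z = 0 → B.eval z ≠ 0 ∧ ‖a + p.eval z / B.eval z‖ ≤ T ∧
        Metric.ball (a + p.eval z / B.eval z) (2 * μ0) ⊆ Z) →
      ∃ s0 : ℂ, ‖s0‖ ≤ 4 / √d ∧ IsCoprime (C (a + s0) * B + p) B ∧ Hyp1 (C (a + s0) * B + p) B := by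
  classical
  obtain ⟨ξ0, CT, hξ0, hCT, ev1⟩ := near_zero r (T + 1) hr hr1 (by linarith)
  obtain ⟨κ4, c6, hκ4, hc6, hc61, ev2⟩ := base_pt r hr hr1
  have hcast := tendsto_natCast_atTop_atTop (R := ℝ)
  filter_upwards [ev1, ev2, eventually_ge_atTop 2, hcast.eventually_gt_atTop (48 * CT / c6),
    hcast.eventually_gt_atTop (8 / c6), hcast.eventually_gt_atTop (8 / (c6 * κ4)),
    hcast.eventually_gt_atTop (1 / ξ0)] with d ev1 ev2 hd2 a1 a2 a3 a4
  intro s w B hCov hw hB hBd hB2 hN2 p hp hcop hinf a ha Z μ0 hμ1 hμ2 hZ hpsmall hcrit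
  -- arithmetic
  obtain ⟨D, hD⟩ : ∃ D : ℝ, D = (d : ℝ) := ⟨_, rfl⟩
  obtain ⟨q, hq⟩ : ∃ q : ℝ, q = √(d : ℝ) := ⟨_, rfl⟩
  rw [← hq] at hμ1
  have hD2 : 2 ≤ D := by rw [hD]; exact_mod_cast hd2
  have hq0 : 0 < q := by rw [hq]; exact Real.sqrt_pos.2 (by rw [← hD]; linarith)
  have hqD : q ^ 2 = D := by rw [hq, hD]; exact Real.sq_sqrt (Nat.cast_nonneg d)
  have hq1 : 1 ≤ q := by nlinarith
  have hqleD : q ≤ D := by nlinarith
  have hD0 : 0 < D := by linarith
  have hD1 : 1 ≤ D := by linarith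
  rw [← hD] at a1 a2 a3 a4
  rw [div_lt_iff₀ hc6] at a1 a2
  rw [div_lt_iff₀ (by positivity)] at a3 a4
  obtain ⟨r1, hr1d⟩ : ∃ r1 : ℝ, r1 = c6 / (8 * q) := ⟨_, rfl⟩
  have hr10 : 0 < r1 := by rw [hr1d]; positivity
  obtain ⟨M, hM⟩ : ∃ M : ℕ, M = 2 * d ^ 2 + 1 := ⟨_, rfl⟩
  have hMR : (M : ℝ) = 2 * D ^ 2 + 1 := by rw [hM, hD]; push_cast; ring
  obtain ⟨h, hh⟩ : ∃ h : ℝ, h = r1 / (2 * D ^ 2 + 1) := ⟨_, rfl⟩
  have hh0 : 0 < h := by rw [hh]; positivity
  have f1 : 1 / D ^ 3 ≤ ξ0 := by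
    rw [div_le_iff₀ (by positivity)]
    have h1 : D ≤ D ^ 3 := le_self_pow₀ hD1 (by norm_num)
    have h2 : ξ0 * D ≤ ξ0 * D ^ 3 := mul_le_mul_of_nonneg_left h1 hξ0.le
    linarith
  have f2 : CT * (1 / D ^ 3) / q < h / 2 := by
    have h1 : CT * (1 / D ^ 3) / q = CT / (D ^ 3 * q) := by
      field_simp
    have h2 : h / 2 = c6 / (16 * q * (2 * D ^ 2 + 1)) := by
      rw [hh, hr1d]
      field_simp
      ring
    rw [h1, h2, div_lt_div_iff₀ (by positivity) (by positivity)]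
    have h3 : 16 * (2 * D ^ 2 + 1) ≤ 48 * D ^ 2 := by nlinarith
    have h4 : CT * (16 * q * (2 * D ^ 2 + 1)) ≤ (48 * CT) * (D ^ 2 * q) := by
      have h5 := mul_le_mul_of_nonneg_left h3 (by positivity : 0 ≤ CT * q)
      linarith
    have h5 : (48 * CT) * (D ^ 2 * q) < (D * c6) * (D ^ 2 * q) :=
      mul_lt_mul_of_pos_right a1 (by positivity)
    calc CT * (16 * q * (2 * D ^ 2 + 1)) ≤ (48 * CT) * (D ^ 2 * q) := h4
      _ < (D * c6) * (D ^ 2 * q) := h5
      _ = _ := by ring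
  have f3 : 1 / D ^ 7 ≤ r1 := by
    rw [hr1d, div_le_div_iff₀ (by positivity) (by positivity)]
    have h1 : 1 ≤ D ^ 5 := one_le_pow₀ hD1
    have h2 : 8 * q ≤ (D * c6) * D := mul_le_mul a2.le hqleD hq0.le (by positivity)
    have h3 : (D * c6) * D ≤ (D * c6) * D * D ^ 5 := le_mul_of_one_le_right (by positivity) h1
    calc 1 * (8 * q) = 8 * q := one_mul _
      _ ≤ (D * c6) * D * D ^ 5 := h2.trans h3
      _ = _ := by ring
  have f4' : 8 * q < c6 * κ4 * D ^ 10 := by
    have h1 : 1 ≤ D ^ 8 := one_le_pow₀ hD1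
    have h2 : 8 * q < (D * (c6 * κ4)) * D := mul_lt_mul'' a3 (lt_of_le_of_ne hqleD (by
      intro h
      rw [h] at hqD
      nlinarith)) (by norm_num) hq0.le
    have h3 : (D * (c6 * κ4)) * D ≤ (D * (c6 * κ4)) * D * D ^ 8 :=
      le_mul_of_one_le_right (by positivity) h1
    calc 8 * q < (D * (c6 * κ4)) * D * D ^ 8 := lt_of_lt_of_le h2 h3
      _ = _ := by ring
  have f4 : 1 / D ^ 10 / κ4 < r1 := by
    rw [hr1d, div_div, div_lt_div_iff₀ (by positivity) (by positivity)]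
    linarith
  have f5 : 2 * (1 / D ^ 10) / (κ4 * (c6 / q)) ≤ 1 / 2 := by
    have h1 : 2 * (1 / D ^ 10) / (κ4 * (c6 / q)) = 2 * q / (c6 * κ4 * D ^ 10) := by
      field_simp
    rw [h1, div_le_iff₀ (by positivity)]
    linarith
  have f6 : c6 / q ≤ 1 / q := div_le_div_of_nonneg_right hc61 hq0.le
  have f7 : 4 / q ≤ 1 / 16 := by linarith
  have f8 : 0 < 1 / q := by positivity
  have f9 : 4 / q = 4 * (1 / q) := by ring
  have f10 : 2 / q = 2 * (1 / q) := by ring
  have f11 : r1 ≤ 1 / 8 * (1 / q) := by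
    rw [hr1d]
    have h1 : c6 / (8 * q) = 1 / 8 * (c6 / q) := by ring
    rw [h1]
    exact mul_le_mul_of_nonneg_left f6 (by norm_num)
  -- the base point
  obtain ⟨a', ha', hbase⟩ := ev2 s w B hCov hw hB hB2 hN2 a ha
  rw [← hq] at ha' hbase
  -- the Wronskian
  have hWr0 : Wr p B ≠ 0 := by
    intro h0
    have h1 : B.degree ≠ 0 := by
      intro h2
      have h3 : B.natDegree = 0 := natDegree_eq_of_degree_eq_some h2
      have h4 := le_natDegree_of_ne_zero hBd
      omega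
    obtain ⟨z, hz⟩ := IsAlgClosed.exists_root B h1
    exact (hcrit z (by rw [h0, eval_zero])).1 hz
  have hB0 : B ≠ 0 := by
    intro h0
    rw [h0, coeff_zero] at hBd
    exact hBd rfl
  have hWrd : (Wr p B).natDegree ≤ 2 * d := by
    have h1 : (derivative p * B).natDegree ≤ (derivative p).natDegree + B.natDegree :=
      natDegree_mul_le
    have h2 : (p * derivative B).natDegree ≤ p.natDegree + (derivative B).natDegree :=
      natDegree_mul_le
    have h3 : (derivative p).natDegree ≤ p.natDegree - 1 := natDegree_derivative_le p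
    have h4 : (derivative B).natDegree ≤ B.natDegree - 1 := natDegree_derivative_le B
    have h5 : (Wr p B).natDegree ≤ max (derivative p * B).natDegree (p * derivative B).natDegree :=
      natDegree_sub_le _ _
    refine h5.trans (max_le ?_ ?_)
    · omega
    · omega
  obtain ⟨V, hV⟩ : ∃ V : Finset ℂ, V = (Wr p B).roots.toFinset.image
    (fun z => a + p.eval z / B.eval z) := ⟨_, rfl⟩
  have hVc : V.card ≤ 2 * d := by
    rw [hV]
    refine Finset.card_image_le.trans ((Multiset.toFinset_card_le _).trans ?_)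
    exact (card_roots' _).trans hWrd
  have hZc : B.roots.toFinset.card ≤ d :=
    (Multiset.toFinset_card_le _).trans ((card_roots' _).trans hB)
  have hMlt : V.card * B.roots.toFinset.card < M := by
    have h1 := Nat.mul_le_mul hVc hZc
    rw [hM]
    have h2 : 2 * d * d = 2 * d ^ 2 := by ring
    omega
  obtain ⟨j, hjM, hav⟩ := avoid V B.roots.toFinset M hMlt h hh0 (a' - a)
  have hjh : (j : ℝ) * h ≤ r1 := by
    have h1 : (j : ℝ) ≤ 2 * D ^ 2 + 1 := by
      rw [← hMR]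
      exact_mod_cast hjM.le
    calc (j : ℝ) * h ≤ (2 * D ^ 2 + 1) * h := mul_le_mul_of_nonneg_right h1 hh0.le
      _ = r1 := by
          rw [hh]
          field_simp
  have hjh0 : 0 ≤ (j : ℝ) * h := by positivity
  obtain ⟨s0, hs0⟩ : ∃ s0 : ℂ, s0 = a' - a + ((j * h : ℝ) : ℂ) := ⟨_, rfl⟩
  obtain ⟨c, hc⟩ : ∃ c : ℂ, c = a + s0 := ⟨_, rfl⟩
  have hjn : ‖((j * h : ℝ) : ℂ)‖ ≤ r1 := by
    rw [Complex.norm_real, Real.norm_of_nonneg hjh0]
    exact hjh
  have hs0n : ‖s0‖ ≤ 4 / q := by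
    rw [hs0]
    refine (norm_add_le _ _).trans ?_
    linarith
  have hca : ‖c - a'‖ ≤ r1 := by
    have h1 : c - a' = ((j * h : ℝ) : ℂ) := by
      rw [hc, hs0]
      ring
    rw [h1]
    exact hjn
  have hcop' : IsCoprime (C c * B + p) B := by
    obtain ⟨u, v, huv⟩ := hcop
    refine ⟨u, v - u * C c, ?_⟩
    rw [← huv]
    ring
  -- the trap
  have hballZ : ∀ z, ‖z - a'‖ ≤ c6 / q → wm d p z ≤ (1 / D ^ 10) * w z := by
    intro z hz
    have h1 : ‖z - a‖ ≤ 3 * (1 / q) := by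
      have h2 : z - a = (z - a') + (a' - a) := by ring
      rw [h2]
      refine (norm_add_le _ _).trans ?_
      linarith
    have h2 : ‖z‖ ≤ T + 1 := by
      have h3 : z = (z - a) + a := by ring
      rw [h3]
      refine (norm_add_le _ _).trans ?_
      linarith
    have h3 : Metric.ball z μ0 ⊆ Z := by
      intro y hy
      apply hZ
      rw [mem_ball_iff_norm] at hy
      rw [mem_closedBall_iff_norm]
      have h4 : y - a = (y - z) + (z - a) := by ring
      rw [h4]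
      refine (norm_add_le _ _).trans ?_
      linarith
    have h4 := hpsmall z h2 h3
    rw [← hD] at h4
    refine h4.trans (le_of_eq ?_)
    ring
  obtain ⟨t1, t2⟩ := trap_disc d w hw.pos p B κ4 (1 / D ^ 10) (c6 / q) hκ4 (by positivity)
    (by positivity) c a' hbase hballZ
  have hR4 : 2 * r1 ≤ c6 / q / 2 := by
    rw [hr1d]
    have h1 : 2 * (c6 / (8 * q)) = c6 / q / 4 := by
      field_simp
      ring
    rw [h1]
    have h2 : 0 < c6 / q := by positivity
    linarith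
  have hin : ∀ z ∈ Metric.closedBall c r1, ‖z - a'‖ ≤ c6 / q / 2 := by
    intro z hz
    rw [mem_closedBall_iff_norm] at hz
    have h1 : z - a' = (z - c) + (c - a') := by ring
    rw [h1]
    refine (norm_add_le _ _).trans ?_
    linarith
  have hin' : ∀ z ∈ Metric.closedBall c r1, ‖z - a'‖ ≤ c6 / q := by
    intro z hz
    have h1 := hin z hz
    have h2 : 0 < c6 / q := by positivity
    linarith
  have hrat : ∀ z, B.eval z ≠ 0 → rat (C c * B + p) B (z : OnePoint ℂ) =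
      ((c + p.eval z / B.eval z : ℂ) : OnePoint ℂ) := by
    intro z hz
    have h1 := rat_coe_of_ne (P := C c * B + p) hz
    have h2 : (C c * B + p).eval z / B.eval z = c + p.eval z / B.eval z := by
      rw [eval_add, eval_mul, eval_C, add_div, mul_div_cancel_right₀ _ hz]
    rw [h2] at h1
    exact h1
  refine ⟨s0, by rw [← hq]; exact hs0n, ?_, ?_⟩
  · rw [← hc]
    exact hcop'
  rw [← hc]
  refine hyp1_of_trap hcop' (F := fun z => c + p.eval z / B.eval z) (a := c) (r := r1) (q := 1 / 2)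
    hr10 (by norm_num) (by norm_num) ?_ ?_ ?_ ?_
  · intro z hz
    exact hrat z (t1 z (hin' z hz)).1
  · intro z hz
    rw [mem_ball_iff_norm]
    show ‖c + p.eval z / B.eval z - c‖ < r1
    rw [add_sub_cancel_left]
    exact lt_of_le_of_lt (t1 z (hin' z hz)).2 f4
  · intro z hz w' hw'
    refine (t2 z w' (hin z hz) (hin w' hw')).trans ?_
    exact mul_le_mul_of_nonneg_right f5 (norm_nonneg _)
  · intro x hx
    induction x using OnePoint.rec with
    | infty => exact absurd (crit_inf d hd2 c p B hp hB hBd hinf) hx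
    | coe z =>
      have h1 := crit_coe hx
      rw [wr_shift'] at h1
      obtain ⟨g1, g2, g3⟩ := hcrit z h1
      obtain ⟨v, hv⟩ : ∃ v : ℂ, v = a + p.eval z / B.eval z := ⟨_, rfl⟩
      obtain ⟨v', hv'⟩ : ∃ v' : ℂ, v' = v + s0 := ⟨_, rfl⟩
      have hvV : v ∈ V := by
        rw [hV, Finset.mem_image]
        exact ⟨z, by rw [Multiset.mem_toFinset, mem_roots hWr0]; exact h1, hv.symm⟩
      rw [← hv] at g2 g3
      have hz' : c + p.eval z / B.eval z = v' := by
        rw [hv', hv, hc]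
        ring
      have hv'n : ‖v'‖ ≤ T + 1 := by
        rw [hv']
        refine (norm_add_le _ _).trans ?_
        linarith
      have hv'Z : Metric.ball v' μ0 ⊆ Z := by
        intro y hy
        apply g3
        rw [mem_ball_iff_norm] at hy ⊢
        have h4 : y - v = (y - v') + s0 := by rw [hv']; ring
        rw [h4]
        refine lt_of_le_of_lt (norm_add_le _ _) ?_
        linarith
      have hpv := hpsmall v' hv'n hv'Z
      rw [← hD] at hpv
      have hwv := hw.pos v'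
      have hBv : (1 / D ^ 3) * w v' ≤ wm d B v' := by
        by_contra hcon
        push Not at hcon
        obtain ⟨ζ, hζ, hζn⟩ := ev1 s w B hCov hw hB hB2 hN2 (1 / D ^ 3) f1 v' hv'n hcon.le
        rw [← hq] at hζn
        have h4 := hav v hvV ζ (by rw [Multiset.mem_toFinset, mem_roots hB0]; exact hζ)
        have h5 : v + (a' - a) + ((j * h : ℝ) : ℂ) - ζ = v' - ζ := by
          rw [hv', hs0]
          ring
        rw [h5] at h4
        linarith
      have hBv0 : 0 < wm d B v' := lt_of_lt_of_le (by positivity) hBv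
      have hBne : B.eval v' ≠ 0 := by
        intro h0
        unfold wm at hBv0
        rw [h0, norm_zero, zero_div] at hBv0
        exact lt_irrefl _ hBv0
      have hquot : ‖p.eval v' / B.eval v'‖ ≤ r1 := by
        have hS : 0 < √((1 + ‖v'‖ ^ 2) ^ d) := Real.sqrt_pos.2 (by positivity)
        have h3 : ‖p.eval v' / B.eval v'‖ = wm d p v' / wm d B v' := by
          unfold wm
          rw [norm_div, div_div_div_cancel_right₀ hS.ne']
        rw [h3]
        refine le_trans ?_ f3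
        have h4 : wm d p v' / wm d B v' ≤ (w v' / D ^ 10) / ((1 / D ^ 3) * w v') :=
          div_le_div₀ (by positivity) hpv (by positivity) hBv
        refine h4.trans (le_of_eq ?_)
        field_simp
      refine ⟨2, c + p.eval v' / B.eval v', ?_, ?_⟩
      · rw [mem_closedBall_iff_norm, add_sub_cancel_left]
        exact hquot
      · show rat (C c * B + p) B (rat (C c * B + p) B (z : OnePoint ℂ)) = _
        rw [hrat z g1, hz', hrat v' hBne]

end Pool.Agent.H91.LD
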