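import Mathlib

/-!
# [H91 LD COMB] moving all the values into the strips (pure combinatorics)

Items `i : I` with cell `cell i`, at most `m` items in a cell; value `x i + ∑ j, A i j * τ j`; own coefficient in `[χ0/2, 2]`, the sum
of the other coefficients at most `χ0 θ/1000`. Scales `S l = s Λ^(m-1-l)`, `l < m` (`S 0` the largest, `S (m-1) = s`), `Λ ≥ 1000/(χ0 θ)`.
A value `y` is captured at level `l` with margin `μ` if `k S l + μ ≤ y ≤ k S l + θ S l - μ` for some integer `k`.

Claim by induction on `n ≤ m`: there is `τ` with `0 ≤ τ j ≤ ∑_{l < n} 2 S l/χ0` such that in every cell either all items are captured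
or at least `n` items are captured, where an item is captured if it is captured at some level `l < n` with margin
`θ S l/2 - θ S l/500 - ∑_{l < k < n} 5 S k/χ0`.
Step `n → n + 1` (level `l = n < m`): in every cell with an uncaptured item choose such an item `i(j)` and put
`Δ j = δ/A i(j) j`, where `δ ∈ [0, S l)` is chosen such that (value of `i(j)`) `+ δ = k S l + θ S l/2` for an integer `k`; otherwise `Δ j = 0`.
So `0 ≤ Δ j ≤ 2 S l/χ0`. New `τ = τ + Δ`. The item `i(j)`: own contribution exactly `δ`, the others contribute at most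
`(χ0 θ/1000)(2 S l/χ0) = θ S l/500`: captured at level `l`. An item captured before moves by at most
`2 * 2 S l/χ0 + θ S l/500 ≤ 5 S l/χ0`: its margin decreases by that amount.
At the end (`n = m`) all items are captured (at most `m` items in a cell), the margin is at least
`θ S l (1/2 - 1/500) - (5/χ0) S l (1/Λ + 1/Λ^2 + ...) ≥ θ S l (1/2 - 1/500 - 1/100) ≥ θ s/8`, and
`τ j ≤ (2/χ0) S 0 (1 + 1/Λ + ...) ≤ 4 S 0/χ0`.
-/

set_option autoImplicit false

namespace Pool.Agent.H91.LD

private theorem geo_sum (m : ℕ) (Λ s : ℝ) (hΛ : 2 ≤ Λ) (hs : 0 < s) :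
    ∀ d a : ℕ, a + d = m →
      Λ * ∑ k ∈ Finset.Ico a m, s * Λ ^ (m - 1 - k) ≤ 2 * s * Λ ^ d := by
  intro d
  induction d with
  | zero =>
    intro a ha
    have : a = m := by omega
    subst this
    simp
    positivity
  | succ d ih =>
    intro a ha
    have hlt : a < m := by omega
    rw [Finset.sum_eq_sum_Ico_succ_bot hlt]
    have h1 := ih (a + 1) (by omega)
    have h2 : m - 1 - a = d := by omega
    rw [h2, mul_add]
    have h3 : 0 < s * Λ ^ d := by positivity
    have h4 : 2 * s * Λ ^ (d + 1) = Λ * (s * Λ ^ d) + Λ * (s * Λ ^ d) := by ring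
    have h5 : 2 * s * Λ ^ d = 2 * (s * Λ ^ d) := by ring
    rw [h4]
    rw [h5] at h1
    nlinarith

open Classical in
theorem strips_comb (m : ℕ) (hm : 1 ≤ m) (χ0 θ Λ s : ℝ) (hχ0 : 0 < χ0) (hχ1 : χ0 ≤ 1) (hθ : 0 < θ)
    (hθ1 : θ ≤ 1 / 8) (hΛ : 1000 / (χ0 * θ) ≤ Λ) (hs : 0 < s) {I : Type} [Fintype I] {N : ℕ}
    (cell : I → Fin N) (hcell : ∀ j, (Finset.univ.filter (fun i => cell i = j)).card ≤ m)
    (x : I → ℝ) (A : I → Fin N → ℝ) (h1 : ∀ i, χ0 / 2 ≤ A i (cell i) ∧ A i (cell i) ≤ 2)
    (h2 : ∀ i, ∑ j ∈ Finset.univ.erase (cell i), |A i j| ≤ χ0 * θ / 1000) :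
    ∃ τ : Fin N → ℝ, (∀ j, 0 ≤ τ j ∧ τ j ≤ 4 / χ0 * (s * Λ ^ (m - 1))) ∧
      ∀ i, ∃ l < m, ∃ k : ℤ,
        (k : ℝ) * (s * Λ ^ (m - 1 - l)) + θ * s / 8 ≤ x i + ∑ j, A i j * τ j ∧
        x i + ∑ j, A i j * τ j ≤
          k * (s * Λ ^ (m - 1 - l)) + θ * (s * Λ ^ (m - 1 - l)) - θ * s / 8 := by
  have hprod : 0 < χ0 * θ := mul_pos hχ0 hθ
  have hprod1 : χ0 * θ ≤ 1 / 8 := by nlinarith
  have hΛ' : 8000 ≤ Λ := by
    refine le_trans ?_ hΛ
    rw [le_div_iff₀ hprod]
    linarith
  have hΛ0 : 0 < Λ := by linarith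
  have hΛ'' : 1000 ≤ Λ * (χ0 * θ) := by rwa [div_le_iff₀ hprod] at hΛ
  obtain ⟨S, hS⟩ : ∃ S : ℕ → ℝ, S = fun l => s * Λ ^ (m - 1 - l) := ⟨_, rfl⟩
  have hSpos : ∀ l, 0 < S l := by
    intro l
    rw [hS]
    positivity
  have hSs : ∀ l, s ≤ S l := by
    intro l
    rw [hS]
    have : 1 ≤ Λ ^ (m - 1 - l) := one_le_pow₀ (by linarith)
    show s ≤ s * Λ ^ (m - 1 - l)
    nlinarith
  have hgeo : ∀ l, l < m → Λ * ∑ k ∈ Finset.Ico (l + 1) m, S k ≤ 2 * S l := by
    intro l hl
    have h := geo_sum m Λ s (by linarith) hs (m - 1 - l) (l + 1) (by omega)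
    rw [hS]
    calc _ ≤ 2 * s * Λ ^ (m - 1 - l) := h
      _ = _ := by ring
  have hgeo0 : ∑ k ∈ Finset.range m, S k ≤ 2 * S 0 := by
    have h := geo_sum m Λ s (by linarith) hs m 0 (by omega)
    rw [← Finset.range_eq_Ico] at h
    have h3 : 2 * s * Λ ^ m = Λ * (2 * S 0) := by
      rw [hS]
      have : Λ ^ m = Λ ^ (m - 1) * Λ := by
        rw [← pow_succ]
        congr 1
        omega
      rw [this]
      simp only [Nat.sub_zero]
      ring
    rw [h3] at h
    have h4 : Λ * ∑ k ∈ Finset.range m, S k ≤ Λ * (2 * S 0) := by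
      rw [hS] at h ⊢
      exact h
    exact le_of_mul_le_mul_left h4 hΛ0
  obtain ⟨val, hval⟩ : ∃ val : (Fin N → ℝ) → I → ℝ, val = fun τ i => x i + ∑ j, A i j * τ j :=
    ⟨_, rfl⟩
  obtain ⟨μ, hμ⟩ : ∃ μ : ℕ → ℕ → ℝ, μ = fun l n =>
      θ * S l / 2 - θ * S l / 500 - 5 / χ0 * ∑ k ∈ Finset.Ico (l + 1) n, S k := ⟨_, rfl⟩
  obtain ⟨cap, hcap⟩ : ∃ cap : ℕ → (Fin N → ℝ) → I → Prop, cap = fun n τ i =>
      ∃ l < n, ∃ k : ℤ, (k : ℝ) * S l + μ l n ≤ val τ i ∧
        val τ i ≤ k * S l + θ * S l - μ l n := ⟨_, rfl⟩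
  have main : ∀ n, n ≤ m → ∃ τ : Fin N → ℝ,
      (∀ j, 0 ≤ τ j ∧ τ j ≤ 2 / χ0 * ∑ l ∈ Finset.range n, S l) ∧
      ∀ j, (∀ i, cell i = j → cap n τ i) ∨
        n ≤ (Finset.univ.filter (fun i => cell i = j ∧ cap n τ i)).card := by
    intro n
    induction n with
    | zero => intro _; exact ⟨0, by simp, fun j => Or.inr (Nat.zero_le _)⟩
    | succ n ih =>
      intro hn
      obtain ⟨τ, hτ, hc⟩ := ih (by omega)
      have hSn : 0 < S n := hSpos n
      have hch : ∀ j : Fin N, ∃ Δ : ℝ, 0 ≤ Δ ∧ Δ ≤ 2 / χ0 * S n ∧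
          ((∃ i, cell i = j ∧ ¬ cap n τ i) → ∃ i, cell i = j ∧ ¬ cap n τ i ∧
            ∃ k : ℤ, val τ i + A i j * Δ = k * S n + θ * S n / 2) := by
        intro j
        by_cases h : ∃ i, cell i = j ∧ ¬ cap n τ i
        · obtain ⟨i, hi, hci⟩ := h
          have hA := h1 i
          rw [hi] at hA
          have hA0 : 0 < A i j := by linarith
          have hk1 := Int.le_ceil ((val τ i - θ * S n / 2) / S n)
          have hk2 := Int.ceil_lt_add_one ((val τ i - θ * S n / 2) / S n)
          rw [div_le_iff₀ hSn] at hk1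
          have hk3 : ((⌈(val τ i - θ * S n / 2) / S n⌉ : ℤ) : ℝ) * S n <
              (val τ i - θ * S n / 2) + S n := by
            calc _ < ((val τ i - θ * S n / 2) / S n + 1) * S n :=
                  mul_lt_mul_of_pos_right hk2 hSn
              _ = _ := by field_simp
          refine ⟨(⌈(val τ i - θ * S n / 2) / S n⌉ * S n + θ * S n / 2 - val τ i) / A i j, ?_, ?_,
            fun _ => ⟨i, hi, hci, ⌈(val τ i - θ * S n / 2) / S n⌉, ?_⟩⟩
          · apply div_nonneg _ hA0.le
            linarith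
          · rw [div_le_iff₀ hA0]
            have h3 : 2 / χ0 * S n * (χ0 / 2) = S n := by field_simp
            have h4 : 2 / χ0 * S n * (χ0 / 2) ≤ 2 / χ0 * S n * A i j :=
              mul_le_mul_of_nonneg_left hA.1 (by positivity)
            linarith
          · field_simp
            ring
        · exact ⟨0, le_refl _, by positivity, fun h' => absurd h' h⟩
      choose Δ hΔ0 hΔ1 hΔ2 using hch
      have herr : ∀ i, |∑ j ∈ Finset.univ.erase (cell i), A i j * Δ j| ≤ θ * S n / 500 := by
        intro i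
        calc |∑ j ∈ Finset.univ.erase (cell i), A i j * Δ j|
            ≤ ∑ j ∈ Finset.univ.erase (cell i), |A i j * Δ j| := Finset.abs_sum_le_sum_abs _ _
          _ ≤ ∑ j ∈ Finset.univ.erase (cell i), |A i j| * (2 / χ0 * S n) := by
              apply Finset.sum_le_sum
              intro j _
              rw [abs_mul, abs_of_nonneg (hΔ0 j)]
              exact mul_le_mul_of_nonneg_left (hΔ1 j) (abs_nonneg _)
          _ = (∑ j ∈ Finset.univ.erase (cell i), |A i j|) * (2 / χ0 * S n) := by
              rw [Finset.sum_mul]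
          _ ≤ (χ0 * θ / 1000) * (2 / χ0 * S n) :=
              mul_le_mul_of_nonneg_right (h2 i) (by positivity)
          _ = θ * S n / 500 := by field_simp; norm_num
      have hnew : ∀ i, val (fun j => τ j + Δ j) i = val τ i + A i (cell i) * Δ (cell i) +
          ∑ j ∈ Finset.univ.erase (cell i), A i j * Δ j := by
        intro i
        have h3 : ∑ j, A i j * Δ j = A i (cell i) * Δ (cell i) +
            ∑ j ∈ Finset.univ.erase (cell i), A i j * Δ j :=
          (Finset.add_sum_erase Finset.univ (fun j => A i j * Δ j) (Finset.mem_univ _)).symm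
        rw [hval]
        show x i + ∑ j, A i j * (τ j + Δ j) = x i + ∑ j, A i j * τ j + _ + _
        simp only [mul_add, Finset.sum_add_distrib]
        rw [h3]
        ring
      have hmove : ∀ i, |val (fun j => τ j + Δ j) i - val τ i| ≤ 5 / χ0 * S n := by
        intro i
        rw [hnew i]
        have h3 : 0 ≤ A i (cell i) * Δ (cell i) :=
          mul_nonneg (by linarith [(h1 i).1]) (hΔ0 _)
        have h4 : A i (cell i) * Δ (cell i) ≤ 2 * (2 / χ0 * S n) :=
          mul_le_mul (h1 i).2 (hΔ1 _) (hΔ0 _) (by norm_num)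
        have h5 := abs_le.1 (herr i)
        have h6 : θ * S n / 500 ≤ 1 / χ0 * S n := by
          have h7 : 1 ≤ 1 / χ0 := by rw [le_div_iff₀ hχ0]; linarith
          have h8 : 1 * S n ≤ 1 / χ0 * S n := mul_le_mul_of_nonneg_right h7 hSn.le
          nlinarith
        have h7 : 5 / χ0 * S n = 2 * (2 / χ0 * S n) + 1 / χ0 * S n := by ring
        rw [abs_le, h7]
        constructor <;> nlinarith [h5.1, h5.2, h3, h4, h6]
      have hkeep : ∀ i, cap n τ i → cap (n + 1) (fun j => τ j + Δ j) i := by
        intro i hi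
        rw [hcap] at hi ⊢
        obtain ⟨l, hl, k, h3, h4⟩ := hi
        have h5 : μ l (n + 1) = μ l n - 5 / χ0 * S n := by
          rw [hμ]
          show θ * S l / 2 - θ * S l / 500 - 5 / χ0 * ∑ k ∈ Finset.Ico (l + 1) (n + 1), S k =
            θ * S l / 2 - θ * S l / 500 - 5 / χ0 * ∑ k ∈ Finset.Ico (l + 1) n, S k - 5 / χ0 * S n
          rw [Finset.sum_Ico_succ_top (by omega)]
          ring
        have h6 := abs_le.1 (hmove i)
        refine ⟨l, by omega, k, ?_, ?_⟩
        · rw [h5]; linarith [h6.1]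
        · rw [h5]; linarith [h6.2]
      refine ⟨fun j => τ j + Δ j, ?_, ?_⟩
      · intro j
        refine ⟨add_nonneg (hτ j).1 (hΔ0 j), ?_⟩
        rw [Finset.sum_range_succ, mul_add]
        exact add_le_add (hτ j).2 (hΔ1 j)
      · intro j
        by_cases h : ∃ i, cell i = j ∧ ¬ cap n τ i
        · right
          obtain ⟨i, hi, hci, k, hk⟩ := hΔ2 j h
          have hn' : n ≤ (Finset.univ.filter (fun i => cell i = j ∧ cap n τ i)).card := by
            rcases hc j with h' | h'
            · obtain ⟨i', hi', hci'⟩ := h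
              exact absurd (h' i' hi') hci'
            · exact h'
          have hcapi : cap (n + 1) (fun j => τ j + Δ j) i := by
            rw [hcap]
            have h5 : μ n (n + 1) = θ * S n / 2 - θ * S n / 500 := by
              rw [hμ]
              simp
            have h6 := abs_le.1 (herr i)
            refine ⟨n, by omega, k, ?_, ?_⟩
            · rw [h5, hnew i, hi, hk]
              rw [hi] at h6
              linarith [h6.1]
            · rw [h5, hnew i, hi, hk]
              rw [hi] at h6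
              linarith [h6.2]
          have hins : insert i (Finset.univ.filter (fun i => cell i = j ∧ cap n τ i)) ⊆
              Finset.univ.filter (fun i => cell i = j ∧ cap (n + 1) (fun j => τ j + Δ j) i) := by
            intro i' hi'
            rw [Finset.mem_insert] at hi'
            rcases hi' with rfl | hi'
            · simp only [Finset.mem_filter, Finset.mem_univ, true_and]
              exact ⟨hi, hcapi⟩
            · simp only [Finset.mem_filter, Finset.mem_univ, true_and] at hi' ⊢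
              exact ⟨hi'.1, hkeep i' hi'.2⟩
          have hcard := Finset.card_le_card hins
          rw [Finset.card_insert_of_notMem (by simp [hi, hci])] at hcard
          omega
        · left
          intro i hi
          apply hkeep
          by_contra hci
          exact h ⟨i, hi, hci⟩
  obtain ⟨τ, hτ, hc⟩ := main m le_rfl
  refine ⟨τ, ?_, ?_⟩
  · intro j
    refine ⟨(hτ j).1, (hτ j).2.trans ?_⟩
    calc 2 / χ0 * ∑ l ∈ Finset.range m, S l ≤ 2 / χ0 * (2 * S 0) :=
          mul_le_mul_of_nonneg_left hgeo0 (by positivity)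
      _ = 4 / χ0 * (s * Λ ^ (m - 1)) := by
          rw [hS]
          simp only [Nat.sub_zero]
          ring
  · intro i
    have hci : cap m τ i := by
      rcases hc (cell i) with h | h
      · exact h i rfl
      · have hsub : Finset.univ.filter (fun i' => cell i' = cell i ∧ cap m τ i') ⊆
            Finset.univ.filter (fun i' => cell i' = cell i) := by
          intro i' hi'
          simp only [Finset.mem_filter, Finset.mem_univ, true_and] at hi' ⊢
          exact hi'.1
        have heq := Finset.eq_of_subset_of_card_le hsub ((hcell (cell i)).trans h)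
        have hmem : i ∈ Finset.univ.filter (fun i' => cell i' = cell i) := by simp
        rw [← heq] at hmem
        simp only [Finset.mem_filter, Finset.mem_univ, true_and] at hmem
        exact hmem
    rw [hcap] at hci
    obtain ⟨l, hl, k, h3, h4⟩ := hci
    have hμl : θ * s / 8 ≤ μ l m := by
      rw [hμ]
      show θ * s / 8 ≤ θ * S l / 2 - θ * S l / 500 - 5 / χ0 * ∑ k ∈ Finset.Ico (l + 1) m, S k
      have h5 := hgeo l hl
      have h6 : 5 / χ0 * ∑ k ∈ Finset.Ico (l + 1) m, S k ≤ θ * S l / 100 := by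
        rw [div_mul_eq_mul_div, div_le_iff₀ hχ0]
        have h7 : Λ * (χ0 * θ) * ∑ k ∈ Finset.Ico (l + 1) m, S k ≤ χ0 * θ * (2 * S l) := by
          calc _ = χ0 * θ * (Λ * ∑ k ∈ Finset.Ico (l + 1) m, S k) := by ring
            _ ≤ _ := mul_le_mul_of_nonneg_left h5 hprod.le
        have h8 : 0 ≤ ∑ k ∈ Finset.Ico (l + 1) m, S k :=
          Finset.sum_nonneg (fun k _ => (hSpos k).le)
        have h9 : 1000 * ∑ k ∈ Finset.Ico (l + 1) m, S k ≤
            Λ * (χ0 * θ) * ∑ k ∈ Finset.Ico (l + 1) m, S k :=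
          mul_le_mul_of_nonneg_right hΛ'' h8
        nlinarith
      have h7 := hSs l
      have h8 : θ * s ≤ θ * S l := mul_le_mul_of_nonneg_left h7 hθ.le
      linarith [hSpos l, mul_pos hθ (hSpos l)]
    refine ⟨l, hl, k, ?_, ?_⟩
    · rw [hS] at h3
      rw [hval] at h3
      have h3' : (k : ℝ) * (s * Λ ^ (m - 1 - l)) + μ l m ≤ x i + ∑ j, A i j * τ j := h3
      linarith
    · rw [hS] at h4
      rw [hval] at h4
      have h4' : x i + ∑ j, A i j * τ j ≤
          (k : ℝ) * (s * Λ ^ (m - 1 - l)) + θ * (s * Λ ^ (m - 1 - l)) - μ l m := h4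
      linarith

end Pool.Agent.H91.LD
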