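import Pool.Agent.H91.LD.SDefs

/-!
# [H91 LD CONSTS] choice of the constants, and limits in `d`

* `choose_L`: `R = L * K` with `K = max 1 (C3/ν)`, `m = ⌈64 (R+1)^2 m1⌉₊ + 1`, `θ = min (1/8) (ν/(20 m))`. All conditions hold for large `L`: the
  exponential beats the polynomial `1/θ = O(L^2)`. (E.g. `m ≤ K' L^2` for `L ≥ 1`, `θ ≥ 1/(K'' L^2)`, and
  `L^2 exp(-(χ0 L - 4)^2/8) → 0`.)
* `lim_d`: finitely many statements `∀ᶠ d`: `sm d = d^(-1/4) → 0`; `exp(-c √d) d^10 → 0`; etc.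
-/

set_option autoImplicit false

open Filter

namespace Pool.Agent.H91.LD

theorem choose_L (χ0 η κ3 C3 ν r ρ : ℝ) (m1 : ℕ) (hχ0 : 0 < χ0) (hη : 0 < η) (hκ3 : 0 < κ3)
    (hC3 : 0 < C3) (hν : 0 < ν) (hr : 0 < r) (hρ : 0 < ρ) :
    ∃ (L R θ : ℝ) (m : ℕ), 1 ≤ L ∧ L ≤ R ∧ 0 < θ ∧ θ ≤ 1 / 8 ∧ 1 ≤ m ∧ C3 * (L / R) ≤ ν ∧
      20 * m * θ ≤ ν ∧ 5 * 10 ^ 7 / L ≤ η ∧ 5 * 10 ^ 7 / L / κ3 ≤ χ0 / 2 ∧ 4 ≤ χ0 * L ∧
      2 * 10 ^ 7 * Real.exp (-((χ0 * L - 4) ^ 2 / 8)) / κ3 ≤ χ0 * θ / 1000 ∧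
      64 * (R + 1) ^ 2 * m1 ≤ m ∧ 5 * 10 ^ 7 / L ≤ 10 ^ 5 ∧ 5 * 10 ^ 7 / L / r ^ 8 ≤ ρ / 16 := by
  obtain ⟨K, hK⟩ : ∃ K : ℝ, K = max 1 (C3 / ν) := ⟨_, rfl⟩
  have hK1 : 1 ≤ K := by rw [hK]; exact le_max_left _ _
  have hK2 : C3 / ν ≤ K := by rw [hK]; exact le_max_right _ _
  obtain ⟨M0, hM0⟩ : ∃ M0 : ℝ, M0 = 64 * (K + 1) ^ 2 * m1 + 2 := ⟨_, rfl⟩
  have hM0p : 0 < M0 := by rw [hM0]; positivity
  obtain ⟨c, hc⟩ : ∃ c : ℝ, c = min (1 / 8) (ν / (20 * M0)) := ⟨_, rfl⟩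
  have hc0 : 0 < c := by rw [hc]; exact lt_min (by norm_num) (by positivity)
  obtain ⟨ε, hε⟩ : ∃ ε : ℝ, ε = min (min η (κ3 * (χ0 / 2))) (min (10 ^ 5) (r ^ 8 * (ρ / 16))) :=
    ⟨_, rfl⟩
  have hε0 : 0 < ε := by
    rw [hε]
    exact lt_min (lt_min hη (by positivity)) (lt_min (by norm_num) (by positivity))
  have t1 : Tendsto (fun L : ℝ => 5 * 10 ^ 7 / L) atTop (nhds 0) :=
    tendsto_const_nhds.div_atTop tendsto_id
  have t2 := Real.tendsto_pow_mul_exp_neg_atTop_nhds_zero 2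
  have hc'' : 0 < χ0 * c * κ3 / (1000 * (2 * 10 ^ 7)) := by positivity
  obtain ⟨L, hL1, hLε, hLx, hL8, hL32⟩ := ((eventually_ge_atTop (1 : ℝ)).and
    ((t1.eventually_le_const hε0).and ((t2.eventually_le_const hc'').and
      ((eventually_ge_atTop (8 / χ0)).and (eventually_ge_atTop (32 / χ0 ^ 2)))))).exists
  have hL0 : 0 < L := by linarith
  have hχL : 8 ≤ χ0 * L := by
    rw [div_le_iff₀ hχ0] at hL8
    linarith
  obtain ⟨R, hR⟩ : ∃ R : ℝ, R = L * K := ⟨_, rfl⟩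
  have hR0 : 0 < R := by rw [hR]; positivity
  obtain ⟨m, hm⟩ : ∃ m : ℕ, m = ⌈64 * (R + 1) ^ 2 * m1⌉₊ + 1 := ⟨_, rfl⟩
  have hm0 : (0 : ℝ) < m := by rw [hm]; positivity
  have hmle : (m : ℝ) ≤ M0 * L ^ 2 := by
    have h1 : (⌈64 * (R + 1) ^ 2 * m1⌉₊ : ℝ) < 64 * (R + 1) ^ 2 * m1 + 1 :=
      Nat.ceil_lt_add_one (by positivity)
    have h2 : R + 1 ≤ L * (K + 1) := by rw [hR, mul_add, mul_one]; linarith
    have h3 : (R + 1) ^ 2 ≤ (L * (K + 1)) ^ 2 := pow_le_pow_left₀ (by positivity) h2 2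
    have h4 : 64 * (R + 1) ^ 2 * m1 ≤ 64 * (L * (K + 1)) ^ 2 * m1 := by
      have : (0 : ℝ) ≤ m1 := Nat.cast_nonneg m1
      exact mul_le_mul_of_nonneg_right (mul_le_mul_of_nonneg_left h3 (by norm_num)) this
    have h5 : (1 : ℝ) ≤ L ^ 2 := one_le_pow₀ hL1
    have h6 : 64 * (L * (K + 1)) ^ 2 * (m1 : ℝ) + 2 * L ^ 2 =
        (64 * (K + 1) ^ 2 * m1 + 2) * L ^ 2 := by ring
    rw [hm, hM0]
    push_cast
    linarith
  obtain ⟨θ, hθ⟩ : ∃ θ : ℝ, θ = min (1 / 8) (ν / (20 * m)) := ⟨_, rfl⟩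
  have hθ0 : 0 < θ := by rw [hθ]; exact lt_min (by norm_num) (by positivity)
  have hθc : c / L ^ 2 ≤ θ := by
    rw [hθ]
    have hL2 : (1 : ℝ) ≤ L ^ 2 := one_le_pow₀ hL1
    apply le_min
    · have : c ≤ 1 / 8 := by rw [hc]; exact min_le_left _ _
      exact (div_le_self hc0.le hL2).trans this
    · have h1 : c ≤ ν / (20 * M0) := by rw [hc]; exact min_le_right _ _
      calc c / L ^ 2 ≤ ν / (20 * M0) / L ^ 2 := by gcongr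
        _ = ν / (20 * (M0 * L ^ 2)) := by rw [div_div]; ring_nf
        _ ≤ ν / (20 * m) := by gcongr
  have hεs : 5 * 10 ^ 7 / L ≤ η ∧ 5 * 10 ^ 7 / L ≤ κ3 * (χ0 / 2) ∧ 5 * 10 ^ 7 / L ≤ 10 ^ 5 ∧
      5 * 10 ^ 7 / L ≤ r ^ 8 * (ρ / 16) := by
    rw [hε] at hLε
    simp only [le_min_iff] at hLε
    exact ⟨hLε.1.1, hLε.1.2, hLε.2.1, hLε.2.2⟩
  refine ⟨L, R, θ, m, hL1, ?_, hθ0, ?_, ?_, ?_, ?_, hεs.1, ?_, by linarith, ?_, ?_, hεs.2.2.1, ?_⟩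
  · rw [hR]; exact le_mul_of_one_le_right hL0.le hK1
  · rw [hθ]; exact min_le_left _ _
  · rw [hm]; omega
  · have h1 : L / R = 1 / K := by
      rw [hR]
      field_simp
    rw [h1, mul_one_div, div_le_iff₀ (by linarith)]
    rw [div_le_iff₀ hν] at hK2
    linarith
  · have h1 : θ ≤ ν / (20 * m) := by rw [hθ]; exact min_le_right _ _
    calc 20 * m * θ ≤ 20 * m * (ν / (20 * m)) := by gcongr
      _ = ν := by field_simp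
  · rw [div_le_iff₀ hκ3]
    linarith [hεs.2.1]
  · have h1 : L ≤ (χ0 * L - 4) ^ 2 / 8 := by
      have h2 : χ0 * L / 2 ≤ χ0 * L - 4 := by linarith
      have h3 : (χ0 * L / 2) ^ 2 ≤ (χ0 * L - 4) ^ 2 := pow_le_pow_left₀ (by positivity) h2 2
      have h4 : 32 ≤ χ0 ^ 2 * L := by
        rw [div_le_iff₀ (by positivity)] at hL32
        linarith
      have h5 : 32 * L ≤ χ0 ^ 2 * L * L := mul_le_mul_of_nonneg_right h4 hL0.le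
      have h6 : (χ0 * L / 2) ^ 2 = χ0 ^ 2 * L * L / 4 := by ring
      rw [h6] at h3
      linarith
    have h2 : Real.exp (-((χ0 * L - 4) ^ 2 / 8)) ≤ Real.exp (-L) := Real.exp_le_exp.2 (by linarith)
    have h3 : Real.exp (-L) ≤ χ0 * c * κ3 / (1000 * (2 * 10 ^ 7)) / L ^ 2 := by
      rw [le_div_iff₀ (by positivity)]
      linarith
    have h4 : χ0 * c / L ^ 2 ≤ χ0 * θ := by
      rw [mul_div_assoc]
      exact mul_le_mul_of_nonneg_left hθc hχ0.le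
    rw [div_le_iff₀ hκ3]
    calc 2 * 10 ^ 7 * Real.exp (-((χ0 * L - 4) ^ 2 / 8))
        ≤ 2 * 10 ^ 7 * (χ0 * c * κ3 / (1000 * (2 * 10 ^ 7)) / L ^ 2) := by
          apply mul_le_mul_of_nonneg_left (h2.trans h3) (by norm_num)
      _ = χ0 * c / L ^ 2 * (κ3 / 1000) := by field_simp
      _ ≤ χ0 * θ * (κ3 / 1000) := mul_le_mul_of_nonneg_right h4 (by positivity)
      _ = χ0 * θ / 1000 * κ3 := by ring
  · rw [hm]
    push_cast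
    have := Nat.le_ceil (64 * (R + 1) ^ 2 * (m1 : ℝ))
    linarith
  · rw [div_le_iff₀ (by positivity)]
    linarith [hεs.2.2.2]

end Pool.Agent.H91.LD
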