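import Pool.Agent.H91.LD.Crit0
import Pool.Agent.H91.LD.Comb

/-!
# [H91 LD CRIT] critical values of the modified map

`M = 10^6` bounds the charts of `A`, `B` (`EB` with `4 * 10^5`) and of `Pj chiT A` (`4 * 10^5 + 10^5`, by `lc_zero`, `k6`); take `EB.mono`.

`kst` collects the constants: `r` from the noise, `χ0`, the constants `η κ3 C1` of `loc_two M χ0 r` and `η' m1` of `loc_three M χ0 r`
(as hypotheses), `L R θ Λ m`.

* `type_one`: chart `b` with `chiT b ≤ χ0`. `sn (pT)` is `EB` with `5*10^7/L + χ0 M + 2*10^7 S + 2*10^5 δ` (`lc_zero`, `lc_S`,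
  `sn_EB` for `t` (`wm t ≤ δ w`) and `EB` of `A`: `2*10^5*2 = M`); `loc_one`.

* `crit_strips`: fixed `d` large (explicit smallness hypotheses instead of eventually). Let `P0 = Pj chiT A`. In a chart `b ∈ s` with
  `χ0 ≤ chiT b`, put `A^ = sn A` etc. (`ω = w b`): `EB A^ M`, `EB B^ M`, `EB (P0^ - chiT b A^) (5*10^7/L)`; `EB P0^ (5*10^5)`.
  Items: `I` = pairs `(b, u)`, `b ∈ s`, `χ0 ≤ chiT b`, `‖u‖ ≤ 1`, `wr P0^ B^ u = 0`, `κ3 ≤ ‖B^ u‖`: a finite type (`loc_three`: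
  at most `m1` for each `b`). Cell `c b`; the `b ∈ s` with `c b = j` have mutual distance `√d sg ≤ R`, at most `64 (R+1)^2` of them
  (`H85/LD/Net`, `net_card`), so at most `m` items in a cell. `x (b,u) = Re (P0^ u/B^ u) + x0`,
  `A (b,u) j = Re (sn (Pj (chi j) B) u/B^ u)`: own coefficient within `5*10^7/(L κ3) ≤ χ0/2` of `chiT b ∈ [χ0,1]` (`lc_own`),
  the others `≤ 2*10^7 exp(-(χ0 L-4)^2/8)/κ3 ≤ χ0 θ/1000` (`lc_far`). `strips_comb` gives `τ`.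
  For `t` and a zero `u` (`‖u‖ ≤ 1/2`) of `wr (sn pT) B^`: `D^ = sn (pS + t)` is `EB` with `η2 = 2*10^7 S + 2*10^5 δ` (`lc_S`, `sn_EB`);
  `loc_two` gives the item `(b, u1)`, and `sn pT u/B^ u = (P0^ + D^)(u1)/B^ u1 + O(C1 η2^2)`, whose real part is the value of the item
  (`sn_add`, `sn_sum`, `sn_C_mul`) `+ O(2*10^5 δ/κ3 + C1 η2^2)`, and this error is `≤ θ s/16` by hypothesis.
  Finally `‖sn pT u/B^ u‖ ≤ (5*10^5 + 10^5)/κ3`.
-/

set_option autoImplicit false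

open Polynomial MeasureTheory ComplexConjugate

namespace Pool.Agent.H91.LD

open Pool.Agent.H85.LD

variable {N : ℕ}

theorem crit_strips (r χ0 η κ3 C1 L R θ Λ : ℝ) (m m1 : ℕ) (hr : 0 < r) (hr1 : r ≤ 1)
    (hχ0 : 0 < χ0) (hχ1 : χ0 ≤ 1) (hK : Kst (10 ^ 6) χ0 r η κ3 C1 m1) (hL : 1 ≤ L) (hR : 0 ≤ R)
    (hθ : 0 < θ) (hθ1 : θ ≤ 1 / 8) (hΛ : 1000 / (χ0 * θ) ≤ Λ) (hm : 1 ≤ m)
    (k1 : 5 * 10 ^ 7 / L ≤ η) (k2 : 5 * 10 ^ 7 / L / κ3 ≤ χ0 / 2) (k3 : 4 ≤ χ0 * L)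
    (k4 : 2 * 10 ^ 7 * Real.exp (-((χ0 * L - 4) ^ 2 / 8)) / κ3 ≤ χ0 * θ / 1000)
    (k5 : 64 * (R + 1) ^ 2 * m1 ≤ m) (k6 : 5 * 10 ^ 7 / L ≤ 10 ^ 5)
    (d : ℕ) (hd : 1 ≤ d) (δ : ℝ) (hδ : 0 ≤ δ)
    (k7 : 2 * 10 ^ 7 * (4 / χ0 * (sm d * Λ ^ (m - 1))) + 2 * 10 ^ 5 * δ ≤ η)
    (k9 : 2 * 10 ^ 7 * (4 / χ0 * (sm d * Λ ^ (m - 1))) + 2 * 10 ^ 5 * δ ≤ 10 ^ 5)
    (k8 : C1 * (2 * 10 ^ 7 * (4 / χ0 * (sm d * Λ ^ (m - 1))) + 2 * 10 ^ 5 * δ) ^ 2 +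
      2 * 10 ^ 5 * δ / κ3 ≤ θ * sm d / 16)
    (s : Finset ℂ) (hs : Sep d s) (w : ℂ → ℝ) (hw : Wgt d w) (A B : ℂ[X]) (hA : A.natDegree ≤ d)
    (hA2 : ∀ z, wm d A z ≤ 2 * w z) (hB : B.natDegree ≤ d) (hB2 : ∀ z, wm d B z ≤ 2 * w z)
    (hn : ∀ b ∈ s, NDf r (sn d b (w b) A) (sn d b (w b) B)) (c : ℂ → Fin N) (Z : Set ℂ)
    (hcR : ∀ z x, c z = c x → √d * sg z x ≤ R) (x0 : ℝ) :
    ∃ τ : Fin N → ℝ, (∀ j, |τ j| ≤ 4 / χ0 * (sm d * Λ ^ (m - 1))) ∧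
      ∀ t : ℂ[X], t.natDegree ≤ d → (∀ z, wm d t z ≤ δ * w z) → ∀ b ∈ s, χ0 ≤ chiT d L c Z b →
        ∀ u : ℂ, ‖u‖ ≤ 1 / 2 →
        wr (sn d b (w b) (pT d L c Z A B τ t)) (sn d b (w b) B) u = 0 →
        κ3 ≤ ‖sn d b (w b) B u‖ ∧
        ‖sn d b (w b) (pT d L c Z A B τ t) u / sn d b (w b) B u‖ ≤ 3 * 10 ^ 6 / κ3 ∧
        ∃ l < m, ∃ k : ℤ, (k : ℝ) * (sm d * Λ ^ (m - 1 - l)) + θ * sm d / 16 ≤
            (sn d b (w b) (pT d L c Z A B τ t) u / sn d b (w b) B u).re + x0 ∧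
          (sn d b (w b) (pT d L c Z A B τ t) u / sn d b (w b) B u).re + x0 ≤
            k * (sm d * Λ ^ (m - 1 - l)) + θ * (sm d * Λ ^ (m - 1 - l)) - θ * sm d / 16 := by
  classical
  have hL0 : 0 < L := by linarith
  have hκ0 := hK.κ30
  obtain ⟨P0, hP0⟩ : ∃ P0 : ℂ[X], P0 = Pj d (chiT d L c Z) A := ⟨_, rfl⟩
  have hsm : 0 < sm d := by
    unfold sm
    have h1 : (0 : ℝ) < d := by exact_mod_cast (by omega : 0 < d)
    have h2 : 0 < √(√d) := Real.sqrt_pos.2 (Real.sqrt_pos.2 h1)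
    positivity
  have hΛ0 : 0 < Λ := lt_of_lt_of_le (by positivity) hΛ
  -- bounds in the charts
  have hAb : ∀ b, EB (sn d b (w b) A) (2 * 10 ^ 5 * 2) := fun b =>
    sn_EB d hd w hw b A hA 2 (by norm_num) (fun z _ => hA2 z)
  have hBb : ∀ b, EB (sn d b (w b) B) (2 * 10 ^ 5 * 2) := fun b =>
    sn_EB d hd w hw b B hB 2 (by norm_num) (fun z _ => hB2 z)
  have hPA : ∀ b, EB (fun u => sn d b (w b) P0 u -
      ((chiT d L c Z b : ℝ) : ℂ) * sn d b (w b) A u) (5 * 10 ^ 7 / L) := by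
    intro b
    rw [hP0]
    exact lc_zero d hd L hL c Z w hw A hA hA2 b
  have hPb : ∀ b, EB (sn d b (w b) P0) (5 * 10 ^ 5) := by
    intro b
    have hn1 : ‖((chiT d L c Z b : ℝ) : ℂ)‖ ≤ 1 := by
      rw [Complex.norm_real, Real.norm_of_nonneg (chiT_nonneg d L hL0 c Z b)]
      exact chiT_le_one d L hL0 c Z b
    have h1 := (hPA b).add ((hAb b).const_mul ((chiT d L c Z b : ℝ) : ℂ))
    have h2 : (fun u => sn d b (w b) P0 u - ((chiT d L c Z b : ℝ) : ℂ) * sn d b (w b) A u +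
        ((chiT d L c Z b : ℝ) : ℂ) * sn d b (w b) A u) = sn d b (w b) P0 := by
      funext v
      ring
    rw [h2] at h1
    refine h1.mono ?_
    have h3 := mul_le_mul_of_nonneg_right hn1 (by norm_num : (0 : ℝ) ≤ 2 * 10 ^ 5 * 2)
    linarith
  have h6A : ∀ b, EB (sn d b (w b) A) (10 ^ 6) := fun b => (hAb b).mono (by norm_num)
  have h6B : ∀ b, EB (sn d b (w b) B) (10 ^ 6) := fun b => (hBb b).mono (by norm_num)
  have h6P : ∀ b, EB (sn d b (w b) P0) (10 ^ 6) := fun b => (hPb b).mono (by norm_num)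
  have hth : ∀ b ∈ s, χ0 ≤ chiT d L c Z b →
      {u : ℂ | ‖u‖ ≤ 1 ∧ wr (sn d b (w b) P0) (sn d b (w b) B) u = 0}.Finite ∧
      {u : ℂ | ‖u‖ ≤ 1 ∧ wr (sn d b (w b) P0) (sn d b (w b) B) u = 0}.ncard ≤ m1 := by
    intro b hbs hb
    exact hK.three _ _ _ (chiT d L c Z b) hb (chiT_le_one d L hL0 c Z b) (h6A b) (h6B b) (h6P b)
      ((hPA b).mono k1) (hn b hbs)
  -- the items
  obtain ⟨Ts, hTs⟩ : ∃ Ts : Set (ℂ × ℂ), Ts = {q : ℂ × ℂ | q.1 ∈ s ∧ χ0 ≤ chiT d L c Z q.1 ∧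
      ‖q.2‖ ≤ 1 ∧ wr (sn d q.1 (w q.1) P0) (sn d q.1 (w q.1) B) q.2 = 0 ∧
      κ3 ≤ ‖sn d q.1 (w q.1) B q.2‖} := ⟨_, rfl⟩
  have hTfin : Ts.Finite := by
    have h1 : Ts ⊆ ⋃ b ∈ {b ∈ (s : Set ℂ) | χ0 ≤ chiT d L c Z b}, (fun u : ℂ => (b, u)) ''
        {u : ℂ | ‖u‖ ≤ 1 ∧ wr (sn d b (w b) P0) (sn d b (w b) B) u = 0} := by
      rintro ⟨b, u⟩ hq
      rw [hTs] at hq
      obtain ⟨q1, q2, q3, q4, q5⟩ := hq
      rw [Set.mem_iUnion₂]
      exact ⟨b, ⟨q1, q2⟩, u, ⟨q3, q4⟩, rfl⟩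
    refine Set.Finite.subset ?_ h1
    refine Set.Finite.biUnion (s.finite_toSet.subset (fun b hb => hb.1)) ?_
    intro b hb
    exact (hth b hb.1 hb.2).1.image _
  obtain ⟨T, hT⟩ : ∃ T : Finset (ℂ × ℂ), T = hTfin.toFinset := ⟨_, rfl⟩
  have hTm : ∀ q, q ∈ T ↔ (q.1 ∈ s ∧ χ0 ≤ chiT d L c Z q.1 ∧
      ‖q.2‖ ≤ 1 ∧ wr (sn d q.1 (w q.1) P0) (sn d q.1 (w q.1) B) q.2 = 0 ∧
      κ3 ≤ ‖sn d q.1 (w q.1) B q.2‖) := by
    intro q
    rw [hT, Set.Finite.mem_toFinset, hTs]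
    rfl
  -- number of items in a cell
  have hcell : ∀ j : Fin N, ((Finset.univ : Finset {q // q ∈ T}).filter
      (fun i => c i.1.1 = j)).card ≤ m := by
    intro j
    obtain ⟨U, hU⟩ : ∃ U : Finset {q // q ∈ T}, U = (Finset.univ : Finset {q // q ∈ T}).filter
      (fun i => c i.1.1 = j) := ⟨_, rfl⟩
    rw [← hU]
    have hUm : ∀ i, i ∈ U ↔ c i.1.1 = j := by
      intro i
      rw [hU, Finset.mem_filter]
      exact ⟨fun h => h.2, fun h => ⟨Finset.mem_univ _, h⟩⟩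
    rcases U.eq_empty_or_nonempty with hemp | ⟨i0, hi0⟩
    · rw [hemp, Finset.card_empty]
      exact Nat.zero_le m
    have h1 : U.card ≤ m1 * (U.image (fun i => i.1.1)).card := by
      apply Finset.card_le_mul_card_image
      intro b hb
      obtain ⟨i1, hi1, hi1b⟩ := Finset.mem_image.1 hb
      have hi1T := (hTm i1.1).1 i1.2
      have hbs : b ∈ s := by rw [← hi1b]; exact hi1T.1
      have hbχ : χ0 ≤ chiT d L c Z b := by rw [← hi1b]; exact hi1T.2.1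
      obtain ⟨hf, hnc⟩ := hth b hbs hbχ
      rw [Set.ncard_eq_toFinset_card _ hf] at hnc
      refine le_trans ?_ hnc
      apply Finset.card_le_card_of_injOn (fun i => i.1.2)
      · intro i hi
        rw [Finset.mem_coe, Finset.mem_filter] at hi
        have hiT := (hTm i.1).1 i.2
        rw [hi.2] at hiT
        rw [Finset.mem_coe, Set.Finite.mem_toFinset]
        exact ⟨hiT.2.2.1, hiT.2.2.2.1⟩
      · intro i hi i' hi' h
        rw [Finset.mem_coe, Finset.mem_filter] at hi hi'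
        apply Subtype.ext
        apply Prod.ext
        · rw [hi.2, hi'.2]
        · exact h
    have h2 : U.image (fun i => i.1.1) ⊆ s.filter (fun b => √d * sg i0.1.1 b ≤ R) := by
      intro b hb
      obtain ⟨i1, hi1, hi1b⟩ := Finset.mem_image.1 hb
      have hi1T := (hTm i1.1).1 i1.2
      rw [Finset.mem_filter, ← hi1b]
      refine ⟨hi1T.1, hcR _ _ ?_⟩
      rw [(hUm i0).1 hi0, (hUm i1).1 hi1]
    have h3 := net_card d hd s hs i0.1.1 R hR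
    have h4 : ((U.image (fun i => i.1.1)).card : ℝ) ≤ 64 * (R + 1) ^ 2 :=
      le_trans (by exact_mod_cast Finset.card_le_card h2) h3
    have h5 : (U.card : ℝ) ≤ m := by
      calc (U.card : ℝ) ≤ m1 * ((U.image (fun i => i.1.1)).card : ℝ) := by exact_mod_cast h1
        _ ≤ m1 * (64 * (R + 1) ^ 2) := mul_le_mul_of_nonneg_left h4 (Nat.cast_nonneg _)
        _ = 64 * (R + 1) ^ 2 * m1 := by ring
        _ ≤ m := k5
    exact_mod_cast h5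
  -- the coefficients
  obtain ⟨x, hx⟩ : ∃ x : {q // q ∈ T} → ℝ, ∀ i, x i =
      (sn d i.1.1 (w i.1.1) P0 i.1.2 / sn d i.1.1 (w i.1.1) B i.1.2).re + x0 := ⟨_, fun _ => rfl⟩
  obtain ⟨Ac, hAc⟩ : ∃ Ac : {q // q ∈ T} → Fin N → ℝ, ∀ i j, Ac i j =
      (sn d i.1.1 (w i.1.1) (Pj d (chi d L c Z j) B) i.1.2 / sn d i.1.1 (w i.1.1) B i.1.2).re :=
    ⟨_, fun _ _ => rfl⟩
  have g1 : ∀ i : {q // q ∈ T}, χ0 / 2 ≤ Ac i (c i.1.1) ∧ Ac i (c i.1.1) ≤ 2 := by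
    intro i
    obtain ⟨q1, q2, q3, q4, q5⟩ := (hTm i.1).1 i.2
    have h1 := (lc_own d hd L hL c Z w hw B hB hB2 i.1.1).2 i.1.2 (by linarith)
    have hB0 : sn d i.1.1 (w i.1.1) B i.1.2 ≠ 0 := by
      intro h
      rw [h, norm_zero] at q5
      linarith
    have h2 : sn d i.1.1 (w i.1.1) (Pj d (chi d L c Z (c i.1.1)) B) i.1.2 /
        sn d i.1.1 (w i.1.1) B i.1.2 - ((chiT d L c Z i.1.1 : ℝ) : ℂ) =
        (sn d i.1.1 (w i.1.1) (Pj d (chi d L c Z (c i.1.1)) B) i.1.2 -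
          ((chiT d L c Z i.1.1 : ℝ) : ℂ) * sn d i.1.1 (w i.1.1) B i.1.2) /
          sn d i.1.1 (w i.1.1) B i.1.2 := by
      rw [sub_div, mul_div_cancel_right₀ _ hB0]
    have h3 : ‖sn d i.1.1 (w i.1.1) (Pj d (chi d L c Z (c i.1.1)) B) i.1.2 /
        sn d i.1.1 (w i.1.1) B i.1.2 - ((chiT d L c Z i.1.1 : ℝ) : ℂ)‖ ≤ χ0 / 2 := by
      rw [h2, norm_div]
      refine le_trans ?_ k2
      exact div_le_div₀ (by positivity) h1 hκ0 q5
    have h4 := (Complex.abs_re_le_norm _).trans h3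
    rw [Complex.sub_re, Complex.ofReal_re, ← hAc i (c i.1.1)] at h4
    obtain ⟨h5, h6⟩ := abs_le.1 h4
    have h7 := chiT_le_one d L hL0 c Z i.1.1
    constructor <;> linarith
  have g2 : ∀ i : {q // q ∈ T}, ∑ j ∈ Finset.univ.erase (c i.1.1), |Ac i j| ≤ χ0 * θ / 1000 := by
    intro i
    obtain ⟨q1, q2, q3, q4, q5⟩ := (hTm i.1).1 i.2
    have h1 := lc_far d hd L hL c Z w hw B hB hB2 χ0 hχ0 k3 i.1.1 q2 i.1.2 (by linarith)
    refine le_trans ?_ k4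
    calc ∑ j ∈ Finset.univ.erase (c i.1.1), |Ac i j| ≤ ∑ j ∈ Finset.univ.erase (c i.1.1),
          ‖sn d i.1.1 (w i.1.1) (Pj d (chi d L c Z j) B) i.1.2‖ / κ3 := by
          refine Finset.sum_le_sum (fun j _ => ?_)
          rw [hAc]
          refine (Complex.abs_re_le_norm _).trans ?_
          rw [norm_div]
          exact div_le_div_of_nonneg_left (norm_nonneg _) hκ0 q5
      _ = (∑ j ∈ Finset.univ.erase (c i.1.1),
          ‖sn d i.1.1 (w i.1.1) (Pj d (chi d L c Z j) B) i.1.2‖) / κ3 := by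
          rw [Finset.sum_div]
      _ ≤ _ := div_le_div_of_nonneg_right h1 hκ0.le
  obtain ⟨τ, hτ, hcap⟩ := strips_comb m hm χ0 θ Λ (sm d) hχ0 hχ1 hθ hθ1 hΛ hsm
    (fun i : {q // q ∈ T} => c i.1.1) hcell x Ac g1 g2
  obtain ⟨S0, hS0⟩ : ∃ S0 : ℝ, S0 = 4 / χ0 * (sm d * Λ ^ (m - 1)) := ⟨_, rfl⟩
  rw [← hS0] at k7 k8 k9 hτ ⊢
  have hS00 : 0 ≤ S0 := by rw [hS0]; positivity
  have hτa : ∀ j, |τ j| ≤ S0 := fun j => by
    rw [abs_of_nonneg (hτ j).1]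
    exact (hτ j).2
  refine ⟨τ, hτa, ?_⟩
  intro t ht htw b hbs hbχ u hu hwr
  obtain ⟨η2, hη2⟩ : ∃ η2 : ℝ, η2 = 2 * 10 ^ 7 * S0 + 2 * 10 ^ 5 * δ := ⟨_, rfl⟩
  rw [← hη2] at k7 k8 k9
  have hD : EB (sn d b (w b) (pS d L c Z B τ + t)) η2 := by
    have h1 := (lc_S d hd L hL c Z w hw B hB hB2 τ S0 hS00 hτa b).add
      (sn_EB d hd w hw b t ht δ hδ (fun z _ => htw z))
    have h2 : (fun u => sn d b (w b) (pS d L c Z B τ) u + sn d b (w b) t u) =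
        sn d b (w b) (pS d L c Z B τ + t) := by
      funext v
      rw [sn_add]
    rw [h2, ← hη2] at h1
    exact h1
  have hpT : sn d b (w b) (pT d L c Z A B τ t) =
      fun u => sn d b (w b) P0 u + sn d b (w b) (pS d L c Z B τ + t) u := by
    funext v
    unfold pT
    rw [sn_add, hP0]
  rw [hpT] at hwr
  obtain ⟨u1, v1, v2, v3, v4, v5⟩ := hK.two _ _ _ _ (chiT d L c Z b) hbχ
    (chiT_le_one d L hL0 c Z b) (h6A b) (h6B b) (h6P b) ((hPA b).mono k1) (hn b hbs) η2 k7 hD u hu hwr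
  have hu4 : ‖u‖ ≤ 4 := by linarith
  have hu14 : ‖u1‖ ≤ 4 := by linarith
  refine ⟨v3, ?_, ?_⟩
  · rw [hpT, norm_div]
    have h1 : ‖sn d b (w b) P0 u + sn d b (w b) (pS d L c Z B τ + t) u‖ ≤ 3 * 10 ^ 6 := by
      have h2 := (hPb b).2 u hu4
      have h3 := hD.2 u hu4
      refine (norm_add_le _ _).trans ?_
      linarith
    exact div_le_div₀ (by positivity) h1 hκ0 v3
  · have hbT : (b, u1) ∈ T := (hTm (b, u1)).2 ⟨hbs, hbχ, v1, v2, v4⟩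
    obtain ⟨l, hl, k, hk1, hk2⟩ := hcap ⟨(b, u1), hbT⟩
    refine ⟨l, hl, k, ?_⟩
    obtain ⟨y, hy⟩ : ∃ y : ℝ, y = x ⟨(b, u1), hbT⟩ + ∑ j, Ac ⟨(b, u1), hbT⟩ j * τ j := ⟨_, rfl⟩
    rw [← hy] at hk1 hk2
    have hB0 : sn d b (w b) B u1 ≠ 0 := by
      intro h
      rw [h, norm_zero] at v4
      linarith
    -- the value of the item
    have hval : ((sn d b (w b) P0 u1 + sn d b (w b) (pS d L c Z B τ + t) u1) /
        sn d b (w b) B u1).re + x0 = y + (sn d b (w b) t u1 / sn d b (w b) B u1).re := by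
      have h1 : (sn d b (w b) P0 u1 + sn d b (w b) (pS d L c Z B τ + t) u1) /
          sn d b (w b) B u1 = sn d b (w b) P0 u1 / sn d b (w b) B u1 +
          ∑ j, ((τ j : ℝ) : ℂ) * (sn d b (w b) (Pj d (chi d L c Z j) B) u1 / sn d b (w b) B u1) +
          sn d b (w b) t u1 / sn d b (w b) B u1 := by
        rw [sn_add]
        unfold pS
        rw [sn_sum]
        simp only [sn_C_mul]
        rw [add_div, add_div, Finset.sum_div, add_assoc]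
        congr 2
        refine Finset.sum_congr rfl (fun j _ => ?_)
        rw [mul_div_assoc]
      rw [h1, Complex.add_re, Complex.add_re, Complex.re_sum, hy, hx]
      have h2 : ∀ j, (((τ j : ℝ) : ℂ) *
          (sn d b (w b) (Pj d (chi d L c Z j) B) u1 / sn d b (w b) B u1)).re =
          Ac ⟨(b, u1), hbT⟩ j * τ j := by
        intro j
        rw [Complex.re_ofReal_mul, hAc]
        ring
      simp only [h2]
      ring
    have herr1 : |(sn d b (w b) t u1 / sn d b (w b) B u1).re| ≤ 2 * 10 ^ 5 * δ / κ3 := by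
      refine (Complex.abs_re_le_norm _).trans ?_
      rw [norm_div]
      exact div_le_div₀ (by positivity)
        ((sn_EB d hd w hw b t ht δ hδ (fun z _ => htw z)).2 u1 hu14) hκ0 v4
    have herr2 : |((sn d b (w b) P0 u + sn d b (w b) (pS d L c Z B τ + t) u) /
        sn d b (w b) B u).re - ((sn d b (w b) P0 u1 + sn d b (w b) (pS d L c Z B τ + t) u1) /
        sn d b (w b) B u1).re| ≤ C1 * η2 ^ 2 := by
      rw [← Complex.sub_re]
      exact (Complex.abs_re_le_norm _).trans v5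
    rw [hpT]
    obtain ⟨e1, e2⟩ := abs_le.1 herr1
    obtain ⟨e3, e4⟩ := abs_le.1 herr2
    constructor <;> linarith

end Pool.Agent.H91.LD
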