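import Pool.Agent.H91.LD.EBasic

/-!
# [H91 LD ELOC] local analysis at a critical point (entire functions in one chart)

All functions are normalised. `A`, `B` are the unperturbed pair, `P` is close to `χ A`, `D` is small.

* `loc_one`: if `‖g u‖ ≥ r^8` clear. Otherwise `‖g' u‖ ≥ r^4`. If `g u = 0` then `wr = 0` gives `f u * g' u = 0`, `f u = 0`,
  contradiction. So `f u/g u = f' u/g' u`, and `‖f' u‖ ≤ e` (`EB.d1`), `r^8 ≤ r^4` (`r ≤ 1`).

* `loc_two`. Put `F = P + D`, `l = χ0 r^4/2`. Everything below for `η` small depending on `M, χ0, r`.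
  `F - χ A` is `EB` with `2 η`; `wr F B = 0` at `u` gives `χ ‖wr A B u‖ = ‖wr (F - χ A) B u‖ ≤ 4 η M`, so `‖wr A B u‖ < r^8`
  and (n3) `‖wr1 A B u‖ ≥ r^4`; `‖wr1 P B u‖ ≥ χ r^4 - 2 η M ≥ l`, `‖wr P B u‖ = ‖wr D B u‖ ≤ 2 η2 M`. `newton` for `wr P B`
  (derivative `wr1 P B`, Lipschitz constant `4 M^2` by `wr_lip`) gives `u1` with `wr P B u1 = 0`,
  `‖u1 - u‖ ≤ 4 M η2/l`; `‖u‖ ≤ 1/2` so `‖u1‖ ≤ 1`.
  Lower bound for `B u`: if `‖B u‖ ≥ r/2` or `‖B u‖ ≥ r^8` fine; otherwise `‖A u‖ ≥ r/2` (n1), `‖F u‖ ≥ χ0 r/2 - 2 η ≥ χ0 r/4`,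
  `‖B' u‖ ≥ r^4` (n2), and `F' B = F B'` with `‖F' u‖ ≤ 2 M` gives `‖B u‖ ≥ χ0 r^5/(8 M)`. Put
  `κ3 = min (r^8) (min (r/2) (χ0 r^5/(8M))) / 2`; `‖B u1‖ ≥ ‖B u‖ - M ‖u1-u‖ ≥ κ3`.
  Taylor: with `h = u1 - u`: `F u1 B u - F u B u1 = h (F' u B u - F u B' u) + O(M^2 ‖h‖^2)` (`EB.tay`; the bracket is `wr F B u = 0`),
  precisely `≤ 4 M^2 ‖h‖^2`; divide by `‖B u‖ ‖B u1‖ ≥ κ3^2`. So `C1 = 4 M^2 (4 M/l)^2/κ3^2`.

* `loc_three`: at two zeros `u ≠ v` of `h = wr P B` in the unit disc: `‖wr A B u‖ ≤ 2 η M/χ0 < r^8`, so `‖wr1 P B u‖ ≥ l`, and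
  `wr_tay` gives `l ‖v-u‖ ≤ 4 M^2 ‖v-u‖^2`: the distance is at least `δ = l/(4M^2)`. The map
  `u ↦ (⌊2 re u/δ⌋, ⌊2 im u/δ⌋)` is injective on the zeros, with values in a box with `≤ (4/δ + 3)^2` elements.
-/

set_option autoImplicit false

open Polynomial MeasureTheory ComplexConjugate

namespace Pool.Agent.H91.LD

open Pool.Agent.H85.LD

private theorem wr_lin {P A B : ℂ → ℂ} (hP : Differentiable ℂ P) (hA : Differentiable ℂ A)
    (c : ℂ) (u : ℂ) :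
    wr (fun u => P u - c * A u) B u = wr P B u - c * wr A B u ∧
    wr1 (fun u => P u - c * A u) B u = wr1 P B u - c * wr1 A B u := by
  have hP' : Differentiable ℂ (deriv P) :=
    differentiableOn_univ.1 (hP.differentiableOn.deriv isOpen_univ)
  have hA' : Differentiable ℂ (deriv A) :=
    differentiableOn_univ.1 (hA.differentiableOn.deriv isOpen_univ)
  have h1 : deriv (fun u => P u - c * A u) = fun u => deriv P u - c * deriv A u := by
    funext x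
    exact ((hP x).hasDerivAt.sub ((hA x).hasDerivAt.const_mul c)).deriv
  have h2 : deriv (fun u => deriv P u - c * deriv A u) =
      fun u => deriv (deriv P) u - c * deriv (deriv A) u := by
    funext x
    exact ((hP' x).hasDerivAt.sub ((hA' x).hasDerivAt.const_mul c)).deriv
  constructor
  · unfold wr
    rw [h1]
    ring
  · unfold wr1
    rw [h1, h2]
    ring

theorem loc_one {f g : ℂ → ℂ} {e r : ℝ} (hr : 0 < r) (hr1 : r ≤ 1) (hf : EB f e)
    (hg : Differentiable ℂ g) (u : ℂ) (hu : ‖u‖ ≤ 1) (hn : ‖g u‖ < r ^ 8 → r ^ 4 ≤ ‖deriv g u‖)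
    (hw : wr f g u = 0) (h0 : f u ≠ 0 ∨ g u ≠ 0) : g u ≠ 0 ∧ ‖f u / g u‖ ≤ e / r ^ 8 := by
  have he := hf.nonneg
  unfold wr at hw
  have hr8 : 0 < r ^ 8 := pow_pos hr 8
  have hr4 : 0 < r ^ 4 := pow_pos hr 4
  by_cases hg8 : ‖g u‖ < r ^ 8
  · have h1 := hn hg8
    have hg' : deriv g u ≠ 0 := by
      intro h2
      rw [h2, norm_zero] at h1
      linarith
    have hgu : g u ≠ 0 := by
      intro h2
      rw [h2, mul_zero, zero_sub, neg_eq_zero] at hw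
      rcases mul_eq_zero.1 hw with h3 | h3
      · rcases h0 with h4 | h4
        · exact h4 h3
        · exact h4 h2
      · exact hg' h3
    refine ⟨hgu, ?_⟩
    have h2 : f u / g u = deriv f u / deriv g u := by
      rw [div_eq_div_iff hgu hg']
      linear_combination -hw
    rw [h2, norm_div]
    have h3 : r ^ 8 ≤ ‖deriv g u‖ := (pow_le_pow_of_le_one hr.le hr1 (by norm_num)).trans h1
    exact div_le_div₀ he (hf.d1 u (by linarith)) hr8 h3
  · push Not at hg8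
    have hgu : g u ≠ 0 := by
      intro h2
      rw [h2, norm_zero] at hg8
      linarith
    refine ⟨hgu, ?_⟩
    rw [norm_div]
    exact div_le_div₀ he (hf.2 u (by linarith)) hr8 hg8

theorem loc_three (M χ0 r : ℝ) (hM : 1 ≤ M) (hχ0 : 0 < χ0) (hχ1 : χ0 ≤ 1) (hr : 0 < r)
    (hr1 : r ≤ 1) : ∃ (η : ℝ) (m1 : ℕ), 0 < η ∧ 1 ≤ m1 ∧ ∀ (A B P : ℂ → ℂ) (χ : ℝ), χ0 ≤ χ → χ ≤ 1 →
      EB A M → EB B M → EB P M → EB (fun u => P u - (χ : ℂ) * A u) η → NDf r A B →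
      {u : ℂ | ‖u‖ ≤ 1 ∧ wr P B u = 0}.Finite ∧ {u : ℂ | ‖u‖ ≤ 1 ∧ wr P B u = 0}.ncard ≤ m1 := by
  set l : ℝ := χ0 * r ^ 4 / 2 with hl
  have hM0 : 0 < M := by linarith
  have hr4 : 0 < r ^ 4 := pow_pos hr 4
  have hr8 : 0 < r ^ 8 := pow_pos hr 8
  have hr84 : r ^ 8 ≤ r ^ 4 := pow_le_pow_of_le_one hr.le hr1 (by norm_num)
  have hl0 : 0 < l := by positivity
  set δ : ℝ := l / (4 * M * M) with hδ
  have hδ0 : 0 < δ := by positivity
  set n : ℤ := ⌈2 / δ⌉ with hn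
  refine ⟨χ0 * r ^ 8 / (4 * M), (Finset.Icc (-n) n ×ˢ Finset.Icc (-n) n).card + 1, by positivity,
    by omega, ?_⟩
  intro A B P χ hχ hχ' hA hB hP hPA hND
  set S : Set ℂ := {u : ℂ | ‖u‖ ≤ 1 ∧ wr P B u = 0} with hS
  have hlow : ∀ u ∈ S, l ≤ ‖wr1 P B u‖ := by
    rintro u ⟨hu, hw⟩
    have h1 := wr_bound hPA hB u (by linarith)
    obtain ⟨h2, h3⟩ := wr_lin (B := B) hP.1 hA.1 (χ : ℂ) u
    rw [h2, h3] at h1
    obtain ⟨h4, h5⟩ := h1
    rw [hw, zero_sub, norm_neg, norm_mul, Complex.norm_real, Real.norm_of_nonneg (by linarith)]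
      at h4
    have h6 : 2 * (χ0 * r ^ 8 / (4 * M)) * M = χ0 * r ^ 8 / 2 := by
      field_simp
      ring
    rw [h6] at h4 h5
    have h7 : ‖wr A B u‖ < r ^ 8 := by
      have h8 : χ0 * ‖wr A B u‖ ≤ χ0 * (r ^ 8 / 2) := by
        have := mul_le_mul_of_nonneg_right hχ (norm_nonneg (wr A B u))
        linarith
      have h9 := le_of_mul_le_mul_left h8 hχ0
      linarith
    have h8 := hND.n3 u hu h7
    have h9 : ‖(χ : ℂ) * wr1 A B u‖ ≤ ‖wr1 P B u‖ + ‖wr1 P B u - (χ : ℂ) * wr1 A B u‖ := by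
      have := norm_sub_le (wr1 P B u) (wr1 P B u - (χ : ℂ) * wr1 A B u)
      rwa [sub_sub_cancel] at this
    rw [norm_mul, Complex.norm_real, Real.norm_of_nonneg (by linarith)] at h9
    have h10 : χ0 * r ^ 4 ≤ χ * ‖wr1 A B u‖ :=
      mul_le_mul hχ h8 hr4.le (by linarith)
    have h11 : χ0 * r ^ 8 ≤ χ0 * r ^ 4 := mul_le_mul_of_nonneg_left hr84 hχ0.le
    rw [hl]
    linarith
  have hsep : ∀ u ∈ S, ∀ v ∈ S, u ≠ v → δ ≤ ‖v - u‖ := by
    intro u hu v hv huv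
    have h1 := wr_tay hP hB u v hu.1 hv.1
    rw [hu.2, hv.2, sub_zero, zero_sub, norm_neg, norm_mul] at h1
    have h2 : 0 < ‖v - u‖ := norm_pos_iff.2 (sub_ne_zero.2 (Ne.symm huv))
    have h3 : l * ‖v - u‖ ≤ (4 * M * M * ‖v - u‖) * ‖v - u‖ := by
      have h4 := mul_le_mul_of_nonneg_right (hlow u hu) h2.le
      calc l * ‖v - u‖ ≤ ‖wr1 P B u‖ * ‖v - u‖ := h4
        _ ≤ 4 * M * M * ‖v - u‖ ^ 2 := h1
        _ = (4 * M * M * ‖v - u‖) * ‖v - u‖ := by ring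
    have h5 := le_of_mul_le_mul_right h3 h2
    rw [hδ, div_le_iff₀ (by positivity)]
    linarith
  let G : ℂ → ℤ × ℤ := fun u => (⌊2 * u.re / δ⌋, ⌊2 * u.im / δ⌋)
  have hinj : Set.InjOn G S := by
    intro u hu v hv huv
    by_contra hne
    have h1 := hsep u hu v hv hne
    have h2 : ⌊2 * u.re / δ⌋ = ⌊2 * v.re / δ⌋ := congrArg Prod.fst huv
    have h3 : ⌊2 * u.im / δ⌋ = ⌊2 * v.im / δ⌋ := congrArg Prod.snd huv
    have key : ∀ a c : ℝ, ⌊2 * a / δ⌋ = ⌊2 * c / δ⌋ → |c - a| < δ / 2 := by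
      intro a c h
      have h4 := Int.abs_sub_lt_one_of_floor_eq_floor h
      have h5 : 2 * a / δ - 2 * c / δ = 2 / δ * (a - c) := by ring
      rw [h5, abs_mul, abs_of_pos (by positivity), abs_sub_comm] at h4
      have h6 : 2 / δ * |c - a| * (δ / 2) = |c - a| := by
        field_simp
      have h7 := mul_lt_mul_of_pos_right h4 (half_pos hδ0)
      rw [h6, one_mul] at h7
      exact h7
    have h4 := key _ _ h2
    have h5 := key _ _ h3
    have h6 := Complex.norm_le_abs_re_add_abs_im (v - u)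
    rw [Complex.sub_re, Complex.sub_im] at h6
    linarith
  have hbox : ∀ u ∈ S, G u ∈ ((Finset.Icc (-n) n ×ˢ Finset.Icc (-n) n : Finset (ℤ × ℤ)) :
      Set (ℤ × ℤ)) := by
    intro u hu
    have key : ∀ a : ℝ, |a| ≤ 1 → ⌊2 * a / δ⌋ ∈ Finset.Icc (-n) n := by
      intro a ha
      rw [abs_le] at ha
      have h1 : 2 / δ ≤ (n : ℝ) := Int.le_ceil _
      rw [Finset.mem_Icc]
      constructor
      · rw [Int.le_floor]
        push_cast
        have h2 : -(2 / δ) ≤ 2 * a / δ := by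
          rw [← neg_div]
          exact div_le_div_of_nonneg_right (by linarith) hδ0.le
        linarith
      · have h2 : 2 * a / δ ≤ 2 / δ := div_le_div_of_nonneg_right (by linarith) hδ0.le
        have h3 : ((⌊2 * a / δ⌋ : ℤ) : ℝ) ≤ n := (Int.floor_le _).trans (h2.trans h1)
        exact_mod_cast h3
    have hu1 : ‖u‖ ≤ 1 := hu.1
    rw [Finset.mem_coe, Finset.mem_product]
    exact ⟨key _ ((Complex.abs_re_le_norm u).trans hu1),
      key _ ((Complex.abs_im_le_norm u).trans hu1)⟩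
  refine ⟨Set.Finite.of_injOn hbox hinj (Finset.finite_toSet _), ?_⟩
  have h1 := Set.ncard_le_ncard_of_injOn G hbox hinj (Finset.finite_toSet _)
  rw [Set.ncard_coe_finset] at h1
  omega

end Pool.Agent.H91.LD
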