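import Pool.Agent.H91.LD.EBasic

/-!
# [H91 LD ELOC2] local analysis at a critical point (`loc_two`; entire functions in one chart)

All functions are normalised. `A`, `B` are the unperturbed pair, `P` is close to `χ A`, `D` is small.

* `loc_one`: if `‖g u‖ ≥ r^8` clear. Otherwise `‖g' u‖ ≥ r^4`. If `g u = 0` then `wr = 0` gives `f u * g' u = 0`, `f u = 0`,
  contradiction. So `f u/g u = f' u/g' u`, and `‖f' u‖ ≤ e` (`EB.d1`), `r^8 ≤ r^4` (`r ≤ 1`).

* `loc_two`. Put `F = P + D`, `l = χ0 r^4/2`. Everything below for `η` small depending on `M, χ0, r`.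
  `F - χ A` is `EB` with `2 η`; `wr F B = 0` at `u` gives `χ ‖wr A B u‖ = ‖wr (F - χ A) B u‖ ≤ 4 η M`, so `‖wr A B u‖ < r^8`
  and (n3) `‖wr1 A B u‖ ≥ r^4`; `‖wr1 P B u‖ ≥ χ r^4 - 2 η M ≥ l`, `‖wr P B u‖ = ‖wr D B u‖ ≤ 2 η2 M`. `newton` for `wr P B`
  (derivative `wr1 P B`, Lipschitz constant `4 M^2` by `wr_lip`) gives `u1` with `wr P B u1 = 0`,
  `‖u1 - u‖ ≤ 4 M η2/l`; `‖u‖ ≤ 1/2` so `‖u1‖ ≤ 1`.
  Lower bound for `B u`: if `‖B u‖ ≥ r/2` or `‖B u‖ ≥ r^8` fine; otherwise `‖A u‖ ≥ r/2` (n1), `‖F u‖ ≥ χ0 r/2 - 2 η ≥ χ0 r/4`,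
  `‖B' u‖ ≥ r^4` (n2), and `F' B = F B'` with `‖F' u‖ ≤ 2 M` gives `‖B u‖ ≥ χ0 r^5/(8 M)`. Put
  `κ3 = min (r^8) (min (r/2) (χ0 r^5/(8M))) / 2`; `‖B u1‖ ≥ ‖B u‖ - M ‖u1-u‖ ≥ κ3`.
  Taylor: with `h = u1 - u`: `F u1 B u - F u B u1 = h (F' u B u - F u B' u) + O(M^2 ‖h‖^2)` (`EB.tay`; the bracket is `wr F B u = 0`),
  precisely `≤ 4 M^2 ‖h‖^2`; divide by `‖B u‖ ‖B u1‖ ≥ κ3^2`. So `C1 = 4 M^2 (4 M/l)^2/κ3^2`.

* `loc_three`: at two zeros `u ≠ v` of `h = wr P B` in the unit disc: `‖wr A B u‖ ≤ 2 η M/χ0 < r^8`, so `‖wr1 P B u‖ ≥ l`, and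
  `wr_tay` gives `l ‖v-u‖ ≤ 4 M^2 ‖v-u‖^2`: the distance is at least `δ = l/(4M^2)`. The map
  `u ↦ (⌊2 re u/δ⌋, ⌊2 im u/δ⌋)` is injective on the zeros, with values in a box with `≤ (4/δ + 3)^2` elements.
-/

set_option autoImplicit false

open Polynomial MeasureTheory ComplexConjugate

namespace Pool.Agent.H91.LD

open Pool.Agent.H85.LD

private theorem wr_lin2 {P A B : ℂ → ℂ} (hP : Differentiable ℂ P) (hA : Differentiable ℂ A)
    (c : ℂ) (u : ℂ) :
    wr (fun u => P u - c * A u) B u = wr P B u - c * wr A B u ∧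
    wr1 (fun u => P u - c * A u) B u = wr1 P B u - c * wr1 A B u := by
  have hP' : Differentiable ℂ (deriv P) :=
    differentiableOn_univ.1 (hP.differentiableOn.deriv isOpen_univ)
  have hA' : Differentiable ℂ (deriv A) :=
    differentiableOn_univ.1 (hA.differentiableOn.deriv isOpen_univ)
  have h1 : deriv (fun u => P u - c * A u) = fun u => deriv P u - c * deriv A u := by
    funext x
    exact ((hP x).hasDerivAt.sub ((hA x).hasDerivAt.const_mul c)).deriv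
  have h2 : deriv (fun u => deriv P u - c * deriv A u) =
      fun u => deriv (deriv P) u - c * deriv (deriv A) u := by
    funext x
    exact ((hP' x).hasDerivAt.sub ((hA' x).hasDerivAt.const_mul c)).deriv
  constructor
  · unfold wr
    rw [h1]
    ring
  · unfold wr1
    rw [h1, h2]
    ring

private theorem wr_add2 {P D B : ℂ → ℂ} (hP : Differentiable ℂ P) (hD : Differentiable ℂ D)
    (u : ℂ) :
    deriv (fun u => P u + D u) u = deriv P u + deriv D u ∧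
    wr (fun u => P u + D u) B u = wr P B u + wr D B u := by
  have h1 : deriv (fun u => P u + D u) u = deriv P u + deriv D u :=
    ((hP u).hasDerivAt.add (hD u).hasDerivAt).deriv
  refine ⟨h1, ?_⟩
  unfold wr
  rw [h1]
  ring

theorem loc_two (M χ0 r : ℝ) (hM : 1 ≤ M) (hχ0 : 0 < χ0) (hχ1 : χ0 ≤ 1) (hr : 0 < r) (hr1 : r ≤ 1) :
    ∃ η κ3 C1 : ℝ, 0 < η ∧ 0 < κ3 ∧ 0 < C1 ∧ ∀ (A B P D : ℂ → ℂ) (χ : ℝ), χ0 ≤ χ → χ ≤ 1 →
      EB A M → EB B M → EB P M → EB (fun u => P u - (χ : ℂ) * A u) η → NDf r A B →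
      ∀ η2 : ℝ, η2 ≤ η → EB D η2 → ∀ u : ℂ, ‖u‖ ≤ 1 / 2 →
      wr (fun u => P u + D u) B u = 0 →
      ∃ u1 : ℂ, ‖u1‖ ≤ 1 ∧ wr P B u1 = 0 ∧ κ3 ≤ ‖B u‖ ∧ κ3 ≤ ‖B u1‖ ∧
        ‖(P u + D u) / B u - (P u1 + D u1) / B u1‖ ≤ C1 * η2 ^ 2 := by
  set l : ℝ := χ0 * r ^ 4 / 2 with hl
  have hM0 : 0 < M := by linarith
  have hr4 : 0 < r ^ 4 := pow_pos hr 4
  have hr8 : 0 < r ^ 8 := pow_pos hr 8
  have hr84 : r ^ 8 ≤ r ^ 4 := pow_le_pow_of_le_one hr.le hr1 (by norm_num)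
  have hl0 : 0 < l := by positivity
  set κ' : ℝ := min (r ^ 8) (min (r / 2) (χ0 * r ^ 5 / (8 * M))) with hκ'
  have hκ0 : 0 < κ' := by
    rw [hκ']
    refine lt_min hr8 (lt_min (by positivity) (by positivity))
  have hκ1 : κ' ≤ r ^ 8 := min_le_left _ _
  have hκ2 : κ' ≤ r / 2 := (min_le_right _ _).trans (min_le_left _ _)
  have hκ3 : κ' ≤ χ0 * r ^ 5 / (8 * M) := (min_le_right _ _).trans (min_le_right _ _)
  obtain ⟨η, hη0, hη1, hη2, hη3, hη4, hη5, hη6⟩ : ∃ η : ℝ, 0 < η ∧ η ≤ 1 ∧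
      η ≤ χ0 * r ^ 8 / (8 * M) ∧ η ≤ l ^ 2 / (64 * M ^ 3) ∧ η ≤ l / (8 * M) ∧ η ≤ χ0 * r / 8 ∧
      η ≤ l * κ' / (8 * M ^ 2) := by
    refine ⟨min 1 (min (χ0 * r ^ 8 / (8 * M)) (min (l ^ 2 / (64 * M ^ 3)) (min (l / (8 * M))
      (min (χ0 * r / 8) (l * κ' / (8 * M ^ 2)))))), ?_, ?_, ?_, ?_, ?_, ?_, ?_⟩
    · refine lt_min one_pos (lt_min (by positivity) (lt_min (by positivity) (lt_min (by positivity)
        (lt_min (by positivity) (by positivity)))))
    · exact min_le_left _ _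
    · exact (min_le_right _ _).trans (min_le_left _ _)
    · exact (min_le_right _ _).trans ((min_le_right _ _).trans (min_le_left _ _))
    · exact (min_le_right _ _).trans ((min_le_right _ _).trans ((min_le_right _ _).trans
        (min_le_left _ _)))
    · exact (min_le_right _ _).trans ((min_le_right _ _).trans ((min_le_right _ _).trans
        ((min_le_right _ _).trans (min_le_left _ _))))
    · exact (min_le_right _ _).trans ((min_le_right _ _).trans ((min_le_right _ _).trans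
        ((min_le_right _ _).trans (min_le_right _ _))))
  rw [le_div_iff₀ (by positivity)] at hη2 hη3 hη4 hη6 hκ3
  refine ⟨η, κ' / 2, 4 * M ^ 2 * (4 * M / l) ^ 2 / (κ' / 2) ^ 2, hη0, by positivity, by positivity,
    ?_⟩
  intro A B P D χ hχ hχ' hA hB hP hPA hND η2 hη2' hD u hu hwr
  have hη20 : 0 ≤ η2 := hD.nonneg
  have hχ00 : 0 ≤ χ := by linarith
  obtain ⟨hF1, hF2⟩ := wr_add2 (B := B) hP.1 hD.1 u
  set F : ℂ → ℂ := fun u => P u + D u with hF
  have hEF : EB F (2 * M) := (hP.add hD).mono (by linarith)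
  obtain ⟨hL1, hL2⟩ := wr_lin2 (B := B) hP.1 hA.1 (χ : ℂ) u
  have hb1 := wr_bound hPA hB u (by linarith)
  rw [hL1, hL2] at hb1
  obtain ⟨hb1, hb2⟩ := hb1
  have hb3 := (wr_bound hD hB u (by linarith)).1
  have hwP : wr P B u = - wr D B u := by
    rw [hwr] at hF2
    linear_combination -hF2
  -- wr A B u is small
  have h7 : ‖wr A B u‖ < r ^ 8 := by
    have h8 : ‖(χ : ℂ) * wr A B u‖ ≤ ‖wr P B u‖ + ‖wr P B u - (χ : ℂ) * wr A B u‖ := by
      have := norm_sub_le (wr P B u) (wr P B u - (χ : ℂ) * wr A B u)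
      rwa [sub_sub_cancel] at this
    rw [norm_mul, Complex.norm_real, Real.norm_of_nonneg hχ00, hwP, norm_neg] at h8
    rw [hwP] at hb1
    have h9 : χ0 * ‖wr A B u‖ ≤ χ * ‖wr A B u‖ :=
      mul_le_mul_of_nonneg_right hχ (norm_nonneg _)
    have h10 : η2 * M ≤ η * M := mul_le_mul_of_nonneg_right hη2' hM0.le
    have h11 : χ0 * ‖wr A B u‖ ≤ χ0 * (r ^ 8 / 2) := by linarith
    have h12 := le_of_mul_le_mul_left h11 hχ0
    linarith
  have hlow : l ≤ ‖wr1 P B u‖ := by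
    have h8 := hND.n3 u (by linarith) h7
    have h9 : ‖(χ : ℂ) * wr1 A B u‖ ≤ ‖wr1 P B u‖ + ‖wr1 P B u - (χ : ℂ) * wr1 A B u‖ := by
      have := norm_sub_le (wr1 P B u) (wr1 P B u - (χ : ℂ) * wr1 A B u)
      rwa [sub_sub_cancel] at this
    rw [norm_mul, Complex.norm_real, Real.norm_of_nonneg hχ00] at h9
    have h10 : χ0 * r ^ 4 ≤ χ * ‖wr1 A B u‖ :=
      mul_le_mul hχ h8 hr4.le (by linarith)
    have h11 : χ0 * r ^ 8 ≤ χ0 * r ^ 4 := mul_le_mul_of_nonneg_left hr84 hχ0.le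
    rw [hl]
    linarith
  -- Newton
  have hwd : ∀ x, HasDerivAt (wr P B) (wr1 P B x) x := wr_hasDeriv hP.1 hB.1
  have hdw : deriv (wr P B) = wr1 P B := by
    funext x
    exact (hwd x).deriv
  obtain ⟨u1, hu1, hw1⟩ := newton (wr P B) (fun x => (hwd x).differentiableAt) u (4 * M * M) l
    (2 * η2 * M) (by positivity) hl0 (by positivity) (by
      intro v hv
      rw [hdw]
      refine (wr_lip hP hB u v (by linarith) ?_).2
      have := norm_add_le (v - u) u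
      rw [sub_add_cancel] at this
      linarith) (by rwa [hdw]) (by rwa [hwP, norm_neg]) (by
      have h10 : η2 * (64 * M ^ 3) ≤ η * (64 * M ^ 3) :=
        mul_le_mul_of_nonneg_right hη2' (by positivity)
      calc 8 * (4 * M * M) * (2 * η2 * M) = η2 * (64 * M ^ 3) := by ring
        _ ≤ η * (64 * M ^ 3) := h10
        _ ≤ l ^ 2 := hη3) (by
      rw [div_le_iff₀ hl0]
      have h10 : η2 * (8 * M) ≤ η * (8 * M) := mul_le_mul_of_nonneg_right hη2' (by positivity)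
      linarith)
  have hu1' : ‖u1 - u‖ ≤ 4 * M / l * η2 := by
    refine hu1.trans (le_of_eq ?_)
    ring
  have hhalf : ‖u1 - u‖ ≤ 1 / 2 := by
    refine hu1.trans ?_
    rw [div_le_iff₀ hl0]
    have h10 : η2 * (8 * M) ≤ η * (8 * M) := mul_le_mul_of_nonneg_right hη2' (by positivity)
    linarith
  have hu1n : ‖u1‖ ≤ 1 := by
    have := norm_add_le (u1 - u) u
    rw [sub_add_cancel] at this
    linarith
  -- lower bound for B u
  have hBu : κ' ≤ ‖B u‖ := by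
    by_contra hlt
    push Not at hlt
    have hA1 : r / 2 ≤ ‖A u‖ := by
      have := hND.n1 u (by linarith)
      linarith
    have hB1 : r ^ 4 ≤ ‖deriv B u‖ := hND.n2 u (by linarith) (by linarith)
    have hFu : χ0 * r / 4 ≤ ‖F u‖ := by
      have h1 : ‖(χ : ℂ) * A u‖ ≤ ‖F u‖ + (‖D u‖ + ‖P u - (χ : ℂ) * A u‖) := by
        have h2 : (χ : ℂ) * A u = F u - (D u + (P u - (χ : ℂ) * A u)) := by
          rw [hF]
          ring
        have h3 := norm_sub_le (F u) (D u + (P u - (χ : ℂ) * A u))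
        rw [← h2] at h3
        exact h3.trans (add_le_add le_rfl (norm_add_le _ _))
      rw [norm_mul, Complex.norm_real, Real.norm_of_nonneg hχ00] at h1
      have h2 := hD.2 u (by linarith)
      have h3 := hPA.2 u (by linarith)
      have h4 : χ0 * (r / 2) ≤ χ * ‖A u‖ := mul_le_mul hχ hA1 (by positivity) hχ00
      simp only at h3
      linarith
    have hF'u : ‖deriv F u‖ ≤ 2 * M := hEF.d1 u (by linarith)
    have h5 : deriv F u * B u = F u * deriv B u := by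
      unfold wr at hwr
      linear_combination hwr
    have h6 : ‖deriv F u‖ * ‖B u‖ = ‖F u‖ * ‖deriv B u‖ := by
      rw [← norm_mul, ← norm_mul, h5]
    have h7' : χ0 * r / 4 * r ^ 4 ≤ ‖F u‖ * ‖deriv B u‖ :=
      mul_le_mul hFu hB1 hr4.le (norm_nonneg _)
    have h8 : ‖deriv F u‖ * ‖B u‖ ≤ 2 * M * ‖B u‖ := mul_le_mul_of_nonneg_right hF'u (norm_nonneg _)
    have h9 : ‖B u‖ * (2 * M) < κ' * (2 * M) := mul_lt_mul_of_pos_right hlt (by positivity)
    have h10 : χ0 * r / 4 * r ^ 4 = χ0 * r ^ 5 / 4 := by ring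
    rw [h10] at h7'
    linarith
  have hBu1 : κ' / 2 ≤ ‖B u1‖ := by
    have h1 := hB.lip u u1 (by linarith) (by linarith)
    have h2 : ‖B u‖ ≤ ‖B u1‖ + ‖B u1 - B u‖ := by
      have := norm_sub_le (B u1) (B u1 - B u)
      rwa [sub_sub_cancel] at this
    have h3 : M * ‖u1 - u‖ ≤ κ' / 2 := by
      have h4 : M * ‖u1 - u‖ ≤ M * (4 * M / l * η2) := mul_le_mul_of_nonneg_left hu1' hM0.le
      have h5 : M * (4 * M / l * η2) * l = η2 * (4 * M ^ 2) := by
        field_simp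
      have h6 : η2 * (4 * M ^ 2) ≤ η * (4 * M ^ 2) := mul_le_mul_of_nonneg_right hη2' (by positivity)
      have h8 : M * (4 * M / l * η2) * l ≤ κ' / 2 * l := by
        rw [h5]
        linarith
      exact h4.trans (le_of_mul_le_mul_right h8 hl0)
    linarith
  refine ⟨u1, hu1n, hw1, by linarith, hBu1, ?_⟩
  -- Taylor
  have hBne : B u ≠ 0 := by
    intro h
    rw [h, norm_zero] at hBu
    linarith
  have hBne1 : B u1 ≠ 0 := by
    intro h
    rw [h, norm_zero] at hBu1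
    linarith
  have hT1 := hEF.tay u u1 (by linarith) hu1n
  have hT2 := hB.tay u u1 (by linarith) hu1n
  have hnum : ‖F u * B u1 - B u * F u1‖ ≤ 4 * M ^ 2 * ‖u1 - u‖ ^ 2 := by
    have h1 : F u * B u1 - B u * F u1 =
        F u * (B u1 - B u - deriv B u * (u1 - u)) - B u * (F u1 - F u - deriv F u * (u1 - u)) := by
      unfold wr at hwr
      linear_combination (-(u1 - u)) * hwr
    rw [h1]
    refine (norm_sub_le _ _).trans ?_
    rw [norm_mul, norm_mul]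
    have h2 := mul_le_mul (hEF.2 u (by linarith)) hT2 (norm_nonneg _) (by positivity)
    have h3 := mul_le_mul (hB.2 u (by linarith)) hT1 (norm_nonneg _) (by positivity)
    linarith
  have hfin : F u / B u - F u1 / B u1 = (F u * B u1 - B u * F u1) / (B u * B u1) :=
    div_sub_div _ _ hBne hBne1
  change ‖F u / B u - F u1 / B u1‖ ≤ _
  rw [hfin, norm_div, norm_mul]
  have h1 : (κ' / 2) ^ 2 ≤ ‖B u‖ * ‖B u1‖ := by
    rw [pow_two]
    exact mul_le_mul (by linarith) hBu1 (by positivity) (norm_nonneg _)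
  calc ‖F u * B u1 - B u * F u1‖ / (‖B u‖ * ‖B u1‖)
      ≤ (4 * M ^ 2 * ‖u1 - u‖ ^ 2) / (κ' / 2) ^ 2 :=
        div_le_div₀ (by positivity) hnum (by positivity) h1
    _ ≤ (4 * M ^ 2 * (4 * M / l * η2) ^ 2) / (κ' / 2) ^ 2 := by
        gcongr
    _ = 4 * M ^ 2 * (4 * M / l) ^ 2 / (κ' / 2) ^ 2 * η2 ^ 2 := by ring

end Pool.Agent.H91.LD
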