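import Pool.Agent.H91.LD.Localize
import Pool.Agent.H91.LD.ELoc
import Pool.Agent.H91.LD.ELoc2

/-!
# [H91 LD CRIT0] critical points of type one, constants (`crit_strips` is in `Crit.lean`)

`M = 10^6` bounds the charts of `A`, `B` (`EB` with `4 * 10^5`) and of `Pj chiT A` (`4 * 10^5 + 10^5`, by `lc_zero`, `k6`); take `EB.mono`.

`kst` collects the constants: `r` from the noise, `χ0`, the constants `η κ3 C1` of `loc_two M χ0 r` and `η' m1` of `loc_three M χ0 r`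
(as hypotheses), `L R θ Λ m`.

* `type_one`: chart `b` with `chiT b ≤ χ0`. `sn (pT)` is `EB` with `5*10^7/L + χ0 M + 2*10^7 S + 2*10^5 δ` (`lc_zero`, `lc_S`,
  `sn_EB` for `t` (`wm t ≤ δ w`) and `EB` of `A`: `2*10^5*2 = M`); `loc_one`.

* `crit_strips`: fixed `d` large (explicit smallness hypotheses instead of eventually). Let `P0 = Pj chiT A`. In a chart `b ∈ s` with
  `χ0 ≤ chiT b`, put `A^ = sn A` etc. (`ω = w b`): `EB A^ M`, `EB B^ M`, `EB (P0^ - chiT b A^) (5*10^7/L)`; `EB P0^ (5*10^5)`.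
  Items: `I` = pairs `(b, u)`, `b ∈ s`, `χ0 ≤ chiT b`, `‖u‖ ≤ 1`, `wr P0^ B^ u = 0`, `κ3 ≤ ‖B^ u‖`: a finite type (`loc_three`:
  at most `m1` for each `b`). Cell `c b`; the `b ∈ s` with `c b = j` have mutual distance `√d sg ≤ R`, at most `64 (R+1)^2` of them
  (`H85/LD/Net`, `net_card`), so at most `m` items in a cell. `x (b,u) = Re (P0^ u/B^ u) + x0`,
  `A (b,u) j = Re (sn (Pj (chi j) B) u/B^ u)`: own coefficient within `5*10^7/(L κ3) ≤ χ0/2` of `chiT b ∈ [χ0,1]` (`lc_own`),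
  the others `≤ 2*10^7 exp(-(χ0 L-4)^2/8)/κ3 ≤ χ0 θ/1000` (`lc_far`). `strips_comb` gives `τ`.
  For `t` and a zero `u` (`‖u‖ ≤ 1/2`) of `wr (sn pT) B^`: `D^ = sn (pS + t)` is `EB` with `η2 = 2*10^7 S + 2*10^5 δ` (`lc_S`, `sn_EB`);
  `loc_two` gives the item `(b, u1)`, and `sn pT u/B^ u = (P0^ + D^)(u1)/B^ u1 + O(C1 η2^2)`, whose real part is the value of the item
  (`sn_add`, `sn_sum`, `sn_C_mul`) `+ O(2*10^5 δ/κ3 + C1 η2^2)`, and this error is `≤ θ s/16` by hypothesis.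
  Finally `‖sn pT u/B^ u‖ ≤ (5*10^5 + 10^5)/κ3`.
-/

set_option autoImplicit false

open Polynomial MeasureTheory ComplexConjugate

namespace Pool.Agent.H91.LD

open Pool.Agent.H85.LD

variable {N : ℕ}

theorem type_one (d : ℕ) (hd : 1 ≤ d) (L : ℝ) (hL : 1 ≤ L) (c : ℂ → Fin N) (Z : Set ℂ) (w : ℂ → ℝ)
    (hw : Wgt d w) (A B t : ℂ[X]) (hA : A.natDegree ≤ d) (hA2 : ∀ z, wm d A z ≤ 2 * w z)
    (hB : B.natDegree ≤ d) (hB2 : ∀ z, wm d B z ≤ 2 * w z) (ht : t.natDegree ≤ d) (δ : ℝ)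
    (hδ : 0 ≤ δ) (htw : ∀ z, wm d t z ≤ δ * w z) (τ : Fin N → ℝ) (S : ℝ) (hS : 0 ≤ S)
    (hτ : ∀ j, |τ j| ≤ S) (r χ0 : ℝ) (hr : 0 < r) (hr1 : r ≤ 1) (hχ0 : 0 ≤ χ0) (b : ℂ)
    (hb : chiT d L c Z b ≤ χ0) (hn : NDf r (sn d b (w b) A) (sn d b (w b) B)) (u : ℂ)
    (hu : ‖u‖ ≤ 1) (hwr : wr (sn d b (w b) (pT d L c Z A B τ t)) (sn d b (w b) B) u = 0)
    (h0 : sn d b (w b) (pT d L c Z A B τ t) u ≠ 0 ∨ sn d b (w b) B u ≠ 0) :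
    sn d b (w b) B u ≠ 0 ∧ ‖sn d b (w b) (pT d L c Z A B τ t) u / sn d b (w b) B u‖ ≤
      (5 * 10 ^ 7 / L + 4 * 10 ^ 5 * χ0 + 2 * 10 ^ 7 * S + 2 * 10 ^ 5 * δ) / r ^ 8 := by
  have hL0 : 0 < L := by linarith
  have e1 := lc_zero d hd L hL c Z w hw A hA hA2 b
  have e2 : EB (sn d b (w b) A) (2 * 10 ^ 5 * 2) :=
    sn_EB d hd w hw b A hA 2 (by norm_num) fun z _ => hA2 z
  have hχ := chiT_nonneg d L hL0 c Z b
  have e3 := e2.const_mul ((chiT d L c Z b : ℝ) : ℂ)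
  have e4 := lc_S d hd L hL c Z w hw B hB hB2 τ S hS hτ b
  have e5 : EB (sn d b (w b) t) (2 * 10 ^ 5 * δ) :=
    sn_EB d hd w hw b t ht δ hδ fun z _ => htw z
  have e6 := (e1.add e3).add (e4.add e5)
  have e7 : (fun u => (sn d b (w b) (Pj d (chiT d L c Z) A) u -
      ((chiT d L c Z b : ℝ) : ℂ) * sn d b (w b) A u +
      ((chiT d L c Z b : ℝ) : ℂ) * sn d b (w b) A u) +
      (sn d b (w b) (pS d L c Z B τ) u + sn d b (w b) t u)) =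
      sn d b (w b) (pT d L c Z A B τ t) := by
    funext u
    unfold pT
    rw [sn_add, sn_add]
    ring
  rw [e7] at e6
  have e8 : EB (sn d b (w b) (pT d L c Z A B τ t))
      (5 * 10 ^ 7 / L + 4 * 10 ^ 5 * χ0 + 2 * 10 ^ 7 * S + 2 * 10 ^ 5 * δ) := by
    refine e6.mono ?_
    rw [Complex.norm_real, Real.norm_of_nonneg hχ]
    nlinarith
  have e9 : EB (sn d b (w b) B) (2 * 10 ^ 5 * 2) :=
    sn_EB d hd w hw b B hB 2 (by norm_num) fun z _ => hB2 z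
  exact loc_one hr hr1 e8 e9.1 u hu (hn.n2 u hu) hwr h0

/-- the conclusions of `loc_two` and `loc_three`, for fixed constants -/
structure Kst (M χ0 r η κ3 C1 : ℝ) (m1 : ℕ) : Prop where
  η0 : 0 < η
  κ30 : 0 < κ3
  C10 : 0 < C1
  two : ∀ (A B P D : ℂ → ℂ) (χ : ℝ), χ0 ≤ χ → χ ≤ 1 →
      EB A M → EB B M → EB P M → EB (fun u => P u - (χ : ℂ) * A u) η → NDf r A B →
      ∀ η2 : ℝ, η2 ≤ η → EB D η2 → ∀ u : ℂ, ‖u‖ ≤ 1 / 2 →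
      wr (fun u => P u + D u) B u = 0 →
      ∃ u1 : ℂ, ‖u1‖ ≤ 1 ∧ wr P B u1 = 0 ∧ κ3 ≤ ‖B u‖ ∧ κ3 ≤ ‖B u1‖ ∧
        ‖(P u + D u) / B u - (P u1 + D u1) / B u1‖ ≤ C1 * η2 ^ 2
  three : ∀ (A B P : ℂ → ℂ) (χ : ℝ), χ0 ≤ χ → χ ≤ 1 →
      EB A M → EB B M → EB P M → EB (fun u => P u - (χ : ℂ) * A u) η → NDf r A B →
      {u : ℂ | ‖u‖ ≤ 1 ∧ wr P B u = 0}.Finite ∧ {u : ℂ | ‖u‖ ≤ 1 ∧ wr P B u = 0}.ncard ≤ m1

/-- combine `loc_two` and `loc_three` (take the smaller `η`; `EB.mono`) -/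
theorem exists_Kst (M χ0 r : ℝ) (hM : 1 ≤ M) (hχ0 : 0 < χ0) (hχ1 : χ0 ≤ 1) (hr : 0 < r)
    (hr1 : r ≤ 1) : ∃ (η κ3 C1 : ℝ) (m1 : ℕ), 1 ≤ m1 ∧ Kst M χ0 r η κ3 C1 m1 := by
  obtain ⟨η, κ3, C1, hη, hκ3, hC1, h2⟩ := loc_two M χ0 r hM hχ0 hχ1 hr hr1
  obtain ⟨η', m1, hη', hm1, h3⟩ := loc_three M χ0 r hM hχ0 hχ1 hr hr1
  refine ⟨min η η', κ3, C1, m1, hm1, ⟨lt_min hη hη', hκ3, hC1, ?_, ?_⟩⟩
  · intro A B P D χ hχ hχ' hA hB hP hPA hn η2 hη2 hD u hu hwr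
    exact h2 A B P D χ hχ hχ' hA hB hP (hPA.mono (min_le_left _ _)) hn η2
      (hη2.trans (min_le_left _ _)) hD u hu hwr
  · intro A B P χ hχ hχ' hA hB hP hPA hn
    exact h3 A B P χ hχ hχ' hA hB hP (hPA.mono (min_le_right _ _)) hn

end Pool.Agent.H91.LD
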