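import Pool.Agent.H91.LD.SDefs
import Pool.Agent.H85.LD.Cau

/-!
# [H91 LD EBASIC] entire functions bounded in the disc of radius `4`

Proofs. `d1`, `d2`, `d3`: Cauchy's inequality with radius `1`, three times
(`H85.LD.cau` with `ρ = 3, 2, 1`; the derivative of an entire function is entire).
`tay`: second derivative bounded by `M` in the disc of radius `2` (mean value inequality on the ball of radius `1`, twice;
the bound `M ‖v - u‖^2` leaves room). `wr_hasDeriv`: product rule, the terms `f' g'` cancel.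
`wr_tay`: same, `(wr f g)'' = f''' g + f'' g' - f' g'' - f g'''`, bounded by `4 M M'` in the closed unit disc.
`newton`: the map `T v = v - h v / h' u` on the closed ball of centre `u` and radius `ϱ = 2 e/l ≤ 1/2` has
`‖T' v‖ = ‖h' u - h' v‖/‖h' u‖ ≤ K ϱ/l = 2 K e/l^2 ≤ 1/4` and `‖T u - u‖ ≤ e/l = ϱ/2`; it maps the ball to itself and is
a contraction (`ContractingWith.exists_fixedPoint'` as in `H44/Fatou/Trap.lean`, theorem `trap`); a fixed point is a zero.
-/

set_option autoImplicit false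

open Polynomial MeasureTheory ComplexConjugate

namespace Pool.Agent.H91.LD

open Pool.Agent.H85.LD

private theorem dd {f : ℂ → ℂ} (hf : Differentiable ℂ f) : Differentiable ℂ (deriv f) :=
  differentiableOn_univ.1 (hf.differentiableOn.deriv isOpen_univ)

private theorem tay_gen (F F' : ℂ → ℂ) (u v : ℂ) (hu : ‖u‖ ≤ 1) (hv : ‖v‖ ≤ 1) (K : ℝ)
    (hK : 0 ≤ K) (hd : ∀ x, HasDerivAt F (F' x) x)
    (hlip : ∀ x, ‖x‖ ≤ 1 → ‖F' x - F' u‖ ≤ K * ‖x - u‖) :
    ‖F v - F u - F' u * (v - u)‖ ≤ K * ‖v - u‖ ^ 2 := by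
  have hc : Convex ℝ (segment ℝ u v) := convex_segment u v
  have hg : ∀ x ∈ segment ℝ u v, HasDerivWithinAt (fun y => F y - F' u * y) (F' x - F' u)
      (segment ℝ u v) x := by
    intro x _
    have h4 : HasDerivAt (fun y => F y - F' u * y) (F' x - F' u * 1) x :=
      (hd x).sub ((hasDerivAt_id x).const_mul (F' u))
    rw [mul_one] at h4
    exact h4.hasDerivWithinAt
  have hg1 : ∀ x ∈ segment ℝ u v, ‖F' x - F' u‖ ≤ K * ‖v - u‖ := by
    intro x hx
    have hx1 : ‖x‖ ≤ 1 := by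
      have h5 : x ∈ Metric.closedBall (0 : ℂ) 1 :=
        (convex_closedBall (0 : ℂ) 1).segment_subset (by simpa using hu) (by simpa using hv) hx
      simpa using h5
    refine (hlip x hx1).trans (mul_le_mul_of_nonneg_left ?_ hK)
    obtain ⟨a, b, ha, hb, hab, rfl⟩ := hx
    have h6 : a • u + b • v - u = b • (v - u) := by
      have h7 : a = 1 - b := by linarith
      rw [h7]
      module
    rw [h6, norm_smul, Real.norm_of_nonneg hb]
    have h8 : b ≤ 1 := by linarith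
    have h9 := norm_nonneg (v - u)
    nlinarith
  have h10 := hc.norm_image_sub_le_of_norm_hasDerivWithin_le hg hg1 (left_mem_segment ℝ u v)
    (right_mem_segment ℝ u v)
  have h11 : F v - F' u * v - (F u - F' u * u) = F v - F u - F' u * (v - u) := by
    ring
  rw [h11] at h10
  refine h10.trans (le_of_eq ?_)
  ring

theorem EB.d1 {f : ℂ → ℂ} {M : ℝ} (h : EB f M) (u : ℂ) (hu : ‖u‖ ≤ 3) : ‖deriv f u‖ ≤ M := by
  exact cau f h.1 M 3 (fun u hu => h.2 u (by linarith)) u hu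

theorem EB.d2 {f : ℂ → ℂ} {M : ℝ} (h : EB f M) (u : ℂ) (hu : ‖u‖ ≤ 2) :
    ‖deriv (deriv f) u‖ ≤ M := by
  exact cau (deriv f) (dd h.1) M 2 (fun u hu => h.d1 u (by linarith)) u hu

theorem EB.d3 {f : ℂ → ℂ} {M : ℝ} (h : EB f M) (u : ℂ) (hu : ‖u‖ ≤ 1) :
    ‖deriv (deriv (deriv f)) u‖ ≤ M := by
  exact cau (deriv (deriv f)) (dd (dd h.1)) M 1 (fun u hu => h.d2 u (by linarith)) u hu

theorem EB.nonneg {f : ℂ → ℂ} {M : ℝ} (h : EB f M) : 0 ≤ M := by
  exact (norm_nonneg _).trans (h.2 0 (by simp))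

theorem EB.mono {f : ℂ → ℂ} {M M' : ℝ} (h : EB f M) (hM : M ≤ M') : EB f M' := by
  exact ⟨h.1, fun u hu => (h.2 u hu).trans hM⟩

theorem EB.add {f g : ℂ → ℂ} {M M' : ℝ} (h : EB f M) (h' : EB g M') :
    EB (fun u => f u + g u) (M + M') := by
  exact ⟨h.1.add h'.1, fun u hu => (norm_add_le _ _).trans (add_le_add (h.2 u hu) (h'.2 u hu))⟩

theorem EB.sub {f g : ℂ → ℂ} {M M' : ℝ} (h : EB f M) (h' : EB g M') :
    EB (fun u => f u - g u) (M + M') := by
  exact ⟨h.1.sub h'.1, fun u hu => (norm_sub_le _ _).trans (add_le_add (h.2 u hu) (h'.2 u hu))⟩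

theorem EB.const_mul {f : ℂ → ℂ} {M : ℝ} (h : EB f M) (c : ℂ) :
    EB (fun u => c * f u) (‖c‖ * M) := by
  refine ⟨h.1.const_mul c, fun u hu => ?_⟩
  rw [norm_mul]
  exact mul_le_mul_of_nonneg_left (h.2 u hu) (norm_nonneg _)

theorem EB.tay {f : ℂ → ℂ} {M : ℝ} (h : EB f M) (u v : ℂ) (hu : ‖u‖ ≤ 1) (hv : ‖v‖ ≤ 1) :
    ‖f v - f u - deriv f u * (v - u)‖ ≤ M * ‖v - u‖ ^ 2 := by
  exact (cau_tay f h.1 M (fun u hu => h.2 u (by linarith)) u v hu hv).1

theorem EB.lip {f : ℂ → ℂ} {M : ℝ} (h : EB f M) (u v : ℂ) (hu : ‖u‖ ≤ 3) (hv : ‖v‖ ≤ 3) :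
    ‖f v - f u‖ ≤ M * ‖v - u‖ := by
  exact cau_lip f h.1 M 3 (fun x hx => h.2 x (by linarith)) u v hu hv

theorem EB.lip1 {f : ℂ → ℂ} {M : ℝ} (h : EB f M) (u v : ℂ) (hu : ‖u‖ ≤ 2) (hv : ‖v‖ ≤ 2) :
    ‖deriv f v - deriv f u‖ ≤ M * ‖v - u‖ := by
  exact cau_lip (deriv f) (dd h.1) M 2 (fun x hx => h.d1 x (by linarith)) u v hu hv

theorem wr_hasDeriv {f g : ℂ → ℂ} (hf : Differentiable ℂ f) (hg : Differentiable ℂ g) (u : ℂ) :
    HasDerivAt (wr f g) (wr1 f g u) u := by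
  have h1 := ((dd hf u).hasDerivAt.mul (hg u).hasDerivAt).sub
    ((hf u).hasDerivAt.mul (dd hg u).hasDerivAt)
  have h2 : deriv (deriv f) u * g u + deriv f u * deriv g u -
      (deriv f u * deriv g u + f u * deriv (deriv g) u) = wr1 f g u := by
    unfold wr1
    ring
  rw [h2] at h1
  exact h1

theorem wr_lip {f g : ℂ → ℂ} {M M' : ℝ} (hf : EB f M) (hg : EB g M') (u v : ℂ) (hu : ‖u‖ ≤ 1)
    (hv : ‖v‖ ≤ 1) : ‖wr f g v - wr f g u‖ ≤ 2 * M * M' * ‖v - u‖ ∧
      ‖wr1 f g v - wr1 f g u‖ ≤ 4 * M * M' * ‖v - u‖ := by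
  have hM := hf.nonneg
  have hM' := hg.nonneg
  have hc : Convex ℝ (Metric.closedBall (0 : ℂ) 1) := convex_closedBall 0 1
  have hb : ∀ {x : ℂ}, x ∈ Metric.closedBall (0 : ℂ) 1 → ‖x‖ ≤ 1 := fun hx => by simpa using hx
  constructor
  · refine hc.norm_image_sub_le_of_norm_hasDerivWithin_le (f := wr f g) (f' := wr1 f g)
      (fun x _ => (wr_hasDeriv hf.1 hg.1 x).hasDerivWithinAt) (fun x hx => ?_)
      (by simpa using hu) (by simpa using hv)
    have hx' := hb hx
    unfold wr1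
    refine (norm_sub_le _ _).trans ?_
    rw [norm_mul, norm_mul]
    have h1 := mul_le_mul (hf.d2 x (by linarith)) (hg.2 x (by linarith)) (norm_nonneg _) hM
    have h2 := mul_le_mul (hf.2 x (by linarith)) (hg.d2 x (by linarith)) (norm_nonneg _) hM
    linarith
  · refine hc.norm_image_sub_le_of_norm_hasDerivWithin_le (f := wr1 f g)
      (f' := fun x => (deriv (deriv (deriv f)) x * g x + deriv (deriv f) x * deriv g x) -
        (deriv f x * deriv (deriv g) x + f x * deriv (deriv (deriv g)) x))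
      (fun x _ => ?_) (fun x hx => ?_)
      (by simpa using hu) (by simpa using hv)
    · exact (((dd (dd hf.1) x).hasDerivAt.mul (hg.1 x).hasDerivAt).sub
        ((hf.1 x).hasDerivAt.mul (dd (dd hg.1) x).hasDerivAt)).hasDerivWithinAt
    have hx' := hb hx
    refine (norm_sub_le _ _).trans ?_
    have h3 := norm_add_le (deriv (deriv (deriv f)) x * g x) (deriv (deriv f) x * deriv g x)
    have h4 := norm_add_le (deriv f x * deriv (deriv g) x) (f x * deriv (deriv (deriv g)) x)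
    rw [norm_mul, norm_mul] at h3 h4
    have h5 := mul_le_mul (hf.d3 x (by linarith)) (hg.2 x (by linarith)) (norm_nonneg _) hM
    have h6 := mul_le_mul (hf.d2 x (by linarith)) (hg.d1 x (by linarith)) (norm_nonneg _) hM
    have h7 := mul_le_mul (hf.d1 x (by linarith)) (hg.d2 x (by linarith)) (norm_nonneg _) hM
    have h8 := mul_le_mul (hf.2 x (by linarith)) (hg.d3 x (by linarith)) (norm_nonneg _) hM
    linarith

theorem wr_tay {f g : ℂ → ℂ} {M M' : ℝ} (hf : EB f M) (hg : EB g M') (u v : ℂ) (hu : ‖u‖ ≤ 1)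
    (hv : ‖v‖ ≤ 1) :
    ‖wr f g v - wr f g u - wr1 f g u * (v - u)‖ ≤ 4 * M * M' * ‖v - u‖ ^ 2 := by
  refine tay_gen (wr f g) (wr1 f g) u v hu hv (4 * M * M') ?_ (wr_hasDeriv hf.1 hg.1)
    (fun x hx => (wr_lip hf hg u x hu hx).2)
  exact mul_nonneg (mul_nonneg (by norm_num) hf.nonneg) hg.nonneg

theorem wr_bound {f g : ℂ → ℂ} {M M' : ℝ} (hf : EB f M) (hg : EB g M') (u : ℂ) (hu : ‖u‖ ≤ 2) :
    ‖wr f g u‖ ≤ 2 * M * M' ∧ ‖wr1 f g u‖ ≤ 2 * M * M' := by
  have hM := hf.nonneg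
  constructor
  · unfold wr
    refine (norm_sub_le _ _).trans ?_
    rw [norm_mul, norm_mul]
    have h1 := mul_le_mul (hf.d1 u (by linarith)) (hg.2 u (by linarith)) (norm_nonneg _) hM
    have h2 := mul_le_mul (hf.2 u (by linarith)) (hg.d1 u (by linarith)) (norm_nonneg _) hM
    linarith
  · unfold wr1
    refine (norm_sub_le _ _).trans ?_
    rw [norm_mul, norm_mul]
    have h1 := mul_le_mul (hf.d2 u hu) (hg.2 u (by linarith)) (norm_nonneg _) hM
    have h2 := mul_le_mul (hf.2 u (by linarith)) (hg.d2 u hu) (norm_nonneg _) hM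
    linarith

/-- quantitative inverse function theorem -/
theorem newton (h : ℂ → ℂ) (hd : Differentiable ℂ h) (u : ℂ) (K l e : ℝ) (hK0 : 0 ≤ K) (hl0 : 0 < l)
    (he0 : 0 ≤ e) (hK : ∀ v, ‖v - u‖ ≤ 1 / 2 → ‖deriv h v - deriv h u‖ ≤ K * ‖v - u‖)
    (hl : l ≤ ‖deriv h u‖) (he : ‖h u‖ ≤ e) (h8 : 8 * K * e ≤ l ^ 2) (h2 : 2 * e / l ≤ 1 / 2) :
    ∃ v, ‖v - u‖ ≤ 2 * e / l ∧ h v = 0 := by
  have hdu : deriv h u ≠ 0 := by
    intro h0
    rw [h0, norm_zero] at hl
    linarith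
  have hdn : 0 < ‖deriv h u‖ := norm_pos_iff.2 hdu
  set R : ℝ := 2 * e / l with hR
  have hR0 : 0 ≤ R := div_nonneg (by linarith) hl0.le
  have hRl : R * l = 2 * e := by
    rw [hR]
    field_simp
  have hKR : K * R ≤ 1 / 4 * l := by
    have h3 : K * R * l ≤ 1 / 4 * l * l := by
      have h4 : K * R * l = K * (2 * e) := by rw [mul_assoc, hRl]
      rw [h4]
      nlinarith
    exact le_of_mul_le_mul_right h3 hl0
  set T : ℂ → ℂ := fun v => v - h v / deriv h u with hT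
  have hTd : ∀ x, HasDerivAt T (1 - deriv h x / deriv h u) x := fun x =>
    (hasDerivAt_id x).sub ((hd x).hasDerivAt.div_const _)
  have hTb : ∀ x ∈ Metric.closedBall u R, ‖1 - deriv h x / deriv h u‖ ≤ 1 / 4 := by
    intro x hx
    have hx1 : ‖x - u‖ ≤ R := by rwa [mem_closedBall_iff_norm] at hx
    have h3 : 1 - deriv h x / deriv h u = -(deriv h x - deriv h u) / deriv h u := by
      field_simp
      ring
    rw [h3, norm_div, norm_neg, div_le_iff₀ hdn]
    calc ‖deriv h x - deriv h u‖ ≤ K * ‖x - u‖ := hK x (hx1.trans h2)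
      _ ≤ K * R := mul_le_mul_of_nonneg_left hx1 hK0
      _ ≤ 1 / 4 * l := hKR
      _ ≤ 1 / 4 * ‖deriv h u‖ := by linarith
  have hlip : ∀ x ∈ Metric.closedBall u R, ∀ y ∈ Metric.closedBall u R,
      ‖T x - T y‖ ≤ 1 / 4 * ‖x - y‖ := fun x hx y hy =>
    (convex_closedBall u R).norm_image_sub_le_of_norm_hasDerivWithin_le
      (fun z _ => (hTd z).hasDerivWithinAt) hTb hy hx
  have hTu : ‖T u - u‖ ≤ R / 2 := by
    have h3 : T u - u = -(h u / deriv h u) := by
      rw [hT]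
      ring
    rw [h3, norm_neg, norm_div, div_le_iff₀ hdn]
    calc ‖h u‖ ≤ e := he
      _ = R / 2 * l := by linarith
      _ ≤ R / 2 * ‖deriv h u‖ := mul_le_mul_of_nonneg_left hl (by linarith)
  have humem : u ∈ Metric.closedBall u R := Metric.mem_closedBall_self hR0
  have hmaps : Set.MapsTo T (Metric.closedBall u R) (Metric.closedBall u R) := by
    intro x hx
    have h3 := hlip x hx u humem
    have hx1 : ‖x - u‖ ≤ R := by rwa [mem_closedBall_iff_norm] at hx
    rw [mem_closedBall_iff_norm]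
    have h4 : ‖T x - u‖ ≤ ‖T x - T u‖ + ‖T u - u‖ := by
      have := norm_add_le (T x - T u) (T u - u)
      rwa [sub_add_sub_cancel] at this
    linarith
  have hcontr : ContractingWith (1 / 4) (hmaps.restrict T _ _) := by
    refine ⟨by
      rw [← NNReal.coe_lt_coe]
      norm_num, ?_⟩
    apply LipschitzWith.of_dist_le_mul
    intro x y
    rw [Subtype.dist_eq, Subtype.dist_eq, dist_eq_norm, dist_eq_norm]
    have := hlip x x.2 y y.2
    simpa using this
  have hcomplete : IsComplete (Metric.closedBall u R) := Metric.isClosed_closedBall.isComplete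
  obtain ⟨y, hy, hfix, -, -⟩ := hcontr.exists_fixedPoint' hcomplete hmaps humem
    (edist_ne_top _ _)
  have hfix' : y - h y / deriv h u = y := hfix
  refine ⟨y, by rwa [mem_closedBall_iff_norm] at hy, ?_⟩
  have h5 : h y / deriv h u = 0 := by
    have := sub_eq_self.1 hfix'
    exact this
  rcases div_eq_zero_iff.1 h5 with h6 | h6
  · exact h6
  · exact absurd h6 hdu

end Pool.Agent.H91.LD
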