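import Pool.Agent.H91.LD.SDefs

/-!
# [H91 LD LIMS] limits in `d`

* `choose_L`: `R = L * K` with `K = max 1 (C3/ν)`, `m = ⌈64 (R+1)^2 m1⌉₊ + 1`, `θ = min (1/8) (ν/(20 m))`. All conditions hold for large `L`: the
  exponential beats the polynomial `1/θ = O(L^2)`. (E.g. `m ≤ K' L^2` for `L ≥ 1`, `θ ≥ 1/(K'' L^2)`, and
  `L^2 exp(-(χ0 L - 4)^2/8) → 0`.)
* `lim_d`: finitely many statements `∀ᶠ d`: `sm d = d^(-1/4) → 0`; `exp(-c √d) d^10 → 0`; etc.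
-/

set_option autoImplicit false

open Filter

namespace Pool.Agent.H91.LD

/-- `sm d → 0` -/
theorem sm_lim : Tendsto sm atTop (nhds 0) := by
  have h1 : Tendsto (fun d : ℕ => √(√(d : ℝ))) atTop atTop :=
    Real.tendsto_sqrt_atTop.comp (Real.tendsto_sqrt_atTop.comp tendsto_natCast_atTop_atTop)
  exact h1.inv_tendsto_atTop

theorem sm_pos (d : ℕ) (hd : 1 ≤ d) : 0 < sm d := by
  unfold sm
  have : (0 : ℝ) < d := by exact_mod_cast hd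
  positivity

private theorem sm_four (d : ℕ) : sm d ^ 4 = 1 / (d : ℝ) := by
  unfold sm
  have h1 : √(√(d : ℝ)) ^ 4 = d := by
    calc √(√(d : ℝ)) ^ 4 = (√(√(d : ℝ)) ^ 2) ^ 2 := by ring
      _ = (√(d : ℝ)) ^ 2 := by rw [Real.sq_sqrt (Real.sqrt_nonneg _)]
      _ = d := Real.sq_sqrt (Nat.cast_nonneg d)
  rw [inv_pow, h1, one_div]

/-- `√d` is much larger than `1/sm d` -/
theorem sm_large (K : ℝ) : ∀ᶠ d : ℕ in atTop, K / √d ≤ sm d := by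
  have h1 : Tendsto (fun d : ℕ => √(√(d : ℝ))) atTop atTop :=
    Real.tendsto_sqrt_atTop.comp (Real.tendsto_sqrt_atTop.comp tendsto_natCast_atTop_atTop)
  filter_upwards [h1.eventually_ge_atTop K, eventually_ge_atTop 1] with d hd hd1
  have hd0 : (0 : ℝ) < d := by exact_mod_cast hd1
  have hs : 0 < √(√(d : ℝ)) := by positivity
  have h2 : √(√(d : ℝ)) * √(√(d : ℝ)) = √(d : ℝ) := Real.mul_self_sqrt (Real.sqrt_nonneg _)
  unfold sm
  rw [div_le_iff₀ (by positivity), inv_mul_eq_div, le_div_iff₀ hs]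
  nlinarith

/-- `exp(-c d (sm d)^2)` is smaller than every power of `d` -/
theorem exp_small (K c : ℝ) (hc : 0 < c) : ∀ᶠ d : ℕ in atTop,
    K * Real.exp (-(d * (c * sm d) ^ 2 / 8)) ≤ 1 / (2 * (d : ℝ) ^ 10) := by
  obtain ⟨c', hc'⟩ : ∃ c' : ℝ, c' = c ^ 2 / 8 := ⟨_, rfl⟩
  have hc0 : 0 < c' := by rw [hc']; positivity
  have h1 : Tendsto (fun d : ℕ => c' * √(d : ℝ)) atTop atTop :=
    (Real.tendsto_sqrt_atTop.comp tendsto_natCast_atTop_atTop).const_mul_atTop hc0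
  have h2 := (Real.tendsto_pow_mul_exp_neg_atTop_nhds_zero 20).comp h1
  have h3 := h2.const_mul (2 * K * (1 / c') ^ 20)
  rw [mul_zero] at h3
  filter_upwards [h3.eventually_le_const zero_lt_one, eventually_ge_atTop 1] with d hd hd1
  have hd0 : (0 : ℝ) < d := by exact_mod_cast hd1
  have hsq : √(d : ℝ) ^ 2 = d := Real.sq_sqrt hd0.le
  have h20 : √(d : ℝ) ^ 20 = (d : ℝ) ^ 10 := by
    calc √(d : ℝ) ^ 20 = (√(d : ℝ) ^ 2) ^ 10 := by ring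
      _ = _ := by rw [hsq]
  have hexp : (d : ℝ) * (c * sm d) ^ 2 / 8 = c' * √(d : ℝ) := by
    have h4 : sm d ^ 2 = 1 / √(d : ℝ) := by
      unfold sm
      rw [inv_pow, Real.sq_sqrt (Real.sqrt_nonneg _), one_div]
    have hs : 0 < √(d : ℝ) := Real.sqrt_pos.2 hd0
    rw [mul_pow, h4, hc']
    field_simp
    rw [hsq]
  rw [hexp, le_div_iff₀ (by positivity)]
  simp only [Function.comp] at hd
  calc K * Real.exp (-(c' * √(d : ℝ))) * (2 * (d : ℝ) ^ 10)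
      = 2 * K * (1 / c') ^ 20 * ((c' * √(d : ℝ)) ^ 20 * Real.exp (-(c' * √(d : ℝ)))) := by
        rw [mul_pow, h20]
        field_simp
    _ ≤ 1 := hd

/-- the errors in `crit_strips` are small for large `d`: `S = K sm d`, `δ = 1/(2 d^10)` -/
theorem err_small (K C1 κ3 θ η : ℝ) (hC1 : 0 < C1) (hκ3 : 0 < κ3) (hθ : 0 < θ) (hη : 0 < η) :
    ∀ᶠ d : ℕ in atTop,
      2 * 10 ^ 7 * (K * sm d) + 2 * 10 ^ 5 * (1 / (2 * (d : ℝ) ^ 10)) ≤ η ∧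
      C1 * (2 * 10 ^ 7 * (K * sm d) + 2 * 10 ^ 5 * (1 / (2 * (d : ℝ) ^ 10))) ^ 2 +
        2 * 10 ^ 5 * (1 / (2 * (d : ℝ) ^ 10)) / κ3 ≤ θ * sm d / 16 := by
  -- with `s = sm d`, `1/d^10 = s^40`
  have hc1 : Continuous fun s : ℝ => 2 * 10 ^ 7 * (K * s) + 2 * 10 ^ 5 * (s ^ 40 / 2) := by fun_prop
  have hc2 : Continuous fun s : ℝ => C1 * (s * (2 * 10 ^ 7 * K + 10 ^ 5 * s ^ 39) ^ 2) +
    10 ^ 5 * s ^ 39 / κ3 := by fun_prop
  have h1 := (hc1.tendsto 0).comp sm_lim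
  have h2 := (hc2.tendsto 0).comp sm_lim
  have e1 : (2 * 10 ^ 7 * (K * 0) + 2 * 10 ^ 5 * ((0 : ℝ) ^ 40 / 2)) < η := by norm_num; exact hη
  have e2 : (C1 * (0 * (2 * 10 ^ 7 * K + 10 ^ 5 * (0 : ℝ) ^ 39) ^ 2) +
    10 ^ 5 * (0 : ℝ) ^ 39 / κ3) < θ / 16 := by norm_num; exact hθ
  filter_upwards [h1.eventually_lt_const e1, h2.eventually_lt_const e2, eventually_ge_atTop 1]
    with d hd1 hd2 hd
  simp only [Function.comp] at hd1 hd2
  have hs : 0 < sm d := sm_pos d hd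
  have h40 : 1 / (2 * (d : ℝ) ^ 10) = sm d ^ 40 / 2 := by
    have : sm d ^ 40 = (sm d ^ 4) ^ 10 := by ring
    rw [this, sm_four, div_pow, one_pow]
    field_simp
  rw [h40]
  refine ⟨hd1.le, ?_⟩
  have h3 := mul_le_mul_of_nonneg_right hd2.le hs.le
  calc C1 * (2 * 10 ^ 7 * (K * sm d) + 2 * 10 ^ 5 * (sm d ^ 40 / 2)) ^ 2 +
        2 * 10 ^ 5 * (sm d ^ 40 / 2) / κ3
      = (C1 * (sm d * (2 * 10 ^ 7 * K + 10 ^ 5 * sm d ^ 39) ^ 2) +
          10 ^ 5 * sm d ^ 39 / κ3) * sm d := by ring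
    _ ≤ θ / 16 * sm d := h3
    _ = θ * sm d / 16 := by ring

end Pool.Agent.H91.LD
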