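import Pool.Agent.H91.LD.Sn
import Pool.Agent.H85.LD.Noise

/-!
# [H91 LD NOISE2] the noise theorem in normalised form, with full degree

Apply `H85.LD.noise (ε/2)` with `r1 = min r₀ 1`; the result is proved with `r = r1/2`. It gives `A`, `B1` with the three conditions for `r1`
in all charts. Put `B = B1 + C η * X^d` with `η` tiny and `B1.coeff d + η ≠ 0`. As in `H91/LD/Tiny`: `wm (C η X^d) z ≤ ‖η‖ ≤ e w z` if
`‖η‖ ≤ e w(0) exp(-√d)`, so in every chart `sn (C η X^d)` is `EB` with `2*10^5 e` (`sn_EB`), and `EB (sn B1) (4*10^5)`. With `e` small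
depending on `r1` only:
(n1) `r1 ≤ ‖A^‖ + ‖B1^‖ ≤ ‖A^‖ + ‖B^‖ + r1/2`. (n2) `‖B^ u‖ < (r1/2)^8 → ‖B1^ u‖ < r1^8 → r1^4 ≤ ‖B1^' u‖ → (r1/2)^4 ≤ ‖B^' u‖`. (n3) the same
with `wr A^ B^ - wr A^ B1^ = wr A^ (B^ - B1^)`, `wr_bound`. (`NDf_of` converts the conclusion of `noise`.)
-/

set_option autoImplicit false

open Polynomial MeasureTheory ComplexConjugate

namespace Pool.Agent.H91.LD

open Pool.Agent.H85.LD

/-- nondegeneracy is stable under small perturbations of the second function -/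
private theorem nz_pert {r1 e : ℝ} (hr1 : 0 < r1) (hr11 : r1 ≤ 1) (he : 0 < e)
    (he1 : e ≤ r1 ^ 8 / 10 ^ 12) {f g1 g h : ℂ → ℂ} (hf : EB f (2 * 10 ^ 5 * 2))
    (hg1 : EB g1 (2 * 10 ^ 5 * 2)) (hh : EB h (2 * 10 ^ 5 * e)) (hg : ∀ u, g u = g1 u + h u)
    (hn : NDf r1 f g1) : NDf (r1 / 2) f g := by
  have hgf : g = fun u => g1 u + h u := funext hg
  have hd1 : ∀ u, deriv g u = deriv g1 u + deriv h u := by
    intro u
    rw [hgf]
    exact deriv_fun_add (hg1.1 u) (hh.1 u)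
  have hdg1 : Differentiable ℂ (deriv g1) := fun u =>
    (hg1.1.contDiff (n := 2)).differentiable_deriv_two u
  have hdh : Differentiable ℂ (deriv h) := fun u =>
    (hh.1.contDiff (n := 2)).differentiable_deriv_two u
  have hd2 : ∀ u, deriv (deriv g) u = deriv (deriv g1) u + deriv (deriv h) u := by
    intro u
    rw [show deriv g = fun u => deriv g1 u + deriv h u from funext hd1]
    exact deriv_fun_add (hdg1 u) (hdh u)
  have hw : ∀ u, wr f g u = wr f g1 u + wr f h u := by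
    intro u
    simp only [wr, hg, hd1]
    ring
  have hw1 : ∀ u, wr1 f g u = wr1 f g1 u + wr1 f h u := by
    intro u
    simp only [wr1, hg, hd2]
    ring
  have h4 : r1 ^ 8 ≤ r1 ^ 4 := pow_le_pow_of_le_one hr1.le hr11 (by norm_num)
  have h1 : r1 ^ 4 ≤ r1 := by
    calc r1 ^ 4 ≤ r1 ^ 1 := pow_le_pow_of_le_one hr1.le hr11 (by norm_num)
      _ = r1 := pow_one _
  have h8 : 0 < r1 ^ 8 := by positivity
  have hE : 16 * 10 ^ 10 * e ≤ r1 ^ 8 / 4 := by
    have : e ≤ r1 ^ 8 / 10 ^ 12 := he1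
    rw [le_div_iff₀ (by norm_num)] at this ⊢
    linarith
  have e8 : (r1 / 2) ^ 8 = r1 ^ 8 / 256 := by ring
  have e4 : (r1 / 2) ^ 4 = r1 ^ 4 / 16 := by ring
  refine ⟨fun u hu => ?_, fun u hu hlt => ?_, fun u hu hlt => ?_⟩
  · have a1 := hn.n1 u hu
    have a2 := hh.2 u (hu.trans (by norm_num))
    have a3 : ‖g1 u‖ ≤ ‖g u‖ + ‖h u‖ := by
      have : g1 u = g u - h u := by rw [hg]; ring
      rw [this]
      exact norm_sub_le _ _
    linarith
  · have a2 := hh.2 u (hu.trans (by norm_num))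
    have a3 : ‖g1 u‖ ≤ ‖g u‖ + ‖h u‖ := by
      have : g1 u = g u - h u := by rw [hg]; ring
      rw [this]
      exact norm_sub_le _ _
    have a4 : ‖g1 u‖ < r1 ^ 8 := by
      rw [e8] at hlt
      linarith
    have a5 := hn.n2 u hu a4
    have a6 := hh.d1 u (hu.trans (by norm_num))
    have a7 : ‖deriv g1 u‖ ≤ ‖deriv g u‖ + ‖deriv h u‖ := by
      have : deriv g1 u = deriv g u - deriv h u := by rw [hd1]; ring
      rw [this]
      exact norm_sub_le _ _
    rw [e4]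
    linarith
  · have a2 := wr_bound hf hh u (hu.trans (by norm_num))
    have a20 := a2.1
    have a21 := a2.2
    have a3 : ‖wr f g1 u‖ ≤ ‖wr f g u‖ + ‖wr f h u‖ := by
      have : wr f g1 u = wr f g u - wr f h u := by rw [hw]; ring
      rw [this]
      exact norm_sub_le _ _
    have a4 : ‖wr f g1 u‖ < r1 ^ 8 := by
      rw [e8] at hlt
      linarith
    have a5 := hn.n3 u hu a4
    have a7 : ‖wr1 f g1 u‖ ≤ ‖wr1 f g u‖ + ‖wr1 f h u‖ := by
      have : wr1 f g1 u = wr1 f g u - wr1 f h u := by rw [hw1]; ring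
      rw [this]
      exact norm_sub_le _ _
    rw [e4]
    linarith

theorem noise2 (ε : ℝ) (hε : 0 < ε) (hε1 : ε ≤ 1) : ∃ r : ℝ, 0 < r ∧ r ≤ 1 ∧ ∀ d : ℕ, 4 ≤ d →
    ∀ s : Finset ℂ, Sep d s → ∀ w : ℂ → ℝ, Wgt d w → ∀ P Q : ℂ[X], P.natDegree ≤ d →
    Q.natDegree ≤ d → (∀ z, wm d P z ≤ w z) → (∀ z, wm d Q z ≤ w z) →
    ∃ A B : ℂ[X], A.natDegree ≤ d ∧ B.natDegree ≤ d ∧ B.coeff d ≠ 0 ∧
      (∀ z, wm d (A - P) z ≤ ε * w z) ∧ (∀ z, wm d (B - Q) z ≤ ε * w z) ∧
      ∀ b ∈ s, NDf r (sn d b (w b) A) (sn d b (w b) B) := by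
  obtain ⟨r₀, hr₀, hno⟩ := noise (ε / 2) (by linarith)
  obtain ⟨r1, hr1def⟩ : ∃ r1 : ℝ, r1 = min r₀ 1 := ⟨_, rfl⟩
  have hr1 : 0 < r1 := by rw [hr1def]; exact lt_min hr₀ one_pos
  have hr11 : r1 ≤ 1 := by rw [hr1def]; exact min_le_right _ _
  have hr10 : r1 ≤ r₀ := by rw [hr1def]; exact min_le_left _ _
  obtain ⟨e, hedef⟩ : ∃ e : ℝ, e = min (ε / 2) (r1 ^ 8 / 10 ^ 12) := ⟨_, rfl⟩
  have he : 0 < e := by rw [hedef]; exact lt_min (by linarith) (by positivity)
  have he2 : e ≤ ε / 2 := by rw [hedef]; exact min_le_left _ _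
  have he12 : e ≤ r1 ^ 8 / 10 ^ 12 := by rw [hedef]; exact min_le_right _ _
  refine ⟨r1 / 2, by linarith, by linarith, ?_⟩
  intro d hd s hs w hw P Q hP hQ hPw hQw
  obtain ⟨A, B1, hA, hB1, hAP, hBQ, hnd⟩ := hno r1 hr1 hr10 d hd s hs w hw P Q hP hQ hPw hQw
  -- the small coefficient
  have hη0 : 0 < e * w 0 * Real.exp (-√d) := by
    have := hw.pos 0
    positivity
  obtain ⟨η, hηn, hηne⟩ : ∃ η : ℂ, ‖η‖ ≤ e * w 0 * Real.exp (-√d) ∧ B1.coeff d + η ≠ 0 := by
    by_cases h0 : B1.coeff d = 0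
    · refine ⟨((e * w 0 * Real.exp (-√d) : ℝ) : ℂ), ?_, ?_⟩
      · rw [Complex.norm_real, Real.norm_eq_abs, abs_of_pos hη0]
      · rw [h0, zero_add]
        exact_mod_cast hη0.ne'
    · refine ⟨0, ?_, ?_⟩
      · rw [norm_zero]
        exact hη0.le
      · rwa [add_zero]
  obtain ⟨D, hD⟩ : ∃ D : ℂ[X], D = C η * X ^ d := ⟨_, rfl⟩
  have hDdeg : D.natDegree ≤ d := by rw [hD]; exact natDegree_C_mul_X_pow_le _ _
  have hDw : ∀ z, wm d D z ≤ e * w z := by
    intro z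
    have h1 : wm d D z ≤ ‖η‖ := by
      rw [hD, wm_C_mul]
      have h2 : wm d (X ^ d) z ≤ 1 := by
        unfold wm
        rw [eval_pow, eval_X, norm_pow]
        exact div_le_one_of_le₀ (pow_le_wt d d le_rfl z) (Real.sqrt_nonneg _)
      calc ‖η‖ * wm d (X ^ d) z ≤ ‖η‖ * 1 := mul_le_mul_of_nonneg_left h2 (norm_nonneg _)
        _ = ‖η‖ := mul_one _
    have h3 : w 0 * Real.exp (-√d) ≤ w z := by
      have h4 := hw.lip z 0
      have h5 : Real.exp (√d * sg z 0) ≤ Real.exp (√d) := by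
        apply Real.exp_le_exp.mpr
        have := sg_le_one z 0
        nlinarith [Real.sqrt_nonneg (d : ℝ)]
      have h6 : w 0 ≤ w z * Real.exp (√d) :=
        h4.trans (mul_le_mul_of_nonneg_left h5 (hw.pos z).le)
      calc w 0 * Real.exp (-√d) ≤ (w z * Real.exp (√d)) * Real.exp (-√d) :=
            mul_le_mul_of_nonneg_right h6 (Real.exp_pos _).le
        _ = w z := by rw [mul_assoc, ← Real.exp_add]; simp
    calc wm d D z ≤ ‖η‖ := h1
      _ ≤ e * w 0 * Real.exp (-√d) := hηn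
      _ = e * (w 0 * Real.exp (-√d)) := by ring
      _ ≤ e * w z := mul_le_mul_of_nonneg_left h3 he.le
  have hAw : ∀ z, wm d A z ≤ 2 * w z := by
    intro z
    have h1 : wm d A z ≤ wm d (A - P) z + wm d P z := by
      have := wm_add_le d (A - P) P z
      rwa [sub_add_cancel] at this
    have h2 := hAP z
    have h3 := hPw z
    have h4 := hw.pos z
    nlinarith
  have hB1w : ∀ z, wm d B1 z ≤ 2 * w z := by
    intro z
    have h1 : wm d B1 z ≤ wm d (B1 - Q) z + wm d Q z := by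
      have := wm_add_le d (B1 - Q) Q z
      rwa [sub_add_cancel] at this
    have h2 := hBQ z
    have h3 := hQw z
    have h4 := hw.pos z
    nlinarith
  refine ⟨A, B1 + D, hA, ?_, ?_, ?_, ?_, ?_⟩
  · exact natDegree_add_le_of_degree_le hB1 hDdeg
  · rw [coeff_add, hD, coeff_C_mul_X_pow, if_pos rfl]
    exact hηne
  · intro z
    have := hAP z
    have h4 := hw.pos z
    nlinarith
  · intro z
    have h1 : wm d (B1 + D - Q) z ≤ wm d (B1 - Q) z + wm d D z := by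
      have := wm_add_le d (B1 - Q) D z
      rwa [show B1 - Q + D = B1 + D - Q by ring] at this
    have h2 := hBQ z
    have h3 := hDw z
    have h4 := hw.pos z
    nlinarith
  · intro b hb
    have hd1 : 1 ≤ d := by omega
    have hND := NDf_of d b (w b) r1 (hw.pos b) A B1 (hnd b hb)
    exact nz_pert hr1 hr11 he he12
      (sn_EB d hd1 w hw b A hA 2 (by norm_num) (fun z _ => hAw z))
      (sn_EB d hd1 w hw b B1 hB1 2 (by norm_num) (fun z _ => hB1w z))
      (sn_EB d hd1 w hw b D hDdeg e he.le (fun z _ => hDw z))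
      (fun u => sn_add d b (w b) B1 D u) hND

end Pool.Agent.H91.LD
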