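import Pool.Agent.H91.LD.SDefs
import Pool.Agent.H85.LD.Ker

/-!
# [H91 LD TINY] tiny generic perturbation of the numerator

Take `t = C a + C b * X^(d-1)` with `‖a‖, ‖b‖ ≤ δ w(0) exp(-√d)/2`. `wm d t z ≤ ‖a‖ + ‖b‖` (`‖z‖^k ≤ √((1+‖z‖^2)^d)` for `k ≤ d`, `pow_le_wt` in `H85/LD/Ker`)
and `w 0 ≤ w z exp(√d sg z 0) ≤ w z exp √d` (`Wgt.lip`, `sg_le_one`). Since `d ≥ 2` the constant does not change the
coefficients of index `d - 1, d`: `(p.coeff (d-1) + b) * B.coeff d ≠ p.coeff d * B.coeff (d-1)` for all but one `b` (`B.coeff d ≠ 0`).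
Then `p + C b X^(d-1) + a` has no common root with `B ≠ 0` for all but finitely many `a`: coprime
(`Polynomial.isCoprime_iff_aeval_ne_zero_of_isAlgClosed` or by `EuclideanDomain`/`IsAlgClosed`: `isCoprime_of_no_common_root`).
-/

set_option autoImplicit false

open Polynomial MeasureTheory ComplexConjugate

namespace Pool.Agent.H91.LD

open Pool.Agent.H85.LD

theorem tiny (d : ℕ) (hd : 2 ≤ d) (w : ℂ → ℝ) (hw : Wgt d w) (p B : ℂ[X]) (hp : p.natDegree ≤ d)
    (hB : B.natDegree ≤ d) (hBd : B.coeff d ≠ 0) (δ : ℝ) (hδ : 0 < δ) :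
    ∃ t : ℂ[X], t.natDegree ≤ d ∧ (∀ z, wm d t z ≤ δ * w z) ∧ IsCoprime (p + t) B ∧
      (p + t).coeff d * B.coeff (d - 1) ≠ (p + t).coeff (d - 1) * B.coeff d := by
  obtain ⟨ε, hε⟩ : ∃ ε : ℝ, ε = δ * w 0 * Real.exp (-√(d : ℝ)) / 2 := ⟨_, rfl⟩
  have hw0 := hw.pos 0
  have hεpos : 0 < ε := by rw [hε]; positivity
  -- the coefficient of `X ^ (d - 1)`
  obtain ⟨β, hβn, hβ⟩ : ∃ β : ℂ, ‖β‖ ≤ ε ∧
      p.coeff d * B.coeff (d - 1) ≠ (p.coeff (d - 1) + β) * B.coeff d := by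
    by_cases h : p.coeff d * B.coeff (d - 1) = (p.coeff (d - 1) + 0) * B.coeff d
    · refine ⟨(ε : ℂ), ?_, ?_⟩
      · rw [Complex.norm_real, Real.norm_of_nonneg hεpos.le]
      · rw [h]
        intro h2
        have h3 : (ε : ℂ) * B.coeff d = 0 := by linear_combination -h2
        rcases mul_eq_zero.1 h3 with h4 | h4
        · exact hεpos.ne' (by exact_mod_cast h4)
        · exact hBd h4
    · exact ⟨0, by rw [norm_zero]; exact hεpos.le, h⟩
  obtain ⟨q, hq⟩ : ∃ q : ℂ[X], q = p + C β * X ^ (d - 1) := ⟨_, rfl⟩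
  have hB0 : B ≠ 0 := by
    rintro rfl
    exact hBd (coeff_zero d)
  have hinf : (Metric.closedBall (0 : ℂ) ε).Infinite :=
    infinite_of_mem_nhds (0 : ℂ) (Metric.closedBall_mem_nhds 0 hεpos)
  obtain ⟨a, ha, ha2⟩ := hinf.exists_notMem_finset
    (B.roots.toFinset.image (fun r => -(q.eval r)))
  rw [Metric.mem_closedBall, dist_zero_right] at ha
  have hcoef : ∀ k : ℕ, (C a + C β * X ^ (d - 1) : ℂ[X]).coeff k =
      (if k = 0 then a else 0) + (if k = d - 1 then β else 0) := by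
    intro k
    rw [coeff_add, coeff_C, coeff_C_mul, coeff_X_pow]
    congr 1
    split_ifs <;> simp
  refine ⟨C a + C β * X ^ (d - 1), ?_, ?_, ?_, ?_⟩
  · refine (natDegree_add_le _ _).trans (max_le ?_ ?_)
    · rw [natDegree_C]
      exact Nat.zero_le _
    · exact (natDegree_C_mul_X_pow_le _ _).trans (Nat.sub_le _ _)
  · intro z
    have h1 : wm d (C a + C β * X ^ (d - 1)) z ≤ ‖a‖ + ‖β‖ := by
      unfold wm
      have hs := Real.sqrt_pos.mpr (wt_pos d z)
      rw [div_le_iff₀ hs, eval_add, eval_C, eval_mul, eval_C, eval_pow, eval_X]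
      have h2 := pow_le_wt d 0 (Nat.zero_le _) z
      have h3 := pow_le_wt d (d - 1) (Nat.sub_le _ _) z
      rw [pow_zero] at h2
      calc ‖a + β * z ^ (d - 1)‖ ≤ ‖a‖ + ‖β‖ * ‖z‖ ^ (d - 1) := by
            refine (norm_add_le _ _).trans ?_
            rw [norm_mul, norm_pow]
        _ ≤ ‖a‖ * √((1 + ‖z‖ ^ 2) ^ d) + ‖β‖ * √((1 + ‖z‖ ^ 2) ^ d) := by
            have h4 : ‖a‖ * 1 ≤ ‖a‖ * √((1 + ‖z‖ ^ 2) ^ d) :=
              mul_le_mul_of_nonneg_left h2 (norm_nonneg _)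
            have h5 := mul_le_mul_of_nonneg_left h3 (norm_nonneg β)
            linarith
        _ = (‖a‖ + ‖β‖) * √((1 + ‖z‖ ^ 2) ^ d) := by ring
    have h2 : w 0 * Real.exp (-√(d : ℝ)) ≤ w z := by
      have h3 := hw.lip z 0
      have h4 : √(d : ℝ) * sg z 0 ≤ √(d : ℝ) := by
        have := sg_le_one z 0
        have h5 := Real.sqrt_nonneg (d : ℝ)
        nlinarith
      have h5 : w z * Real.exp (√(d : ℝ) * sg z 0) ≤ w z * Real.exp (√(d : ℝ)) :=
        mul_le_mul_of_nonneg_left (Real.exp_le_exp.2 h4) (hw.pos z).le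
      rw [Real.exp_neg, ← div_eq_mul_inv, div_le_iff₀ (Real.exp_pos _)]
      linarith
    have h6 : ‖a‖ + ‖β‖ ≤ δ * (w 0 * Real.exp (-√(d : ℝ))) := by
      have : δ * (w 0 * Real.exp (-√(d : ℝ))) = 2 * ε := by rw [hε]; ring
      rw [this]
      linarith
    exact h1.trans (h6.trans (mul_le_mul_of_nonneg_left h2 hδ.le))
  · rw [isCoprime_iff_aeval_ne_zero_of_isAlgClosed ℂ ℂ]
    intro r
    rw [coe_aeval_eq_eval]
    by_cases hr : B.eval r = 0
    · left
      intro h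
      apply ha2
      rw [Finset.mem_image]
      refine ⟨r, ?_, ?_⟩
      · rw [Multiset.mem_toFinset, mem_roots hB0]
        exact hr
      · have h3 : (p + (C a + C β * X ^ (d - 1))).eval r = q.eval r + a := by
          rw [hq]
          simp only [eval_add, eval_C]
          ring
        rw [h3] at h
        linear_combination -h
    · exact Or.inr hr
  · rw [coeff_add p, coeff_add p, hcoef, hcoef, if_neg (by omega : ¬ d = 0),
      if_neg (by omega : ¬ d = d - 1), if_neg (by omega : ¬ d - 1 = 0), if_pos rfl, add_zero,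
      add_zero, zero_add]
    exact hβ

end Pool.Agent.H91.LD
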