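import Pool.Agent.H91.LD.Crit
import Pool.Agent.H91.LD.Capture
import Pool.Agent.H91.LD.Tiny
import Pool.Agent.H91.LD.Noise2
import Pool.Agent.H91.LD.Consts
import Pool.Agent.H91.LD.Lims
import Pool.Agent.H91.LD.Mass
import Pool.Agent.H85.LD.Env
import Pool.Agent.H85.LD.Pig
import Pool.Agent.H85.LD.Cells
import Pool.Agent.H85.LD.StripD

/-!
# LargeDegree: assembly
-/

set_option autoImplicit false

open Polynomial MeasureTheory ComplexConjugate Filter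

namespace Pool.Agent.H91.LD

open Pool.Agent.H85.LD Pool.Agent.H44.Fatou

/-- a ball around a point of a strip is contained in the strips -/
theorem ball_strips (d m : ℕ) (Λ θ T o μ : ℝ) (v : ℂ) (hT : ‖v‖ + μ ≤ T)
    (h : ∃ l < m, ∃ k : ℤ, (k : ℝ) * (sm d * Λ ^ (m - 1 - l)) + μ ≤ v.re + o ∧
      v.re + o ≤ k * (sm d * Λ ^ (m - 1 - l)) + θ * (sm d * Λ ^ (m - 1 - l)) - μ) :
    Metric.ball v μ ⊆ strips d m Λ θ T o := by
  obtain ⟨l, hl, k, h1, h2⟩ := h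
  intro x hx
  rw [Metric.mem_ball, dist_eq_norm] at hx
  have h3 : |x.re - v.re| ≤ ‖x - v‖ := by
    have := Complex.abs_re_le_norm (x - v)
    simpa using this
  have h4 := abs_le.1 (h3.trans hx.le)
  refine ⟨?_, l, hl, k, by linarith [h4.1], by linarith [h4.2]⟩
  calc ‖x‖ = ‖v + (x - v)‖ := by congr 1; ring
    _ ≤ ‖v‖ + ‖x - v‖ := norm_add_le _ _
    _ ≤ T := by linarith

variable {N : ℕ}

/-- location of the critical values -/
theorem crit_vals (d : ℕ) (hd : 1 ≤ d) (L : ℝ) (hL : 1 ≤ L) (c : ℂ → Fin N) (w : ℂ → ℝ)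
    (hw : Wgt d w) (A B t : ℂ[X]) (hA : A.natDegree ≤ d) (hA2 : ∀ z, wm d A z ≤ 2 * w z)
    (hB : B.natDegree ≤ d) (hB2 : ∀ z, wm d B z ≤ 2 * w z) (ht : t.natDegree ≤ d) (δ : ℝ)
    (hδ : 0 ≤ δ) (htw : ∀ z, wm d t z ≤ δ * w z) (τ : Fin N → ℝ) (S : ℝ) (hS : 0 ≤ S)
    (hτ : ∀ j, |τ j| ≤ S) (r χ0 ρ κ3 θ Λ T o μ : ℝ) (m : ℕ) (hr : 0 < r) (hr1 : r ≤ 1)
    (hχ0 : 0 ≤ χ0) (hκ3 : 0 < κ3) (hρ : 0 < ρ) (hρ1 : ρ ≤ 1 / 4) (hμ : 0 ≤ μ) (hμρ : 2 * μ ≤ ρ / 2)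
    (s : Finset ℂ) (hs : Cov d s) (a : ℂ) (ha : ‖a‖ ≤ 1)
    (hn : ∀ b ∈ s, NDf r (sn d b (w b) A) (sn d b (w b) B))
    (he : (5 * 10 ^ 7 / L + 4 * 10 ^ 5 * χ0 + 2 * 10 ^ 7 * S + 2 * 10 ^ 5 * δ) / r ^ 8 ≤ ρ / 4)
    (hT : 2 + 3 * 10 ^ 6 / κ3 ≤ T) (hμ2 : 2 * μ ≤ θ * sm d / 16)
    (hcop : IsCoprime (pT d L c (Metric.closedBall a ρ ∪ strips d m Λ θ (T + 1) o) A B τ t) B)
    (hst : ∀ b ∈ s, χ0 ≤ chiT d L c (Metric.closedBall a ρ ∪ strips d m Λ θ (T + 1) o) b →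
        ∀ u : ℂ, ‖u‖ ≤ 1 / 2 →
        wr (sn d b (w b) (pT d L c (Metric.closedBall a ρ ∪ strips d m Λ θ (T + 1) o) A B τ t))
          (sn d b (w b) B) u = 0 →
        κ3 ≤ ‖sn d b (w b) B u‖ ∧
        ‖sn d b (w b) (pT d L c (Metric.closedBall a ρ ∪ strips d m Λ θ (T + 1) o) A B τ t) u /
          sn d b (w b) B u‖ ≤ 3 * 10 ^ 6 / κ3 ∧
        ∃ l < m, ∃ k : ℤ, (k : ℝ) * (sm d * Λ ^ (m - 1 - l)) + θ * sm d / 16 ≤
            (sn d b (w b) (pT d L c (Metric.closedBall a ρ ∪ strips d m Λ θ (T + 1) o) A B τ t) u /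
              sn d b (w b) B u).re + (a.re + o) ∧
          (sn d b (w b) (pT d L c (Metric.closedBall a ρ ∪ strips d m Λ θ (T + 1) o) A B τ t) u /
            sn d b (w b) B u).re + (a.re + o) ≤
            k * (sm d * Λ ^ (m - 1 - l)) + θ * (sm d * Λ ^ (m - 1 - l)) - θ * sm d / 16)
    (z : ℂ)
    (hz : (Wr (pT d L c (Metric.closedBall a ρ ∪ strips d m Λ θ (T + 1) o) A B τ t) B).eval z = 0) :
    B.eval z ≠ 0 ∧
      ‖a + (pT d L c (Metric.closedBall a ρ ∪ strips d m Λ θ (T + 1) o) A B τ t).eval z /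
        B.eval z‖ ≤ T ∧
      Metric.ball (a + (pT d L c (Metric.closedBall a ρ ∪ strips d m Λ θ (T + 1) o) A B τ t).eval z /
        B.eval z) (2 * μ) ⊆ Metric.closedBall a ρ ∪ strips d m Λ θ (T + 1) o := by
  set Z := Metric.closedBall a ρ ∪ strips d m Λ θ (T + 1) o with hZ
  set p := pT d L c Z A B τ t with hp
  have hpd : p.natDegree ≤ d := natDegree_pT d L c Z A B τ t ht
  obtain ⟨b, hb, hzb⟩ := hs z
  obtain ⟨u, hu, hm, hph⟩ := chart_pt d hd b z hzb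
  have hwb := hw.pos b
  have hw0 : wr (sn d b (w b) p) (sn d b (w b) B) u = 0 := by
    rw [sn_wr d hd b (w b) hwb p B hpd hB u hm, hph]
    exact hz
  have hrat := sn_ratio d b (w b) hwb p B hpd hB u hm
  rw [hph] at hrat
  have hBz := sn_eq_zero d b (w b) hwb B hB u hm
  have hpz := sn_eq_zero d b (w b) hwb p hpd u hm
  rw [hph] at hBz hpz
  have hT1 : 0 < 3 * 10 ^ 6 / κ3 := by positivity
  rcases le_total (chiT d L c Z b) χ0 with hle | hge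
  · have h0 : sn d b (w b) p u ≠ 0 ∨ sn d b (w b) B u ≠ 0 := by
      rcases coprime_eval hcop z with h | h
      · left; intro h1; exact h (hpz.1 h1)
      · right; intro h1; exact h (hBz.1 h1)
    obtain ⟨h1, h2⟩ := type_one d hd L hL c Z w hw A B t hA hA2 hB hB2 ht δ hδ htw τ S hS hτ r χ0
      hr hr1 hχ0 b hle (hn b hb) u (by linarith) hw0 h0
    have h3 : ‖p.eval z / B.eval z‖ ≤ ρ / 4 := by
      rw [← hrat]; exact h2.trans he
    refine ⟨fun h => h1 (hBz.2 h), ?_, ?_⟩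
    · calc ‖a + p.eval z / B.eval z‖ ≤ ‖a‖ + ‖p.eval z / B.eval z‖ := norm_add_le _ _
        _ ≤ T := by linarith
    · intro x hx
      left
      rw [Metric.mem_ball, dist_eq_norm] at hx
      rw [Metric.mem_closedBall, dist_eq_norm]
      calc ‖x - a‖ = ‖(x - (a + p.eval z / B.eval z)) + p.eval z / B.eval z‖ := by congr 1; ring
        _ ≤ ‖x - (a + p.eval z / B.eval z)‖ + ‖p.eval z / B.eval z‖ := norm_add_le _ _
        _ ≤ ρ := by linarith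
  · obtain ⟨h1, h2, l, hl, k, h3, h4⟩ := hst b hb hge u hu hw0
    rw [hrat] at h2 h3 h4
    have hB0 : B.eval z ≠ 0 := by
      intro h
      rw [hBz.2 h, norm_zero] at h1
      linarith
    have h5 : ‖a + p.eval z / B.eval z‖ ≤ 1 + 3 * 10 ^ 6 / κ3 := by
      calc ‖a + p.eval z / B.eval z‖ ≤ ‖a‖ + ‖p.eval z / B.eval z‖ := norm_add_le _ _
        _ ≤ _ := by linarith
    refine ⟨hB0, by linarith, ?_⟩
    refine (ball_strips d m Λ θ (T + 1) o (2 * μ) _ (by linarith) ⟨l, hl, k, ?_, ?_⟩).trans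
      Set.subset_union_right
    · rw [Complex.add_re]; linarith
    · rw [Complex.add_re]; linarith

/-- the numerator is tiny where the critical values are -/
theorem van_vals (d : ℕ) (hd : 1 ≤ d) (L : ℝ) (hL : 1 ≤ L) (c : ℂ → Fin N) (Z : Set ℂ) (w : ℂ → ℝ)
    (hw : Wgt d w) (A B t : ℂ[X]) (hA : A.natDegree ≤ d) (hA2 : ∀ z, wm d A z ≤ 2 * w z)
    (hB : B.natDegree ≤ d) (hB2 : ∀ z, wm d B z ≤ 2 * w z)
    (htw : ∀ z, wm d t z ≤ 1 / (2 * (d : ℝ) ^ 10) * w z) (τ : Fin N → ℝ)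
    (hτ : ∀ j, |τ j| ≤ 1) (T μ c' : ℝ) (hμ : 0 ≤ μ) (hμ1 : μ ≤ 1) (hc' : μ / (T + 3) ^ 2 = c' * sm d)
    (he : 200 * Real.exp (-(d * (c' * sm d) ^ 2 / 8)) ≤ 1 / (2 * (d : ℝ) ^ 10)) (v : ℂ)
    (hv : ‖v‖ ≤ T + 1) (hb : Metric.ball v μ ⊆ Z) :
    wm d (pT d L c Z A B τ t) v ≤ w v / d ^ 10 := by
  have h1 : ∀ x, x ∉ Z → c' * sm d ≤ sg v x := by
    intro x hx
    have h2 : μ ≤ ‖x - v‖ := by
      by_contra h
      push Not at h
      exact hx (hb (by rw [Metric.mem_ball, dist_eq_norm]; exact h))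
    have h3 := le_sg hv hμ hμ1 h2
    rw [← hc']
    have : T + 1 + 2 = T + 3 := by ring
    rwa [this] at h3
  have hT : 0 ≤ T + 1 := (norm_nonneg _).trans hv
  have hcs : 0 ≤ c' * sm d := by rw [← hc']; positivity
  have h4 := van d hd L hL c Z w hw A B hA hA2 hB hB2 τ hτ v (c' * sm d) hcs h1
  have h5 : wm d (pT d L c Z A B τ t) v ≤
      wm d (Pj d (chiT d L c Z) A + pS d L c Z B τ) v + wm d t v := by
    have : pT d L c Z A B τ t = (Pj d (chiT d L c Z) A + pS d L c Z B τ) + t := by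
      unfold pT; ring
    rw [this]
    exact wm_add_le d _ _ v
  have hwv := hw.pos v
  have h6 : 200 * Real.exp (-(d * (c' * sm d) ^ 2 / 8)) * w v ≤ 1 / (2 * (d : ℝ) ^ 10) * w v :=
    mul_le_mul_of_nonneg_right he hwv.le
  have hd0 : (0 : ℝ) < d ^ 10 := by
    have : (0 : ℝ) < d := by exact_mod_cast hd
    positivity
  calc wm d (pT d L c Z A B τ t) v ≤ _ := h5
    _ ≤ 1 / (2 * (d : ℝ) ^ 10) * w v + 1 / (2 * (d : ℝ) ^ 10) * w v := add_le_add (h4.trans h6) (htw v)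
    _ = w v / d ^ 10 := by field_simp; ring

/-- the distance to the original pair -/
theorem dist_vals (d : ℕ) (hd : 1 ≤ d) (L : ℝ) (hL : 1 ≤ L) (c : ℂ → Fin N) (Z V : Set ℂ)
    (hV : MeasurableSet V) (w : ℂ → ℝ) (hw : Wgt d w) (hw2 : Integrable (fun z => w z ^ 2) mu)
    (P Q A B t : ℂ[X]) (hP : P.natDegree ≤ d) (hQ : Q.natDegree ≤ d) (hA : A.natDegree ≤ d)
    (hA2 : ∀ z, wm d A z ≤ 2 * w z) (hB : B.natDegree ≤ d) (hB2 : ∀ z, wm d B z ≤ 2 * w z)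
    (ht : t.natDegree ≤ d) (δ : ℝ) (hδ : 0 ≤ δ) (htw : ∀ z, wm d t z ≤ δ * w z) (τ : Fin N → ℝ)
    (S : ℝ) (hS : 0 ≤ S) (hτ : ∀ j, |τ j| ≤ S) (e : ℝ) (he : 0 ≤ e) (a s0 : ℂ) (ha : ‖a‖ ≤ 1)
    (hs0 : ‖s0‖ ≤ 4 / √d) (hAP : ∀ z, wm d (A - (P - C a * Q)) z ≤ e * w z)
    (hBQ : ∀ z, wm d (B - Q) z ≤ e * w z)
    (h : ∀ z x, √d * sg z x < L → (c x ≠ c z ∨ x ∈ Z) → z ∈ V) (ν : ℝ)
    (hmass : ∫ z in V, w z ^ 2 ∂mu ≤ ν * ∫ z, w z ^ 2 ∂mu) :
    Nd d (P - (C (a + s0) * B + pT d L c Z A B τ t)) + Nd d (Q - B) ≤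
      (13 * e ^ 2 + 24 * ν + 6 * (64 / d + (100 * S) ^ 2 + δ ^ 2)) *
        ((d + 1) * ∫ z, w z ^ 2 ∂mu) := by
  have hd0 : (0 : ℝ) < d := by exact_mod_cast hd
  set I := (d + 1 : ℝ) * ∫ z, w z ^ 2 ∂mu with hI
  have hI0 : 0 ≤ I := by
    rw [hI]
    have : 0 ≤ ∫ z, w z ^ 2 ∂mu := integral_nonneg fun z => sq_nonneg _
    positivity
  have hCd : ∀ (x : ℂ) (G : ℂ[X]), G.natDegree ≤ d → (C x * G).natDegree ≤ d := fun x G hG =>
    (natDegree_C_mul_le x G).trans hG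
  have hsub : ∀ F G : ℂ[X], F.natDegree ≤ d → G.natDegree ≤ d → (F - G).natDegree ≤ d :=
    fun F G hF hG => (natDegree_sub_le F G).trans (max_le hF hG)
  have hneg : ∀ F : ℂ[X], F.natDegree ≤ d → (-F).natDegree ≤ d := fun F hF => by
    rwa [natDegree_neg]
  have hwsub : ∀ (F G : ℂ[X]) (z : ℂ), wm d (F - G) z = wm d (G - F) z := fun F G z => by
    rw [← wm_neg d (F - G) z, neg_sub]
  let F : Fin 6 → ℂ[X] := ![(P - C a * Q) - A, C a * (Q - B), -(C s0 * B),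
    A - Pj d (chiT d L c Z) A, -(pS d L c Z B τ), -t]
  have hsum : P - (C (a + s0) * B + pT d L c Z A B τ t) = ∑ i, F i := by
    rw [Fin.sum_univ_six]
    simp only [F, Matrix.cons_val_zero, Matrix.cons_val_one, Matrix.cons_val, pT, C_add]
    ring
  have b0 : Nd d (F 0) ≤ e ^ 2 * I := by
    apply Nd_le d w hw2 _ (hsub _ _ (hsub _ _ hP (hCd _ _ hQ)) hA) e he
    intro z
    rw [hwsub]
    exact hAP z
  have b1 : Nd d (F 1) ≤ e ^ 2 * I := by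
    apply Nd_le d w hw2 _ (hCd _ _ (hsub _ _ hQ hB)) e he
    intro z
    rw [wm_C_mul, hwsub]
    calc ‖a‖ * wm d (B - Q) z ≤ 1 * wm d (B - Q) z :=
          mul_le_mul_of_nonneg_right ha (wm_nonneg d _ z)
      _ ≤ e * w z := by rw [one_mul]; exact hBQ z
  have b2 : Nd d (F 2) ≤ 64 / d * I := by
    have : (64 : ℝ) / d = (8 / √d) ^ 2 := by
      rw [div_pow, Real.sq_sqrt hd0.le]; norm_num
    rw [this]
    apply Nd_le d w hw2 _ (hneg _ (hCd _ _ hB)) _ (by positivity)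
    intro z
    rw [wm_neg, wm_C_mul]
    have hwz := hw.pos z
    calc ‖s0‖ * wm d B z ≤ 4 / √d * (2 * w z) :=
          mul_le_mul hs0 (hB2 z) (wm_nonneg d _ z) (by positivity)
      _ = 8 / √d * w z := by ring
  have b3 : Nd d (F 3) ≤ 4 * ν * I := by
    refine (mass d L (by linarith) c Z V hV w hw hw2 A hA hA2 h).trans ?_
    have : (d + 1 : ℝ) * ∫ z in V, w z ^ 2 ∂mu ≤ (d + 1) * (ν * ∫ z, w z ^ 2 ∂mu) :=
      mul_le_mul_of_nonneg_left hmass (by positivity)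
    refine (mul_le_mul_of_nonneg_left this (by norm_num : (0 : ℝ) ≤ 4)).trans (le_of_eq ?_)
    rw [hI]; ring
  have b4 : Nd d (F 4) ≤ (100 * S) ^ 2 * I := by
    apply Nd_le d w hw2 _ (hneg _ (natDegree_pS d L c Z B τ)) _ (by positivity)
    intro z
    rw [wm_neg]
    exact wm_pS d hd L hL c Z w hw B hB hB2 τ S hS hτ z
  have b5 : Nd d (F 5) ≤ δ ^ 2 * I := by
    apply Nd_le d w hw2 _ (hneg _ ht) _ hδ
    intro z
    rw [wm_neg]
    exact htw z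
  have bQ : Nd d (Q - B) ≤ e ^ 2 * I := by
    apply Nd_le d w hw2 _ (hsub _ _ hQ hB) e he
    intro z
    rw [hwsub]
    exact hBQ z
  have h6 := Nd_add6 d F
  have h7 : ∑ i, Nd d (F i) = Nd d (F 0) + Nd d (F 1) + Nd d (F 2) + Nd d (F 3) + Nd d (F 4) +
      Nd d (F 5) := Fin.sum_univ_six _
  rw [h7] at h6
  rw [hsum]
  have : Nd d (F 0) + Nd d (F 1) + Nd d (F 2) + Nd d (F 3) + Nd d (F 4) + Nd d (F 5) ≤
      (2 * e ^ 2 + 64 / d + 4 * ν + (100 * S) ^ 2 + δ ^ 2) * I := by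
    calc _ ≤ e ^ 2 * I + e ^ 2 * I + 64 / d * I + 4 * ν * I + (100 * S) ^ 2 * I + δ ^ 2 * I := by
          linarith
      _ = _ := by ring
  calc Nd d (∑ i, F i) + Nd d (Q - B) ≤
        6 * ((2 * e ^ 2 + 64 / d + 4 * ν + (100 * S) ^ 2 + δ ^ 2) * I) + e ^ 2 * I := by linarith
    _ = _ := by ring

theorem delta_sq (d : ℕ) (hd : 1 ≤ d) : (1 / (2 * (d : ℝ) ^ 10)) ^ 2 ≤ 1 / d := by
  have hd0 : (0 : ℝ) < d := by exact_mod_cast hd
  have h1 : (1 : ℝ) ≤ d := by exact_mod_cast hd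
  have h2 : 1 / (2 * (d : ℝ) ^ 10) ≤ 1 / d := by
    apply one_div_le_one_div_of_le hd0
    have : (d : ℝ) ^ 1 ≤ (d : ℝ) ^ 10 := pow_le_pow_right₀ h1 (by norm_num)
    rw [pow_one] at this
    linarith
  have h3 : (1 : ℝ) / d ≤ 1 := by rw [div_le_one hd0]; exact h1
  have h5 : 0 ≤ 1 / (2 * (d : ℝ) ^ 10) := by positivity
  nlinarith

theorem large_degree_ev (ε : ℝ) (hε : 0 < ε) : ∀ᶠ d : ℕ in atTop, ∀ P Q : ℂ[X],
    P.natDegree ≤ d → Q.natDegree ≤ d → (P ≠ 0 ∨ Q ≠ 0) → ∃ P' Q' : ℂ[X], IsCoprime P' Q' ∧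
      max P'.natDegree Q'.natDegree = d ∧ Hyp1 P' Q' ∧
      Nd d (P - P') + Nd d (Q - Q') ≤ ε * (Nd d P + Nd d Q) := by
  obtain ⟨C0, hC0, henv⟩ := exists_env
  obtain ⟨C2, hC2, htrap⟩ := exists_trap
  obtain ⟨C3, hC3, hcells⟩ := exists_cells
  obtain ⟨ν, hν⟩ : ∃ ν : ℝ, ν = ε / (200 * C0) := ⟨_, rfl⟩
  have hν0 : 0 < ν := by rw [hν]; positivity
  obtain ⟨ρ, hρ⟩ : ∃ ρ : ℝ, ρ = min (1 / 4) (ν / C2) := ⟨_, rfl⟩
  have hρ0 : 0 < ρ := by rw [hρ]; exact lt_min (by norm_num) (by positivity)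
  have hρ1 : ρ ≤ 1 / 4 := by rw [hρ]; exact min_le_left _ _
  have hρν : C2 * ρ ^ 2 ≤ ν := by
    have h1 : ρ ≤ ν / C2 := by rw [hρ]; exact min_le_right _ _
    rw [le_div_iff₀ hC2] at h1
    nlinarith [mul_nonneg hC2.le hρ0.le]
  obtain ⟨e, he⟩ : ∃ e : ℝ, e = min 1 ν := ⟨_, rfl⟩
  have he0 : 0 < e := by rw [he]; exact lt_min one_pos hν0
  have he1 : e ≤ 1 := by rw [he]; exact min_le_left _ _
  have he2 : e ^ 2 ≤ ν := by
    have : e ≤ ν := by rw [he]; exact min_le_right _ _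
    nlinarith
  obtain ⟨r, hr, hr1, hnoise⟩ := noise2 e he0 he1
  obtain ⟨χ0, hχ⟩ : ∃ χ0 : ℝ, χ0 = min 1 (ρ * r ^ 8 / (16 * (4 * 10 ^ 5))) := ⟨_, rfl⟩
  have hχ0 : 0 < χ0 := by rw [hχ]; exact lt_min one_pos (by positivity)
  have hχ1 : χ0 ≤ 1 := by rw [hχ]; exact min_le_left _ _
  have hχ2 : 4 * 10 ^ 5 * χ0 ≤ ρ * r ^ 8 / 16 := by
    have : χ0 ≤ ρ * r ^ 8 / (16 * (4 * 10 ^ 5)) := by rw [hχ]; exact min_le_right _ _
    rw [le_div_iff₀ (by norm_num)] at this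
    linarith
  obtain ⟨η, κ3, C1, m1, -, hK⟩ := exists_Kst (10 ^ 6) χ0 r (by norm_num) hχ0 hχ1 hr hr1
  have hη := hK.η0
  have hκ3 := hK.κ30
  obtain ⟨L, R, θ, m, hL, hLR, hθ, hθ1, hm, l1, l2, l3, l4, l5, l6, l7, l8, l9⟩ :=
    choose_L χ0 η κ3 C3 ν r ρ m1 hχ0 hη hκ3 hC3 hν0 hr hρ0
  obtain ⟨Λ, hΛ⟩ : ∃ Λ : ℝ, Λ = 1000 / (χ0 * θ) := ⟨_, rfl⟩
  have hΛ1 : 1 ≤ Λ := by
    rw [hΛ, le_div_iff₀ (by positivity)]
    nlinarith
  obtain ⟨K0, hK0⟩ : ∃ K0 : ℝ, K0 = 4 / χ0 * Λ ^ (m - 1) := ⟨_, rfl⟩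
  have hK00 : 0 < K0 := by rw [hK0]; positivity
  obtain ⟨T, hT⟩ : ∃ T : ℝ, T = 2 + 3 * 10 ^ 6 / κ3 := ⟨_, rfl⟩
  have hT1 : 1 ≤ T := by
    have : 0 < 3 * 10 ^ 6 / κ3 := by positivity
    linarith
  have ev1 := err_small K0 C1 κ3 θ (min (min η (10 ^ 5)) (ρ * r ^ 8 / 16)) hK.C10 hκ3 hθ
    (lt_min (lt_min hη (by norm_num)) (by positivity))
  have ev2 := exists_strips m Λ θ (T + 1) L hm hΛ1 hθ hθ1 (by linarith) hL
  have ev3 := near_disc L ρ (by linarith) hρ0 hρ1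
  have ev4 := capture r ρ T hr hr1 hρ0 hρ1 hT1
  have ev5 := exp_small 200 (θ / (32 * (T + 3) ^ 2)) (by positivity)
  have ev6 := sm_large (128 / θ)
  have ev7 : ∀ᶠ d : ℕ in atTop, sm d ≤ min ρ (min 1 (ν / (30 * 10 ^ 4)) / K0) :=
    (sm_lim.eventually (ge_mem_nhds (show (0 : ℝ) < min ρ (min 1 (ν / (30 * 10 ^ 4)) / K0) from
      lt_min hρ0 (div_pos (lt_min one_pos (by positivity)) hK00))))
  have ev8 : ∀ᶠ d : ℕ in atTop, (64 : ℝ) / d ≤ ν / 30 :=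
    (tendsto_const_div_atTop_nhds_zero_nat (64 : ℝ)).eventually (ge_mem_nhds (by positivity))
  filter_upwards [ev1, ev2, ev3, ev4, ev5, ev6, ev7, ev8, eventually_ge_atTop 4] with d e1 e2 e3 e4
    e5 e6 e7 e8 hd4 P Q hP hQ h0
  have hd : 1 ≤ d := by omega
  have hd0 : (0 : ℝ) < d := by exact_mod_cast hd
  have hsd : 0 < √(d : ℝ) := Real.sqrt_pos.2 hd0
  have hsd1 : 1 ≤ √(d : ℝ) := by rw [Real.one_le_sqrt]; exact_mod_cast hd
  have hsm := sm_pos d hd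
  obtain ⟨w, hw, hwc, hPQ, hw2, hwI⟩ := henv d hd P Q hP hQ h0
  -- the net
  obtain ⟨s, hs1, hs2⟩ := exists_net (1 / (4 * √(d : ℝ))) (by positivity) (by
    rw [div_le_one (by positivity)]; linarith)
  have hsep : Sep d s := fun b hb b' hb' h => hs1 b hb b' hb' h
  have hcov : Cov d s := hs2
  -- the trap point
  obtain ⟨a, ha, haI⟩ := htrap ρ hρ0 hρ1 (fun z => w z ^ 2) (fun z => sq_nonneg _) hw2
  -- the noise
  have hAd : (P - C a * Q).natDegree ≤ d :=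
    (natDegree_sub_le _ _).trans (max_le hP ((natDegree_C_mul_le a Q).trans hQ))
  have hAw : ∀ z, wm d (P - C a * Q) z ≤ w z := by
    intro z
    have h1 : wm d (P - C a * Q) z ≤ wm d P z + ‖a‖ * wm d Q z := by
      rw [sub_eq_add_neg, ← wm_C_mul, ← wm_neg d (C a * Q) z]
      exact wm_add_le d _ _ z
    have h2 : ‖a‖ * wm d Q z ≤ 1 * wm d Q z := mul_le_mul_of_nonneg_right ha (wm_nonneg d Q z)
    linarith [hPQ z]
  have hQw : ∀ z, wm d Q z ≤ w z := fun z => by linarith [hPQ z, wm_nonneg d P z]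
  obtain ⟨A, B, hA, hB, hBd, hAe, hBe, hn⟩ := hnoise d hd4 s hsep w hw (P - C a * Q) Q hAd hQ hAw hQw
  have h2w : ∀ (F G : ℂ[X]), (∀ z, wm d G z ≤ w z) → (∀ z, wm d (F - G) z ≤ e * w z) →
      ∀ z, wm d F z ≤ 2 * w z := by
    intro F G hG hFG z
    have h1 : wm d F z ≤ wm d (F - G) z + wm d G z := by
      have := wm_add_le d (F - G) G z
      rwa [sub_add_cancel] at this
    have h2 : e * w z ≤ 1 * w z := mul_le_mul_of_nonneg_right he1 (hw.pos z).le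
    linarith [hG z, hFG z]
  have hA2 := h2w A _ hAw hAe
  have hB2 := h2w B _ hQw hBe
  -- the cells and strips
  obtain ⟨N, c, -, hcR, V1, hV1, hV1m, hV1I⟩ := hcells d hd L R hL hLR (fun z => w z ^ 2)
    (fun z => sq_nonneg _) hw2
  obtain ⟨o, V2, hV2, hV2m, hV2I⟩ := e2 (fun z => w z ^ 2) (fun z => sq_nonneg _) hw2
  -- errors
  have hδ0 : (0 : ℝ) ≤ 1 / (2 * (d : ℝ) ^ 10) := by positivity
  have hS : 4 / χ0 * (sm d * Λ ^ (m - 1)) = K0 * sm d := by rw [hK0]; ring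
  have hSle : K0 * sm d ≤ min 1 (ν / (30 * 10 ^ 4)) := by
    have := e7.trans (min_le_right _ _)
    rw [le_div_iff₀ hK00] at this
    linarith
  have e1a := e1.1.trans (min_le_left _ _)
  have e1b := e1.1.trans (min_le_right _ _)
  obtain ⟨τ, hτ, hst⟩ := crit_strips r χ0 η κ3 C1 L R θ Λ m m1 hr hr1 hχ0 hχ1 hK hL (by linarith)
    hθ hθ1 hΛ.ge hm l3 l4 l5 l6 l7 l8 d hd (1 / (2 * (d : ℝ) ^ 10)) hδ0
    (by rw [hS]; exact e1a.trans (min_le_left _ _)) (by rw [hS]; exact e1a.trans (min_le_right _ _))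
    (by rw [hS]; exact e1.2) s hsep w hw A B hA hA2 hB hB2 hn c
    (Metric.closedBall a ρ ∪ strips d m Λ θ (T + 1) o) hcR (a.re + o)
  rw [hS] at hτ
  have hpd : (Pj d (chiT d L c (Metric.closedBall a ρ ∪ strips d m Λ θ (T + 1) o)) A +
      pS d L c (Metric.closedBall a ρ ∪ strips d m Λ θ (T + 1) o) B τ).natDegree ≤ d :=
    (natDegree_add_le _ _).trans (max_le (Pj_deg d _ A) (natDegree_pS d L c _ B τ))
  obtain ⟨t, ht, htw, hcop, hinf⟩ := tiny d (by omega) w hw _ B hpd hB hBd (1 / (2 * (d : ℝ) ^ 10))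
    (by positivity)
  have hpT : Pj d (chiT d L c (Metric.closedBall a ρ ∪ strips d m Λ θ (T + 1) o)) A +
      pS d L c (Metric.closedBall a ρ ∪ strips d m Λ θ (T + 1) o) B τ + t =
      pT d L c (Metric.closedBall a ρ ∪ strips d m Λ θ (T + 1) o) A B τ t := by
    unfold pT; ring
  rw [hpT] at hcop hinf
  have hμ0 : 0 ≤ θ * sm d / 32 := by positivity
  have hsmρ : sm d ≤ ρ := e7.trans (min_le_left _ _)
  have hμρ : θ * sm d / 32 ≤ ρ / 4 := by nlinarith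
  have hN2 : N2 r d s w B := fun b hb u hu h => (hn b hb).n2 u hu h
  -- capture
  obtain ⟨s0, hs0, hcop', hHyp⟩ := e4 s w B hcov hw hB hBd hB2 hN2
    (pT d L c (Metric.closedBall a ρ ∪ strips d m Λ θ (T + 1) o) A B τ t)
    (natDegree_pT d L c _ A B τ t ht) hcop hinf a ha
    (Metric.closedBall a ρ ∪ strips d m Λ θ (T + 1) o) (θ * sm d / 32)
    (by
      rw [div_div, div_le_iff₀ (by positivity)] at e6
      rw [div_le_div_iff₀ hsd (by norm_num)]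
      nlinarith)
    hμρ Set.subset_union_left
    (fun v hv hb => van_vals d hd L hL c _ w hw A B t hA hA2 hB hB2 htw τ
      (fun j => (hτ j).trans (hSle.trans (min_le_left _ _))) T (θ * sm d / 32)
      (θ / (32 * (T + 3) ^ 2)) hμ0 (by linarith) (by field_simp) e5 v hv hb)
    (fun z hz => crit_vals d hd L hL c w hw A B t hA hA2 hB hB2 ht (1 / (2 * (d : ℝ) ^ 10)) hδ0
      htw τ (K0 * sm d) (by positivity) hτ r χ0 ρ κ3 θ Λ T o (θ * sm d / 32) m hr hr1 hχ0.le hκ3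
      hρ0 hρ1 hμ0 (by linarith) s hcov a ha hn
      (by
        rw [div_le_iff₀ (by positivity)]
        rw [div_le_iff₀ (by positivity)] at l9
        nlinarith [pow_pos hr 8]) hT.ge (by linarith) hcop
      (fun b hb hbχ u hu hwr => hst t ht htw b hb hbχ u hu hwr) z hz)
  refine ⟨_, B, hcop', ?_, hHyp, ?_⟩
  · have h1 : B.natDegree = d := le_antisymm hB (le_natDegree_of_ne_zero hBd)
    have h2 : (C (a + s0) * B + pT d L c (Metric.closedBall a ρ ∪ strips d m Λ θ (T + 1) o) A B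
        τ t).natDegree ≤ d :=
      (natDegree_add_le _ _).trans (max_le ((natDegree_C_mul_le _ B).trans hB)
        (natDegree_pT d L c _ A B τ t ht))
    rw [h1]
    exact max_eq_right h2
  · -- distance
    have hVm : ∀ z x, √(d : ℝ) * sg z x < L →
        (c x ≠ c z ∨ x ∈ Metric.closedBall a ρ ∪ strips d m Λ θ (T + 1) o) →
        z ∈ Metric.closedBall a (2 * ρ) ∪ V1 ∪ V2 := by
      intro z x hzx h
      rcases h with h | h | h
      · exact Or.inl (Or.inr (hV1m z x hzx h))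
      · exact Or.inl (Or.inl (e3 a z x ha h hzx))
      · exact Or.inr (hV2m z x h hzx)
    have hI0 : 0 ≤ ∫ z, w z ^ 2 ∂mu := integral_nonneg fun z => sq_nonneg _
    have hmass : ∫ z in Metric.closedBall a (2 * ρ) ∪ V1 ∪ V2, w z ^ 2 ∂mu ≤
        3 * ν * ∫ z, w z ^ 2 ∂mu := by
      have h1 := int_union (fun z => w z ^ 2) (fun z => sq_nonneg _) hw2
        (Metric.closedBall a (2 * ρ)) V1 V2 Metric.isClosed_closedBall.measurableSet hV1 hV2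
      have h2 : C2 * ρ ^ 2 * ∫ z, w z ^ 2 ∂mu ≤ ν * ∫ z, w z ^ 2 ∂mu :=
        mul_le_mul_of_nonneg_right hρν hI0
      have h3 : C3 * (L / R) * ∫ z, w z ^ 2 ∂mu ≤ ν * ∫ z, w z ^ 2 ∂mu :=
        mul_le_mul_of_nonneg_right l1 hI0
      have h4 : 20 * m * θ * ∫ z, w z ^ 2 ∂mu ≤ ν * ∫ z, w z ^ 2 ∂mu :=
        mul_le_mul_of_nonneg_right l2 hI0
      linarith
    have hdist := dist_vals d hd L hL c (Metric.closedBall a ρ ∪ strips d m Λ θ (T + 1) o)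
      (Metric.closedBall a (2 * ρ) ∪ V1 ∪ V2)
      ((Metric.isClosed_closedBall.measurableSet.union hV1).union hV2) w hw hw2 P Q A B t hP hQ hA
      hA2 hB hB2 ht (1 / (2 * (d : ℝ) ^ 10)) hδ0 htw τ (K0 * sm d) (by positivity) hτ e he0.le a s0
      ha hs0 hAe hBe hVm (3 * ν) hmass
    refine hdist.trans ?_
    have hN : 0 ≤ (d + 1 : ℝ) * ∫ z, w z ^ 2 ∂mu := by positivity
    have hS1 : K0 * sm d ≤ 1 := hSle.trans (min_le_left _ _)
    have hS2 : K0 * sm d ≤ ν / (30 * 10 ^ 4) := hSle.trans (min_le_right _ _)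
    have hS0 : 0 ≤ K0 * sm d := by positivity
    have hS3 : (100 * (K0 * sm d)) ^ 2 ≤ ν / 30 := by
      have : (K0 * sm d) ^ 2 ≤ ν / (30 * 10 ^ 4) := by nlinarith
      nlinarith
    have hδ2 : (1 / (2 * (d : ℝ) ^ 10)) ^ 2 ≤ ν / 30 := (delta_sq d hd).trans
      (le_trans (div_le_div_of_nonneg_right (by norm_num) hd0.le) e8)
    calc (13 * e ^ 2 + 24 * (3 * ν) + 6 * (64 / d + (100 * (K0 * sm d)) ^ 2 +
          (1 / (2 * (d : ℝ) ^ 10)) ^ 2)) * ((d + 1) * ∫ z, w z ^ 2 ∂mu) ≤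
        (200 * ν) * ((d + 1) * ∫ z, w z ^ 2 ∂mu) := by
          apply mul_le_mul_of_nonneg_right _ hN
          linarith
      _ ≤ (200 * ν) * (C0 * (Nd d P + Nd d Q)) := mul_le_mul_of_nonneg_left hwI (by positivity)
      _ = ε * (Nd d P + Nd d Q) := by
        rw [hν]; field_simp

end Pool.Agent.H91.LD
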