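import Pool.Agent.H91.LD.EBasic
import Pool.Agent.H85.LD.ScB

/-!
# [H91 LD SN] normalised charts

`sn d b ω G u = (Gc d b G).eval (u/√d) / ω`.

Proofs. `sn_add`, `sn_C_mul`, `sn_sum`, `sn_sub`: `Gc_add`, `Gc_C_mul`, `Gc_sum`. `sn_EB`: `sc_diff`, `sc_le` (both in `H85/LD/ScB`), divide by
`w b > 0`. `sn_sum_le`: for fixed `u` choose `ζ j` of modulus one (or zero) with `ζ j * sn (F j) u = ‖sn (F j) u‖` and apply `sn_EB`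
to `∑ j, C (ζ j) * F j` (`wm_add_le`, `wm_C_mul` in `H85/LD/Ker`: `wm (∑ ζ_j F_j) ≤ ∑ wm F_j`).
`chart_pt`: for `sg z b < 1/(4√d)` we have `1 + conj b z ≠ 0` (`one_sub_sg_sq`, `sg < 1`), put `t = ph (-b) z`, `u = √d t`
(`ph_ph`); `sg b z = ‖t‖/√(1+‖t‖^2)` (`sg_ph_zero`), so `‖t‖ = sg/√(1-sg^2) ≤ 2 sg` and `‖u‖ ≤ 1/2`.
`sn_ratio`, `sn_norm`: `Gc_eval`, `wm_ph` (`H85/LD/Chart`).
`sn_wr`: near `u`, with `φ u = ph b (u/√d)`, `m u = 1 - conj b (u/√d) ≠ 0`: `sn G = k m^d (G ∘ φ)` with a constant `k ≠ 0`, so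
`wr (sn F) (sn G) u = k^2 m^(2d) φ' (Wr F G)(φ u)` and `φ' = (1+‖b‖^2)/(√d m^2) ≠ 0`.
`NDf_of`: divide the three conditions of `noise` by `w b`, `w b`, `w b ^2`; `deriv (f/ω) = (deriv f)/ω`,
`wr (f/ω) (g/ω) = (wr f g)/ω^2`; `Wc`, `Wc1` are `wr`, `wr1` of `sc P`, `sc Q`.
-/

set_option autoImplicit false

open Polynomial MeasureTheory ComplexConjugate

namespace Pool.Agent.H91.LD

open Pool.Agent.H85.LD Pool.Agent.H44.Fatou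

theorem sn_add (d : ℕ) (b : ℂ) (ω : ℝ) (F G : ℂ[X]) (u : ℂ) :
    sn d b ω (F + G) u = sn d b ω F u + sn d b ω G u := by
  unfold sn
  rw [sc_add, add_div]

theorem sn_sub (d : ℕ) (b : ℂ) (ω : ℝ) (F G : ℂ[X]) (u : ℂ) :
    sn d b ω (F - G) u = sn d b ω F u - sn d b ω G u := by
  have h1 : F - G = F + C (-1) * G := by
    rw [C_neg, C_1]
    ring
  unfold sn
  rw [h1, sc_add]
  have h2 : sc d b (C (-1) * G) u = - sc d b G u := by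
    unfold sc
    rw [Gc_C_mul, eval_mul, eval_C]
    ring
  rw [h2]
  ring

theorem sn_C_mul (d : ℕ) (b : ℂ) (ω : ℝ) (c : ℂ) (F : ℂ[X]) (u : ℂ) :
    sn d b ω (C c * F) u = c * sn d b ω F u := by
  unfold sn sc
  rw [Gc_C_mul, eval_mul, eval_C, mul_div_assoc]

theorem sn_sum (d : ℕ) (b : ℂ) (ω : ℝ) {ι : Type} (s : Finset ι) (F : ι → ℂ[X]) (u : ℂ) :
    sn d b ω (∑ i ∈ s, F i) u = ∑ i ∈ s, sn d b ω (F i) u := by
  unfold sn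
  rw [sc_sum, Finset.sum_div]

theorem sn_EB (d : ℕ) (hd : 1 ≤ d) (w : ℂ → ℝ) (hw : Wgt d w) (b : ℂ) (G : ℂ[X])
    (hG : G.natDegree ≤ d) (B : ℝ) (hB : 0 ≤ B)
    (h : ∀ z, √d * sg b z ≤ 4 → wm d G z ≤ B * w z) : EB (sn d b (w b) G) (2 * 10 ^ 5 * B) := by
  have hwb := hw.pos b
  refine ⟨(sc_diff d b G).div_const _, fun u hu => ?_⟩
  unfold sn
  rw [norm_div, Complex.norm_real, Real.norm_of_nonneg hwb.le, div_le_iff₀ hwb]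
  exact sc_le d hd w hw b G hG B hB h u hu

theorem sn_sum_le (d : ℕ) (hd : 1 ≤ d) (w : ℂ → ℝ) (hw : Wgt d w) (b : ℂ) {ι : Type}
    (s : Finset ι) (F : ι → ℂ[X]) (hF : ∀ i ∈ s, (F i).natDegree ≤ d) (B : ℝ) (hB : 0 ≤ B)
    (h : ∀ z, √d * sg b z ≤ 4 → ∑ i ∈ s, wm d (F i) z ≤ B * w z) (u : ℂ) (hu : ‖u‖ ≤ 4) :
    ∑ i ∈ s, ‖sn d b (w b) (F i) u‖ ≤ 2 * 10 ^ 5 * B := by
  classical
  obtain ⟨ζ, hζ⟩ : ∃ ζ : ι → ℂ, ∀ i, ‖ζ i‖ ≤ 1 ∧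
      ζ i * sn d b (w b) (F i) u = ((‖sn d b (w b) (F i) u‖ : ℝ) : ℂ) := by
    have h1 : ∀ i, ∃ z : ℂ, ‖z‖ ≤ 1 ∧
        z * sn d b (w b) (F i) u = ((‖sn d b (w b) (F i) u‖ : ℝ) : ℂ) := by
      intro i
      by_cases h0 : sn d b (w b) (F i) u = 0
      · exact ⟨0, by simp, by rw [h0]; simp⟩
      · have hn : ‖sn d b (w b) (F i) u‖ ≠ 0 := norm_ne_zero_iff.2 h0
        refine ⟨((‖sn d b (w b) (F i) u‖ : ℝ) : ℂ) / sn d b (w b) (F i) u, ?_, div_mul_cancel₀ _ h0⟩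
        rw [norm_div, Complex.norm_real, norm_norm, div_self hn]
    choose z hz using h1
    exact ⟨z, hz⟩
  have hG : (∑ i ∈ s, C (ζ i) * F i).natDegree ≤ d :=
    natDegree_sum_le_of_forall_le _ _ (fun i hi => (natDegree_C_mul_le _ _).trans (hF i hi))
  have hwm : ∀ z, √d * sg b z ≤ 4 → wm d (∑ i ∈ s, C (ζ i) * F i) z ≤ B * w z := by
    intro z hz
    refine le_trans ?_ (h z hz)
    have h1 : wm d (∑ i ∈ s, C (ζ i) * F i) z ≤ ∑ i ∈ s, wm d (C (ζ i) * F i) z := by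
      unfold wm
      rw [eval_finsetSum, ← Finset.sum_div]
      gcongr
      exact norm_sum_le _ _
    refine h1.trans (Finset.sum_le_sum (fun i _ => ?_))
    rw [wm_C_mul]
    have h2 := wm_nonneg d (F i) z
    have h3 := (hζ i).1
    nlinarith
  have h1 := (sn_EB d hd w hw b _ hG B hB hwm).2 u hu
  have h2 : sn d b (w b) (∑ i ∈ s, C (ζ i) * F i) u =
      ((∑ i ∈ s, ‖sn d b (w b) (F i) u‖ : ℝ) : ℂ) := by
    rw [sn_sum, Complex.ofReal_sum]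
    refine Finset.sum_congr rfl (fun i _ => ?_)
    rw [sn_C_mul, (hζ i).2]
  rw [h2, Complex.norm_real, Real.norm_of_nonneg (Finset.sum_nonneg (fun i _ => norm_nonneg _))] at h1
  exact h1

theorem chart_pt (d : ℕ) (hd : 1 ≤ d) (b z : ℂ) (h : sg z b < 1 / (4 * √d)) :
    ∃ u : ℂ, ‖u‖ ≤ 1 / 2 ∧ 1 - conj b * (u / ((√d : ℝ) : ℂ)) ≠ 0 ∧ ph b (u / ((√d : ℝ) : ℂ)) = z := by
  have hd0 : (1 : ℝ) ≤ √d := by
    rw [Real.one_le_sqrt]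
    exact_mod_cast hd
  have hdp : (0 : ℝ) < √d := by linarith
  have hs0 := sg_nonneg z b
  have hs1 : √d * sg z b < 1 / 4 := by
    rw [lt_div_iff₀ (by positivity)] at h
    linarith
  have hs2 : sg z b < 1 / 4 := by
    have h1 : 1 * sg z b ≤ √d * sg z b := mul_le_mul_of_nonneg_right hd0 hs0
    linarith
  have hne : 1 + conj b * z ≠ 0 := by
    intro h0
    have h1 := one_sub_sg_sq z b
    rw [mul_comm z, h0, norm_zero] at h1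
    have h2 : (0 : ℝ) ^ 2 / ((1 + ‖z‖ ^ 2) * (1 + ‖b‖ ^ 2)) = 0 := by
      rw [zero_pow two_ne_zero, zero_div]
    rw [h2] at h1
    nlinarith
  obtain ⟨h1, h2⟩ := ph_ph b z hne
  have hD : ((√d : ℝ) : ℂ) ≠ 0 := by exact_mod_cast hdp.ne'
  have hu : ((√d : ℝ) : ℂ) * ph (-b) z / ((√d : ℝ) : ℂ) = ph (-b) z := mul_div_cancel_left₀ _ hD
  refine ⟨((√d : ℝ) : ℂ) * ph (-b) z, ?_, by rw [hu]; exact h1, by rw [hu]; exact h2⟩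
  rw [norm_mul, Complex.norm_real, Real.norm_of_nonneg hdp.le]
  obtain ⟨t, ht⟩ : ∃ t : ℝ, t = ‖ph (-b) z‖ := ⟨_, rfl⟩
  have ht0 : 0 ≤ t := by rw [ht]; exact norm_nonneg _
  have h3 := sg_ph_zero b (ph (-b) z) h1
  rw [h2, sg_comm, ← ht] at h3
  rw [← ht]
  have h4 : 0 < √(1 + t ^ 2) := Real.sqrt_pos.2 (by positivity)
  have h5 : t ≤ 2 * sg z b := by
    rw [h3]
    rw [h3] at hs2
    rw [div_lt_iff₀ h4] at hs2
    have h6 : √(1 + t ^ 2) ^ 2 = 1 + t ^ 2 := Real.sq_sqrt (by positivity)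
    have h7 : √(1 + t ^ 2) ≤ 2 := by
      rw [Real.sqrt_le_left (by norm_num)]
      nlinarith
    rw [mul_div_assoc', le_div_iff₀ h4]
    nlinarith
  have h6 : √d * t ≤ √d * (2 * sg z b) := mul_le_mul_of_nonneg_left h5 hdp.le
  linarith

theorem sn_eval (d : ℕ) (b : ℂ) (ω : ℝ) (G : ℂ[X]) (hG : G.natDegree ≤ d) (u : ℂ)
    (hm : 1 - conj b * (u / ((√d : ℝ) : ℂ)) ≠ 0) :
    sn d b ω G u = ((1 / √((1 + ‖b‖ ^ 2) ^ d) : ℝ) : ℂ) *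
      (1 - conj b * (u / ((√d : ℝ) : ℂ))) ^ d / (ω : ℂ) * G.eval (ph b (u / ((√d : ℝ) : ℂ))) := by
  unfold sn sc
  rw [Gc_eval d b G hG _ hm]
  ring

theorem sn_norm (d : ℕ) (b : ℂ) (ω : ℝ) (hω : 0 < ω) (G : ℂ[X]) (hG : G.natDegree ≤ d) (u : ℂ)
    (hm : 1 - conj b * (u / ((√d : ℝ) : ℂ)) ≠ 0) :
    ‖sn d b ω G u‖ = wm d G (ph b (u / ((√d : ℝ) : ℂ))) * √((1 + ‖u‖ ^ 2 / d) ^ d) / ω := by
  have h1 := wm_ph d b G hG _ hm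
  have hS : 0 < √((1 + ‖u / ((√d : ℝ) : ℂ)‖ ^ 2) ^ d) := Real.sqrt_pos.2 (by positivity)
  rw [eq_div_iff hS.ne'] at h1
  have h2 : ‖u / ((√d : ℝ) : ℂ)‖ ^ 2 = ‖u‖ ^ 2 / d := by
    rw [norm_div, Complex.norm_real, Real.norm_of_nonneg (Real.sqrt_nonneg _), div_pow,
      Real.sq_sqrt (Nat.cast_nonneg d)]
  rw [h2] at h1
  rw [h1]
  unfold sn sc
  rw [norm_div, Complex.norm_real, Real.norm_of_nonneg hω.le]

theorem sn_ratio (d : ℕ) (b : ℂ) (ω : ℝ) (hω : 0 < ω) (F G : ℂ[X]) (hF : F.natDegree ≤ d)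
    (hG : G.natDegree ≤ d) (u : ℂ) (hm : 1 - conj b * (u / ((√d : ℝ) : ℂ)) ≠ 0) :
    sn d b ω F u / sn d b ω G u =
      F.eval (ph b (u / ((√d : ℝ) : ℂ))) / G.eval (ph b (u / ((√d : ℝ) : ℂ))) := by
  have hk : ((1 / √((1 + ‖b‖ ^ 2) ^ d) : ℝ) : ℂ) * (1 - conj b * (u / ((√d : ℝ) : ℂ))) ^ d /
      (ω : ℂ) ≠ 0 := by
    have h1 : (1 / √((1 + ‖b‖ ^ 2) ^ d) : ℝ) ≠ 0 := by positivity
    have h2 : ((1 / √((1 + ‖b‖ ^ 2) ^ d) : ℝ) : ℂ) ≠ 0 := by exact_mod_cast h1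
    have h3 : (ω : ℂ) ≠ 0 := by exact_mod_cast hω.ne'
    exact div_ne_zero (mul_ne_zero h2 (pow_ne_zero d hm)) h3
  rw [sn_eval d b ω F hF u hm, sn_eval d b ω G hG u hm, mul_div_mul_left _ _ hk]

theorem sn_eq_zero (d : ℕ) (b : ℂ) (ω : ℝ) (hω : 0 < ω) (G : ℂ[X])
    (hG : G.natDegree ≤ d) (u : ℂ) (hm : 1 - conj b * (u / ((√d : ℝ) : ℂ)) ≠ 0) :
    sn d b ω G u = 0 ↔ G.eval (ph b (u / ((√d : ℝ) : ℂ))) = 0 := by
  have hk : ((1 / √((1 + ‖b‖ ^ 2) ^ d) : ℝ) : ℂ) * (1 - conj b * (u / ((√d : ℝ) : ℂ))) ^ d /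
      (ω : ℂ) ≠ 0 := by
    have h1 : (1 / √((1 + ‖b‖ ^ 2) ^ d) : ℝ) ≠ 0 := by positivity
    have h2 : ((1 / √((1 + ‖b‖ ^ 2) ^ d) : ℝ) : ℂ) ≠ 0 := by exact_mod_cast h1
    have h3 : (ω : ℂ) ≠ 0 := by exact_mod_cast hω.ne'
    exact div_ne_zero (mul_ne_zero h2 (pow_ne_zero d hm)) h3
  rw [sn_eval d b ω G hG u hm]
  exact ⟨fun h => (mul_eq_zero.1 h).resolve_left hk, fun h => by rw [h, mul_zero]⟩

theorem sn_wr (d : ℕ) (hd : 1 ≤ d) (b : ℂ) (ω : ℝ) (hω : 0 < ω) (F G : ℂ[X])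
    (hF : F.natDegree ≤ d) (hG : G.natDegree ≤ d) (u : ℂ)
    (hm : 1 - conj b * (u / ((√d : ℝ) : ℂ)) ≠ 0) :
    wr (sn d b ω F) (sn d b ω G) u = 0 ↔ (Wr F G).eval (ph b (u / ((√d : ℝ) : ℂ))) = 0 := by
  have hd0 : (0 : ℝ) < √d := Real.sqrt_pos.2 (by exact_mod_cast (by omega : 0 < d))
  have hD : ((√d : ℝ) : ℂ) ≠ 0 := by exact_mod_cast hd0.ne'
  obtain ⟨A, hA⟩ : ∃ A : ℂ → ℂ, A = fun v => ((1 / √((1 + ‖b‖ ^ 2) ^ d) : ℝ) : ℂ) *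
      (1 - conj b * (v / ((√d : ℝ) : ℂ))) ^ d / (ω : ℂ) := ⟨_, rfl⟩
  obtain ⟨φ, hφ⟩ : ∃ φ : ℂ → ℂ, φ = fun v => ph b (v / ((√d : ℝ) : ℂ)) := ⟨_, rfl⟩
  have hAd : DifferentiableAt ℂ A u := by
    rw [hA]
    fun_prop
  have hA0 : A u ≠ 0 := by
    rw [hA]
    have h1 : (1 / √((1 + ‖b‖ ^ 2) ^ d) : ℝ) ≠ 0 := by positivity
    have h2 : ((1 / √((1 + ‖b‖ ^ 2) ^ d) : ℝ) : ℂ) ≠ 0 := by exact_mod_cast h1
    have h3 : (ω : ℂ) ≠ 0 := by exact_mod_cast hω.ne'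
    exact div_ne_zero (mul_ne_zero h2 (pow_ne_zero d hm)) h3
  -- the derivative of `φ`
  obtain ⟨c, hc0, hφd⟩ : ∃ c : ℂ, c ≠ 0 ∧ HasDerivAt φ c u := by
    have h0 : HasDerivAt (fun v : ℂ => v / ((√d : ℝ) : ℂ)) (1 / ((√d : ℝ) : ℂ)) u :=
      (hasDerivAt_id u).div_const _
    have h1 : HasDerivAt (fun v : ℂ => b + v / ((√d : ℝ) : ℂ)) (1 / ((√d : ℝ) : ℂ)) u :=
      h0.const_add b
    have h2 : HasDerivAt (fun v : ℂ => 1 - conj b * (v / ((√d : ℝ) : ℂ)))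
        (-(conj b * (1 / ((√d : ℝ) : ℂ)))) u := (h0.const_mul (conj b)).const_sub 1
    have h3 := h1.div h2 hm
    have hbb : b * conj b = ((‖b‖ ^ 2 : ℝ) : ℂ) := by
      rw [Complex.mul_conj, Complex.normSq_eq_norm_sq]
    have h4 : (1 / ((√d : ℝ) : ℂ) * (1 - conj b * (u / ((√d : ℝ) : ℂ))) -
        (b + u / ((√d : ℝ) : ℂ)) * -(conj b * (1 / ((√d : ℝ) : ℂ)))) /
        (1 - conj b * (u / ((√d : ℝ) : ℂ))) ^ 2 =
        ((1 + ‖b‖ ^ 2 : ℝ) : ℂ) / ((√d : ℝ) : ℂ) / (1 - conj b * (u / ((√d : ℝ) : ℂ))) ^ 2 := by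
      congr 1
      have h5 : (1 / ((√d : ℝ) : ℂ) * (1 - conj b * (u / ((√d : ℝ) : ℂ))) -
        (b + u / ((√d : ℝ) : ℂ)) * -(conj b * (1 / ((√d : ℝ) : ℂ)))) =
          (1 + b * conj b) / ((√d : ℝ) : ℂ) := by ring
      rw [h5, hbb]
      push_cast
      rfl
    rw [h4] at h3
    refine ⟨((1 + ‖b‖ ^ 2 : ℝ) : ℂ) / ((√d : ℝ) : ℂ) / (1 - conj b * (u / ((√d : ℝ) : ℂ))) ^ 2,
      ?_, ?_⟩
    · have h5 : (1 + ‖b‖ ^ 2 : ℝ) ≠ 0 := by positivity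
      have h6 : ((1 + ‖b‖ ^ 2 : ℝ) : ℂ) ≠ 0 := by exact_mod_cast h5
      exact div_ne_zero (div_ne_zero h6 hD) (pow_ne_zero 2 hm)
    · rw [hφ]
      exact h3
  have hev : ∀ᶠ v in nhds u, 1 - conj b * (v / ((√d : ℝ) : ℂ)) ≠ 0 := by
    have h1 : ContinuousAt (fun v : ℂ => 1 - conj b * (v / ((√d : ℝ) : ℂ))) u := by fun_prop
    exact h1.eventually_ne hm
  have hrep : ∀ H : ℂ[X], H.natDegree ≤ d →
      sn d b ω H =ᶠ[nhds u] fun v => A v * H.eval (φ v) := by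
    intro H hH
    filter_upwards [hev] with v hv
    rw [sn_eval d b ω H hH v hv, hA, hφ]
  have hderiv : ∀ H : ℂ[X], H.natDegree ≤ d → deriv (sn d b ω H) u =
      deriv A u * H.eval (φ u) + A u * (H.derivative.eval (φ u) * c) := by
    intro H hH
    rw [(hrep H hH).deriv_eq]
    have h1 : HasDerivAt (fun v => H.eval (φ v)) (H.derivative.eval (φ u) * c) u :=
      (H.hasDerivAt (φ u)).comp u hφd
    exact (hAd.hasDerivAt.mul h1).deriv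
  have hval : ∀ H : ℂ[X], H.natDegree ≤ d → sn d b ω H u = A u * H.eval (φ u) := by
    intro H hH
    exact (hrep H hH).self_of_nhds
  have hwr : wr (sn d b ω F) (sn d b ω G) u = (A u ^ 2 * c) * (Wr F G).eval (φ u) := by
    unfold wr Wr
    rw [hderiv F hF, hderiv G hG, hval F hF, hval G hG, eval_sub, eval_mul, eval_mul]
    ring
  rw [hwr]
  have hφu : φ u = ph b (u / ((√d : ℝ) : ℂ)) := by rw [hφ]
  rw [← hφu]
  have hk : A u ^ 2 * c ≠ 0 := mul_ne_zero (pow_ne_zero 2 hA0) hc0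
  exact ⟨fun h => (mul_eq_zero.1 h).resolve_left hk, fun h => by rw [h, mul_zero]⟩

theorem NDf_of (d : ℕ) (b : ℂ) (ω r : ℝ) (hω : 0 < ω) (P Q : ℂ[X])
    (h : ∀ u : ℂ, ‖u‖ ≤ 1 → r * ω ≤ ‖sc d b P u‖ + ‖sc d b Q u‖ ∧
        (‖sc d b Q u‖ < r ^ 8 * ω → r ^ 4 * ω ≤ ‖deriv (sc d b Q) u‖) ∧
        (‖Wc d b P Q u‖ < r ^ 8 * ω ^ 2 → r ^ 4 * ω ^ 2 ≤ ‖Wc1 d b P Q u‖)) :
    NDf r (sn d b ω P) (sn d b ω Q) := by
  have hω' : (ω : ℂ) ≠ 0 := by exact_mod_cast hω.ne'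
  have hn : ‖(ω : ℂ)‖ = ω := by rw [Complex.norm_real, Real.norm_of_nonneg hω.le]
  have hd1 : ∀ G : ℂ[X], deriv (sn d b ω G) = fun u => deriv (sc d b G) u / (ω : ℂ) := by
    intro G
    funext u
    unfold sn
    rw [deriv_div_const]
  have hd2 : ∀ G : ℂ[X], deriv (deriv (sn d b ω G)) = fun u => deriv (deriv (sc d b G)) u / (ω : ℂ) := by
    intro G
    rw [hd1]
    funext u
    rw [deriv_div_const]
  have hw : ∀ u, wr (sn d b ω P) (sn d b ω Q) u = Wc d b P Q u / (ω : ℂ) ^ 2 := by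
    intro u
    unfold wr Wc
    rw [hd1, hd1]
    unfold sn
    field_simp
  have hw1 : ∀ u, wr1 (sn d b ω P) (sn d b ω Q) u = Wc1 d b P Q u / (ω : ℂ) ^ 2 := by
    intro u
    unfold wr1 Wc1
    rw [hd2, hd2]
    unfold sn
    field_simp
  refine ⟨fun u hu => ?_, fun u hu hlt => ?_, fun u hu hlt => ?_⟩
  · have h1 := (h u hu).1
    unfold sn
    rw [norm_div, norm_div, hn, ← add_div, le_div_iff₀ hω]
    exact h1
  · rw [hd1]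
    show r ^ 4 ≤ ‖deriv (sc d b Q) u / (ω : ℂ)‖
    unfold sn at hlt
    rw [norm_div, hn, div_lt_iff₀ hω] at hlt
    rw [norm_div, hn, le_div_iff₀ hω]
    exact (h u hu).2.1 hlt
  · rw [hw, norm_div, norm_pow, hn, div_lt_iff₀ (by positivity)] at hlt
    rw [hw1, norm_div, norm_pow, hn, le_div_iff₀ (by positivity)]
    exact (h u hu).2.2 hlt

end Pool.Agent.H91.LD
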